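import Pool.Agent.Lib.H24V.D1
import Pool.Agent.Lib.H53U.RDefs

set_option autoImplicit false

/-!
H24C (special sets and codimension, see PROOF.md): definitions and the statements of the modules.
-/

open MvPolynomial

namespace Pool.Agent.H24C

open Pool.Agent.H89T Pool.Agent.H67T Pool.Agent.H53U Pool.Agent.H24V

/-- The zero set of `I` has codimension greater than `r`: for every set `S` of coordinates whose
complement has at most `r` elements `I` contains a nonzero polynomial in the coordinates `S`. -/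
def CodimGt {ι : Type} [Fintype ι] [DecidableEq ι] (I : Ideal (MvPolynomial ι ℂ)) (r : ℕ) : Prop :=
  ∀ S : Finset ι, Sᶜ.card ≤ r → ∃ G ∈ I, G ≠ 0 ∧ G ∈ supported ℂ (S : Set ι)

section

variable {M h c : ℕ} {d : Fin c → ℕ}

/-- The coordinates of the space of pairs (tuple of forms, affine point). -/
abbrev PT (M : ℕ) {c : ℕ} (d : Fin c → ℕ) : Type := IT (Fin (M + 1)) d ⊕ Fin M

/-- The generic forms. -/
noncomputable def fgen (M : ℕ) {c : ℕ} (d : Fin c → ℕ) (j : Fin c) :
    MvPolynomial (Fin (M + 1)) (MvPolynomial (PT M d) ℂ) :=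
  fm fun δ : Ex (Fin (M + 1)) (d j) => (X (Sum.inl ⟨j, δ⟩) : MvPolynomial (PT M d) ℂ)

/-- The generic point. -/
noncomputable def agen (M : ℕ) {c : ℕ} (d : Fin c → ℕ) (b : Fin M) : MvPolynomial (PT M d) ℂ :=
  X (Sum.inr b)

/-- The ideal of the bad pairs (tuple of forms, affine point). -/
noncomputable def badI (Θ : MvPolynomial (I0 M h d) ℂ) : Ideal (MvPolynomial (PT M d) ℂ) :=
  Ideal.span (Set.range (fun j => eval (Fin.cons 1 (agen M d)) (fgen M d j)) ∪
    {x | ∃ ψ : Fin c → MvPolynomial (Fin (M + 1) ⊕ Fin h) ℂ, IsExtT h d ψ ∧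
      x = cv0 Θ (bigT (MvPolynomial (PT M d) ℂ) ψ fun j => shear (agen M d) (fgen M d j))})

end

/-- The coefficients of the tuple `F`. -/
noncomputable def cfT {M c : ℕ} (d : Fin c → ℕ) (F : Fin c → MvPolynomial (Fin (M + 1)) ℂ) :
    IT (Fin (M + 1)) d → ℂ := fun p => coeff (p.2 : Fin (M + 1) →₀ ℕ) (F p.1)

/-- The bijection of the variables. -/
def eqvH (k h c : ℕ) : Fin (k + c + 1) ⊕ Fin h ≃ Fin (k + h + c + 1) :=
  finSumFinEquiv.trans (finCongr (by omega))

/-- `y` is not proportional to a complex point. -/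
def NonConst {L : Type} [Field L] [Algebra ℂ L] {N : ℕ} (y : Fin N → L) : Prop :=
  ¬ ∃ (t : L) (x : Fin N → ℂ), ∀ i, y i = t * algebraMap ℂ L (x i)

/-- The forms of `T` vanish at the nonconstant points over good fields of `F`. -/
def VanL (B : ℕ) {M c : ℕ} (F : Fin c → MvPolynomial (Fin (M + 1)) ℂ)
    (T : Set (MvPolynomial (Fin (M + 1)) ℂ)) : Prop :=
  ∀ (L : Type) [Field L] [Algebra ℂ L] (D : Derivation ℂ L L), Good B L D →
    ∀ y : Fin (M + 1) → L, (∀ j, aeval y (F j) = 0) → NonConst y → ∀ G ∈ T, aeval y G = 0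

/-- THE MAIN PROPERTY of the type `d`, `N = n + c`: for all tuples of forms on `P ^ M`, `M = k + c`,
`0 ≤ k ≤ 2 n`, outside a closed subset of codimension greater than `s` the nonconstant points over good fields lie
in a closed subset of `P ^ M` of codimension greater than `2 N - M - s` (in `X_F`: greater than
`2 n - k - s`, i.e. of dimension less than `2 (k - n) + s`). -/
def HypC (B N c : ℕ) (d : Fin c → ℕ) : Prop :=
  ∀ M s : ℕ, c ≤ M → M + c ≤ 2 * N →
    ∃ I : Ideal (MvPolynomial (IT (Fin (M + 1)) d) ℂ), CodimGt I s ∧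
      ∀ F : Fin c → MvPolynomial (Fin (M + 1)) ℂ, (∀ j, (F j).IsHomogeneous (d j)) →
        (∃ Θ ∈ I, eval (cfT d F) Θ ≠ 0) →
          ∃ T : Set (MvPolynomial (Fin (M + 1)) ℂ), (∀ G ∈ T, ∃ e, G.IsHomogeneous e) ∧
            (∀ r, r + M + s ≤ 2 * N → CodimGt (Ideal.span T) r) ∧ VanL B F T

end Pool.Agent.H24C
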