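import Pool.Agent.Lib.H24C.D0

set_option autoImplicit false

/-!
H24C: further definitions.
-/

open MvPolynomial

namespace Pool.Agent.H24C

open Pool.Agent.H89T Pool.Agent.H67T Pool.Agent.H53U Pool.Agent.H24V

/-- For all tuples `F` outside a closed subset of codimension greater than `s` there is a form different from `0` in
the variables `S` which vanishes at the nonconstant points over good fields of `F`. -/
def SForm (B s : ℕ) {M c : ℕ} (d : Fin c → ℕ) (S : Finset (Fin (M + 1))) : Prop :=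
  ∃ I : Ideal (MvPolynomial (IT (Fin (M + 1)) d) ℂ), CodimGt I s ∧
    ∀ F : Fin c → MvPolynomial (Fin (M + 1)) ℂ, (∀ j, (F j).IsHomogeneous (d j)) →
      (∃ Θ ∈ I, eval (cfT d F) Θ ≠ 0) →
        ∃ G : MvPolynomial (Fin (M + 1)) ℂ, G ≠ 0 ∧ (∃ e, G.IsHomogeneous e) ∧
          G ∈ supported ℂ (S : Set (Fin (M + 1))) ∧ VanL B F {G}

/-- The conclusion for symmetric powers; `N = n + c`, `M = k + c`. -/
def SpecSym (m N c : ℕ) (d : Fin c → ℕ) : Prop :=
  ∀ M s : ℕ, c ≤ M → M + c ≤ 2 * N →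
    ∃ I : Ideal (MvPolynomial (IT (Fin (M + 1)) d) ℂ), (s : ℕ∞) < I.height ∧
      ∀ F : Fin c → MvPolynomial (Fin (M + 1)) ℂ, (∀ j, (F j).IsHomogeneous (d j)) →
        (∃ Θ ∈ I, eval (cfT d F) Θ ≠ 0) →
          ∃ T : Set (MvPolynomial (Fin (M + 1)) ℂ), (∀ G ∈ T, ∃ e, G.IsHomogeneous e) ∧
            (∀ j, F j ∈ T) ∧ ((2 * N : ℕ) : ℕ∞) < (Ideal.span T).height + ((M + s : ℕ) : ℕ∞) ∧
            ∀ H : ℂ → MvPolynomial (Fin (M + 1)) ℂ, SymCurve m F H →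
              (∃ z z', ∀ t : ℂ, H z' ≠ t • H z) →
                ∀ z, ∃ p : Fin m → Fin (M + 1) → ℂ, (∀ i, p i ≠ 0) ∧ H z = ∏ i, lf (p i) ∧
                  (∀ i j, eval (p i) (F j) = 0) ∧ ∃ i, ∀ G ∈ T, eval (p i) G = 0

end Pool.Agent.H24C
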