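import Pool.Agent.Lib.H24C.UD
import Pool.Agent.Lib.H24V.E0

set_option autoImplicit false

/-!
H24C: closed sets of dimension `0` contain only constant points.
-/

open MvPolynomial

namespace Pool.Agent.H24C

open Pool.Agent.H89T Pool.Agent.H67T Pool.Agent.H53U Pool.Agent.H24V

/-- The polynomials of the ideal vanish on the line through `y`. -/
theorem g12_line {L : Type} [Field L] [Algebra ℂ L] {N : ℕ} {T : Set (MvPolynomial (Fin N) ℂ)}
    (hT : ∀ G ∈ T, ∃ e, G.IsHomogeneous e) {y : Fin N → L} (hy : ∀ G ∈ T, aeval y G = 0)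
    {G : MvPolynomial (Fin N) ℂ} (hG : G ∈ Ideal.span T) :
    aeval (fun i => Polynomial.C (y i) * Polynomial.X) G = (0 : Polynomial L) := by
  classical
  have h0 : Ideal.span T ≤ RingHom.ker (aeval (fun i => Polynomial.C (y i) * Polynomial.X) :
      MvPolynomial (Fin N) ℂ →ₐ[ℂ] Polynomial L) := by
    rw [Ideal.span_le]
    intro G hG
    obtain ⟨e, he⟩ := hT G hG
    show (aeval fun i => Polynomial.C (y i) * Polynomial.X) G = 0
    have h1 : (aeval (fun i => Polynomial.C (y i) * Polynomial.X) : MvPolynomial (Fin N) ℂ →ₐ[ℂ] Polynomial L) G =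
        Polynomial.C (aeval y G) * Polynomial.X ^ e := by
      rw [aeval_def, eval₂_eq', aeval_def, eval₂_eq', map_sum, Finset.sum_mul]
      refine Finset.sum_congr rfl fun α hα => ?_
      have h2 : ∑ i, α i = e := by
        have h3 := he (mem_support_iff.1 hα)
        rw [Finsupp.weight_apply, Finsupp.sum_fintype _ _ (fun _ => by simp)] at h3
        simpa using h3
      simp only [mul_pow, Finset.prod_mul_distrib, Finset.prod_pow_eq_pow_sum, h2, map_mul, map_prod,
        map_pow]
      rw [mul_assoc]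
      rfl
    rw [h1, hy G hG, map_zero, zero_mul]
  exact h0 hG

/-- Two coordinates which satisfy a homogeneous relation are proportional. -/
theorem g12_two {L : Type} [Field L] [Algebra ℂ L] {N : ℕ} {y : Fin N → L} {i j : Fin N}
    (hij : i ≠ j) (hi : y i ≠ 0) {G : MvPolynomial (Fin N) ℂ} (hG0 : G ≠ 0)
    (hGS : G ∈ supported ℂ (({i, j} : Finset (Fin N)) : Set (Fin N)))
    (hG : aeval (fun i => Polynomial.C (y i) * Polynomial.X) G = (0 : Polynomial L)) :
    ∃ x : ℂ, y j = y i * algebraMap ℂ L x := by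
  classical
  obtain ⟨u, hu⟩ : ∃ u, u = y j / y i := ⟨_, rfl⟩
  have hyj : y j = y i * u := by
    rw [hu]
    field_simp
  have hsupp : ∀ μ ∈ G.support, ∀ a, a ≠ i → a ≠ j → μ a = 0 := by
    intro μ hμ a hai haj
    by_contra hne
    have h1 : a ∈ G.vars := mem_vars a |>.2 ⟨μ, hμ, Finsupp.mem_support_iff.2 hne⟩
    have h2 := (mem_supported.1 hGS) h1
    simp only [Finset.coe_insert, Finset.coe_singleton, Set.mem_insert_iff,
      Set.mem_singleton_iff] at h2
    rcases h2 with h2 | h2
    · exact hai h2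
    · exact haj h2
  have hprod : ∀ μ ∈ G.support, ∀ f : Fin N → Polynomial L,
      ∏ a, f a ^ μ a = f i ^ μ i * f j ^ μ j := by
    intro μ hμ f
    rw [← Finset.mul_prod_erase Finset.univ _ (Finset.mem_univ i),
      ← Finset.mul_prod_erase (Finset.univ.erase i) _
        (Finset.mem_erase.2 ⟨hij.symm, Finset.mem_univ j⟩)]
    rw [Finset.prod_eq_one, mul_one]
    intro a ha
    rw [Finset.mem_erase, Finset.mem_erase] at ha
    rw [hsupp μ hμ a ha.2.1 ha.1, pow_zero]
  obtain ⟨μ₀, hμ₀⟩ : ∃ μ, μ ∈ G.support := by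
    by_contra hcon
    push Not at hcon
    exact hG0 (support_eq_empty.1 (Finset.eq_empty_of_forall_notMem hcon))
  obtain ⟨e, he⟩ : ∃ e, e = μ₀ i + μ₀ j := ⟨_, rfl⟩
  -- the coefficient of `X ^ e`
  have hco : ∑ μ ∈ G.support.filter (fun μ => μ i + μ j = e),
      algebraMap ℂ L (coeff μ G) * u ^ μ j = 0 := by
    have h1 := congrArg (fun q : Polynomial L => q.coeff e) hG
    simp only [Polynomial.coeff_zero] at h1
    rw [aeval_def, eval₂_eq', Polynomial.finsetSum_coeff] at h1
    have h2 : ∀ μ ∈ G.support, (algebraMap ℂ (Polynomial L) (coeff μ G) *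
        ∏ a, (Polynomial.C (y a) * Polynomial.X) ^ μ a).coeff e =
        if μ i + μ j = e then y i ^ e * (algebraMap ℂ L (coeff μ G) * u ^ μ j) else 0 := by
      intro μ hμ
      rw [hprod μ hμ, mul_pow, mul_pow, hyj]
      have h3 : algebraMap ℂ (Polynomial L) (coeff μ G) * (Polynomial.C (y i) ^ μ i * Polynomial.X ^ μ i *
          (Polynomial.C (y i * u) ^ μ j * Polynomial.X ^ μ j)) =
          Polynomial.C (algebraMap ℂ L (coeff μ G) * (y i ^ μ i * (y i * u) ^ μ j)) *
            Polynomial.X ^ (μ i + μ j) := by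
        have h4 : algebraMap ℂ (Polynomial L) (coeff μ G) = Polynomial.C (algebraMap ℂ L (coeff μ G)) := rfl
        rw [h4]
        simp only [Polynomial.C_mul, Polynomial.C_pow, mul_pow, pow_add]
        ring
      rw [h3, Polynomial.coeff_C_mul, Polynomial.coeff_X_pow]
      split_ifs with h5 h6 h6
      · rw [← h6, mul_pow, pow_add]
        ring
      · exact absurd h5.symm h6
      · exact absurd h6.symm h5
      · rw [mul_zero]
    rw [Finset.sum_congr rfl h2, ← Finset.sum_filter, ← Finset.mul_sum] at h1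
    exact (mul_eq_zero.1 h1).resolve_left (pow_ne_zero _ hi)
  -- the polynomial with the root `u`
  obtain ⟨Q, hQ⟩ : ∃ Q : Polynomial ℂ, Q = ∑ μ ∈ G.support.filter (fun μ => μ i + μ j = e),
      Polynomial.C (coeff μ G) * Polynomial.X ^ μ j := ⟨_, rfl⟩
  have hQ0 : Q ≠ 0 := by
    intro h0
    have h1 := congrArg (fun q : Polynomial ℂ => q.coeff (μ₀ j)) hQ
    simp only [h0, Polynomial.coeff_zero] at h1
    rw [Polynomial.finsetSum_coeff, Finset.sum_eq_single μ₀] at h1
    · rw [Polynomial.coeff_C_mul, Polynomial.coeff_X_pow, if_pos rfl, mul_one] at h1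
      exact mem_support_iff.1 hμ₀ h1.symm
    · intro μ hμ hne
      rw [Polynomial.coeff_C_mul, Polynomial.coeff_X_pow, if_neg, mul_zero]
      intro h2
      apply hne
      rw [Finset.mem_filter] at hμ
      ext a
      by_cases hai : a = i
      · rw [hai]
        have := hμ.2
        omega
      · by_cases haj : a = j
        · rw [haj, h2]
        · rw [hsupp μ hμ.1 a hai haj, hsupp μ₀ hμ₀ a hai haj]
    · intro h2
      exact absurd (Finset.mem_filter.2 ⟨hμ₀, he.symm⟩) h2
  have hroot : Polynomial.aeval u Q = 0 := by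
    rw [hQ, map_sum, ← hco]
    refine Finset.sum_congr rfl fun μ _ => ?_
    rw [map_mul, Polynomial.aeval_C, map_pow, Polynomial.aeval_X]
  have halg : IsAlgebraic ℂ u := ⟨Q, hQ0, hroot⟩
  obtain ⟨x, hx⟩ : ∃ x, algebraMap ℂ L x = u := by
    have h1 := IsAlgClosed.degree_eq_one_of_irreducible ℂ (minpoly.irreducible halg.isIntegral)
    exact minpoly.mem_range_of_degree_eq_one ℂ u h1
  exact ⟨x, by rw [hyj, hx]⟩

/-- A closed set of dimension at most `0` contains only constant points. -/
theorem const_of_codim {L : Type} [Field L] [Algebra ℂ L] {M r : ℕ}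
    {T : Set (MvPolynomial (Fin (M + 1)) ℂ)} (hT : ∀ G ∈ T, ∃ e, G.IsHomogeneous e)
    (hc : CodimGt (Ideal.span T) r) (hr : M ≤ r + 1) {y : Fin (M + 1) → L}
    (hy : ∀ G ∈ T, aeval y G = 0) : ∃ (t : L) (x : Fin (M + 1) → ℂ), ∀ i, y i = t * algebraMap ℂ L (x i) := by
  classical
  by_cases h0 : ∃ i, y i ≠ 0
  · obtain ⟨i, hi⟩ := h0
    have h1 : ∀ j, ∃ x : ℂ, y j = y i * algebraMap ℂ L x := by
      intro j
      by_cases hij : i = j
      · exact ⟨1, by rw [hij, map_one, mul_one]⟩
      · obtain ⟨G, hGT, hG0, hGS⟩ := hc {i, j} (by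
          rw [Finset.card_compl, Fintype.card_fin, Finset.card_pair hij]
          omega)
        exact g12_two hij hi hG0 hGS (g12_line hT hy hGT)
    choose x hx using h1
    exact ⟨y i, x, hx⟩
  · push Not at h0
    exact ⟨0, 0, fun i => by rw [h0 i, zero_mul]⟩

/-- Points over good fields. -/
theorem vanL_one {B M c r : ℕ} {F : Fin c → MvPolynomial (Fin (M + 1)) ℂ}
    {T : Set (MvPolynomial (Fin (M + 1)) ℂ)} (hT : ∀ G ∈ T, ∃ e, G.IsHomogeneous e)
    (hc : CodimGt (Ideal.span T) r) (hr : M ≤ r + 1) (hV : VanL B F T) : VanL B F {1} := by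
  intro L _ _ D hG y hy hn
  exact absurd (const_of_codim hT hc hr (hV L D hG y hy hn)) hn

/-- The values of a polynomial at entire functions. -/
theorem g12_val {n : ℕ} (y : Fin n → EF) (G : MvPolynomial (Fin n) ℂ) (z : ℂ) :
    (aeval y G).1 z = eval (fun i => (y i).1 z) G := by
  induction G using MvPolynomial.induction_on with
  | C a => rw [aeval_C, eval_C]; rfl
  | add p q hp hq => rw [map_add, EF_add_apply, hp, hq, map_add]
  | mul_X p i hp => rw [map_mul, EF_mul_apply, hp, map_mul, aeval_X, eval_X]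

/-- Entire curves. -/
theorem vanU_one {M c r : ℕ} {F : Fin c → MvPolynomial (Fin (M + 1)) ℂ}
    {T : Set (MvPolynomial (Fin (M + 1)) ℂ)} (hT : ∀ G ∈ T, ∃ e, G.IsHomogeneous e)
    (hc : CodimGt (Ideal.span T) r) (hr : M ≤ r + 1) (hV : VanU F T) : VanU F {1} := by
  intro y hy hFy hn
  exfalso
  obtain ⟨Y, hY⟩ : ∃ Y : Fin (M + 1) → EF, ∀ i z, (Y i).1 z = y z i :=
    ⟨fun i => ⟨fun z => y z i, hy.diff i⟩, fun _ _ => rfl⟩
  have h1 : ∀ G ∈ T, aeval (fun i => algebraMap EF KK (Y i)) G = 0 := by
    intro G hG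
    have h2 : aeval Y G = 0 := by
      apply Subtype.ext
      funext z
      rw [g12_val, EF_zero_apply]
      have h3 : (fun i => (Y i).1 z) = y z := _root_.funext fun i => hY i z
      rw [h3]
      exact hV y hy hFy hn G hG z
    have h3 := aeval_algebraMap_apply KK Y G
    have h4 : (⇑(algebraMap EF KK) ∘ Y) = fun i => algebraMap EF KK (Y i) := rfl
    rw [h4, h2, map_zero] at h3
    exact h3
  obtain ⟨t, x, hx⟩ := const_of_codim hT hc hr h1
  have hinj : Function.Injective (algebraMap EF KK) := IsFractionRing.injective EF KK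
  have h5 : ∀ i j z, y z i * x j = y z j * x i := by
    intro i j z
    have h6 : Y i * algebraMap ℂ EF (x j) = Y j * algebraMap ℂ EF (x i) := by
      apply hinj
      rw [map_mul, map_mul, hx i, hx j, ← IsScalarTower.algebraMap_apply ℂ EF KK,
        ← IsScalarTower.algebraMap_apply ℂ EF KK]
      ring
    have h7 := congrArg (fun f : EF => f.1 z) h6
    simp only [EF_mul_apply, EF_algebraMap_apply, hY] at h7
    exact h7
  obtain ⟨j, hj⟩ : ∃ j, x j ≠ 0 := by
    by_contra hcon
    push Not at hcon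
    obtain ⟨i, hi⟩ : ∃ i, y 0 i ≠ 0 := by
      by_contra hcon'
      push Not at hcon'
      exact hy.ne_zero 0 (_root_.funext hcon')
    have h6 := hx i
    rw [hcon i, map_zero, mul_zero] at h6
    have h7 : Y i = 0 := hinj (by rw [h6, map_zero])
    apply hi
    rw [← hY, h7, EF_zero_apply]
  obtain ⟨z, w, hzw⟩ := hn
  have hzj : y z j ≠ 0 := by
    intro h0
    apply hy.ne_zero z
    funext i
    have h6 := h5 i j z
    rw [h0, zero_mul] at h6
    exact (mul_eq_zero.1 h6).resolve_right hj
  apply hzw (y w j / y z j)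
  funext i
  rw [Pi.smul_apply, smul_eq_mul, div_mul_eq_mul_div, eq_div_iff hzj]
  apply mul_right_cancel₀ hj
  calc y w i * y z j * x j = (y w i * x j) * y z j := by ring
    _ = (y w j * x i) * y z j := by rw [h5 i j w]
    _ = y w j * (y z j * x i) := by ring
    _ = y w j * (y z i * x j) := by rw [h5 i j z]
    _ = y w j * y z i * x j := by ring

end Pool.Agent.H24C
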