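import Pool.Agent.Lib.H24C.D0

set_option autoImplicit false

/-!
CHUNK G8 (M/L).  Heights.
-/

open MvPolynomial

namespace Pool.Agent.H24C

/-- The induction step of `exists_indep` on the side of `R[X]`. -/
private theorem g8_step {n : ℕ} (P : Ideal (MvPolynomial (Fin (n + 1)) ℂ)) [P.IsPrime]
    (IH : ∀ p : Ideal (MvPolynomial (Fin n) ℂ), p.IsPrime →
      ∃ S : Finset (Fin n), ((Sᶜ.card : ℕ) : ℕ∞) ≤ p.height ∧
        ∀ G ∈ p, G ∈ supported ℂ (S : Set (Fin n)) → G = 0) :
    ∃ S : Finset (Fin (n + 1)), ((Sᶜ.card : ℕ) : ℕ∞) ≤ P.height ∧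
      ∀ G ∈ P, G ∈ supported ℂ (S : Set (Fin (n + 1))) → G = 0 := by
  classical
  obtain ⟨e, he⟩ : ∃ e : MvPolynomial (Fin (n + 1)) ℂ ≃+* Polynomial (MvPolynomial (Fin n) ℂ),
      ∀ G, e G = finSuccEquiv ℂ n G := ⟨(finSuccEquiv ℂ n).toRingEquiv, fun _ => rfl⟩
  obtain ⟨Q, hQ⟩ : ∃ Q, Q = Ideal.comap (e.symm : Polynomial (MvPolynomial (Fin n) ℂ) →+* _) P :=
    ⟨_, rfl⟩
  have hQP : Q.height = P.height := by
    rw [hQ]
    exact RingEquiv.height_comap e.symm P
  have hmem : ∀ G, e G ∈ Q ↔ G ∈ P := fun G => by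
    rw [hQ, Ideal.mem_comap]
    show e.symm (e G) ∈ P ↔ G ∈ P
    rw [RingEquiv.symm_apply_apply]
  have : Q.IsPrime := by
    rw [hQ]
    exact Ideal.comap_isPrime _ _
  obtain ⟨p, hp⟩ : ∃ p, p = Q.comap (Polynomial.C : MvPolynomial (Fin n) ℂ →+* _) := ⟨_, rfl⟩
  have hpp : p.IsPrime := by
    rw [hp]
    exact Ideal.comap_isPrime _ _
  have hlo : Q.LiesOver p := ⟨hp⟩
  obtain ⟨S, hS, hSG⟩ := IH p hpp
  have hh := Ideal.height_eq_height_add_of_liesOver_of_hasGoingDown p Q
  have hmc : ∀ G : MvPolynomial (Fin (n + 1)) ℂ, ∀ i, ∀ j ∈ ((e G).coeff i).vars, Fin.succ j ∈ G.vars := by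
    intro G i j hj
    obtain ⟨m, hm, hjm⟩ := (mem_vars_iff_mem_support _).1 hj
    rw [he, mem_support_coeff_finSuccEquiv] at hm
    refine (mem_vars_iff_mem_support _).2 ⟨_, hm, ?_⟩
    rw [Finsupp.mem_support_iff] at hjm ⊢
    rwa [Finsupp.cons_succ]
  have hcard : S.card ≤ n := by simpa using Finset.card_le_univ S
  by_cases hA : ∀ F ∈ Q, ∀ i, F.coeff i ∈ p
  · refine ⟨insert 0 (S.map (Fin.succEmb n)), ?_, fun G hG hGS => ?_⟩
    · have h1 : (insert 0 (S.map (Fin.succEmb n)))ᶜ.card = Sᶜ.card := by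
        rw [Finset.card_compl, Finset.card_compl, Finset.card_insert_of_notMem, Finset.card_map,
          Fintype.card_fin, Fintype.card_fin]
        · omega
        · intro h0
          obtain ⟨a, _, ha⟩ := Finset.mem_map.1 h0
          exact Fin.succ_ne_zero a ha
      rw [h1, ← hQP, hh]
      exact hS.trans le_self_add
    · have h2 : ∀ i, (e G).coeff i = 0 := by
        intro i
        refine hSG _ (hA _ ((hmem G).2 hG) i) ?_
        rw [mem_supported]
        intro j hj
        have h3 := hmc G i j hj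
        rw [mem_supported] at hGS
        have h4 := hGS h3
        rw [Finset.mem_coe, Finset.mem_insert] at h4
        rcases h4 with h4 | h4
        · exact absurd h4 (Fin.succ_ne_zero j)
        · obtain ⟨a, ha, hab⟩ := Finset.mem_map.1 h4
          have hab' : a.succ = j.succ := hab
          rw [Fin.succ_inj] at hab'
          rwa [← hab']
      have h5 : e G = 0 := Polynomial.ext fun i => by rw [h2, Polynomial.coeff_zero]
      exact (map_eq_zero_iff e e.injective).1 h5
  · push Not at hA
    obtain ⟨F, hF, i, hi⟩ := hA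
    refine ⟨S.map (Fin.succEmb n), ?_, fun G hG hGS => ?_⟩
    · have h1 : (S.map (Fin.succEmb n))ᶜ.card = Sᶜ.card + 1 := by
        rw [Finset.card_compl, Finset.card_compl, Finset.card_map,
          Fintype.card_fin, Fintype.card_fin]
        omega
      rw [h1, ← hQP, hh, Nat.cast_add]
      refine add_le_add hS ?_
      rw [Nat.cast_one]
      obtain ⟨J, hJ⟩ : ∃ J, J = Ideal.map (algebraMap (MvPolynomial (Fin n) ℂ)
          (Polynomial (MvPolynomial (Fin n) ℂ))) p := ⟨_, rfl⟩
      rw [← hJ]
      have : J.IsPrime := by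
        rw [hJ]
        exact Ideal.isPrime_map_C_of_isPrime
      have hker : RingHom.ker (Ideal.Quotient.mk J) ≤ Q := by
        rw [Ideal.mk_ker, hJ, Ideal.map_le_iff_le_comap, hp]
        exact le_rfl
      have : (Ideal.map (Ideal.Quotient.mk J) Q).IsPrime :=
        Ideal.map_isPrime_of_surjective Ideal.Quotient.mk_surjective hker
      have : (⊥ : Ideal (Polynomial (MvPolynomial (Fin n) ℂ) ⧸ J)).IsPrime := Ideal.isPrime_bot
      have hne : Ideal.map (Ideal.Quotient.mk J) Q ≠ ⊥ := by
        intro h0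
        have h6 : Ideal.Quotient.mk J F ∈ Ideal.map (Ideal.Quotient.mk J) Q :=
          Ideal.mem_map_of_mem _ hF
        rw [h0, Ideal.mem_bot, Ideal.Quotient.eq_zero_iff_mem, hJ] at h6
        exact hi (Ideal.mem_map_C_iff.1 h6 i)
      have h7 : (⊥ : Ideal (Polynomial (MvPolynomial (Fin n) ℂ) ⧸ J)).height <
          (Ideal.map (Ideal.Quotient.mk J) Q).height :=
        Ideal.height_strict_mono_of_isPrime (lt_of_le_of_ne bot_le (Ne.symm hne))
      exact Order.one_le_iff_pos.2 (lt_of_le_of_lt bot_le h7)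
    · rw [mem_supported] at hGS
      have h8 : ∀ k : ℕ, k ≠ 0 → (e G).coeff k = 0 := by
        intro k hk
        by_contra h9
        obtain ⟨m, hm⟩ := MvPolynomial.support_nonempty.2 h9
        rw [he, mem_support_coeff_finSuccEquiv] at hm
        have h10 : (0 : Fin (n + 1)) ∈ G.vars := by
          refine (mem_vars_iff_mem_support _).2 ⟨_, hm, ?_⟩
          rw [Finsupp.mem_support_iff, Finsupp.cons_zero]
          exact hk
        obtain ⟨a, _, ha⟩ := Finset.mem_map.1 (hGS h10)
        exact Fin.succ_ne_zero a ha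
      have h11 : e G = Polynomial.C ((e G).coeff 0) := by
        refine Polynomial.ext fun k => ?_
        rw [Polynomial.coeff_C]
        split_ifs with hk
        · rw [hk]
        · exact h8 k hk
      have h12 : (e G).coeff 0 ∈ p := by
        rw [hp, Ideal.mem_comap, ← h11]
        exact (hmem G).2 hG
      have h13 : (e G).coeff 0 = 0 := by
        refine hSG _ h12 ?_
        rw [mem_supported]
        intro j hj
        have h4 := hGS (hmc G 0 j hj)
        rw [Finset.mem_coe] at h4
        obtain ⟨a, ha, hab⟩ := Finset.mem_map.1 h4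
        have hab' : a.succ = j.succ := hab
        rw [Fin.succ_inj] at hab'
        rwa [← hab']
      rw [h13, map_zero] at h11
      exact (map_eq_zero_iff e e.injective).1 h11

/-- Induction on `n`, `finSuccEquiv : MvPolynomial (Fin (n + 1)) ℂ ≃ₐ Polynomial (MvPolynomial (Fin n) ℂ)`: let `P` be a prime of `R[X]`, `R = MvPolynomial (Fin n) ℂ`, `p = P ∩ R`, `S` the
set for `p`.  `P.height = p.height + (P.map (mk (p R[X]))).height` (`Ideal.height_eq_height_add_of_liesOver_of_hasGoingDown`, as in
Mathlib/RingTheory/KrullDimension/Polynomial.lean).  If `P` contains no nonzero polynomial in the variables `S ∪ {X}` take this set.  Otherwise `P ≠ p R[X]` (the coefficients of a polynomial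
in `p R[X]` are in `p`), so the second height is at least `1` (a nonzero prime of a domain), and take `S`. -/
theorem exists_indep {n : ℕ} (P : Ideal (MvPolynomial (Fin n) ℂ)) [P.IsPrime] :
    ∃ S : Finset (Fin n), ((Sᶜ.card : ℕ) : ℕ∞) ≤ P.height ∧
      ∀ G ∈ P, G ∈ supported ℂ (S : Set (Fin n)) → G = 0 := by
  classical
  have key : ∀ (n : ℕ) (P : Ideal (MvPolynomial (Fin n) ℂ)), P.IsPrime →
      ∃ S : Finset (Fin n), ((Sᶜ.card : ℕ) : ℕ∞) ≤ P.height ∧
        ∀ G ∈ P, G ∈ supported ℂ (S : Set (Fin n)) → G = 0 := by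
    intro n
    induction n with
    | zero =>
      intro P hP
      refine ⟨Finset.univ, ?_, fun G hG _ => ?_⟩
      · simp
      · by_contra h0
        apply hP.ne_top
        obtain ⟨c, hc⟩ := MvPolynomial.C_surjective (Fin 0) G
        rw [← hc] at hG h0
        have hc0 : c ≠ 0 := fun h => h0 (by rw [h, map_zero])
        exact P.eq_top_of_isUnit_mem hG ((isUnit_iff_ne_zero.2 hc0).map C)
    | succ n IH =>
      intro P hP
      have := hP
      exact g8_step P IH
  exact key n P inferInstance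

/-- From `exists_indep` for the minimal primes of `I` (`Ideal.height` is the infimum of their heights), after a bijection of `ι` and `Fin n`. -/
theorem lt_height_of_codimGt {ι : Type} [Fintype ι] [DecidableEq ι]
    {I : Ideal (MvPolynomial ι ℂ)} {r : ℕ} (h : CodimGt I r) : (r : ℕ∞) < I.height := by
  classical
  have hkey : ((r + 1 : ℕ) : ℕ∞) ≤ I.height := by
    rw [Ideal.height_eq_inf_minimalPrimes]
    refine le_iInf₂ fun P hP => ?_
    have hPp : P.IsPrime := hP.1.1
    have hIP : I ≤ P := hP.1.2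
    by_contra hlt
    rw [not_le] at hlt
    obtain ⟨f⟩ : Nonempty (ι ≃ Fin (Fintype.card ι)) := ⟨Fintype.equivFin ι⟩
    obtain ⟨e, he⟩ : ∃ e : MvPolynomial ι ℂ ≃+* MvPolynomial (Fin (Fintype.card ι)) ℂ,
        ∀ G, e G = rename f G := ⟨(renameEquiv ℂ f).toRingEquiv, fun _ => rfl⟩
    obtain ⟨Q, hQ⟩ : ∃ Q, Q = Ideal.comap
        (e.symm : MvPolynomial (Fin (Fintype.card ι)) ℂ →+* MvPolynomial ι ℂ) P := ⟨_, rfl⟩
    have hQP : Q.height = P.height := by
      rw [hQ]
      exact RingEquiv.height_comap e.symm P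
    have : Q.IsPrime := by
      rw [hQ]
      exact Ideal.comap_isPrime _ _
    obtain ⟨S, hS, hSG⟩ := exists_indep Q
    obtain ⟨G, hGI, hG0, hGS⟩ := h (S.map f.symm.toEmbedding) (by
      rw [Finset.card_compl, Finset.card_map]
      rw [Finset.card_compl, Fintype.card_fin, hQP] at hS
      have h1 := lt_of_le_of_lt hS hlt
      have h2 : Fintype.card ι - S.card < r + 1 := by exact_mod_cast h1
      omega)
    apply hG0
    have h3 : e G = 0 := by
      refine hSG _ ?_ ?_
      · rw [hQ, Ideal.mem_comap]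
        show e.symm (e G) ∈ P
        rw [RingEquiv.symm_apply_apply]
        exact hIP hGI
      · rw [mem_supported] at hGS ⊢
        rw [he]
        intro j hj
        have h4 := vars_rename f G hj
        obtain ⟨a, ha, hab⟩ := Finset.mem_image.1 h4
        have h5 := hGS ha
        rw [Finset.mem_coe] at h5
        obtain ⟨b, hb, hba⟩ := Finset.mem_map.1 h5
        rw [← hab, ← hba]
        show f (f.symm b) ∈ (S : Set _)
        rw [Equiv.apply_symm_apply]
        exact hb
    exact (map_eq_zero_iff e e.injective).1 h3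
  exact lt_of_lt_of_le (by exact_mod_cast Nat.lt_succ_self r) hkey

end Pool.Agent.H24C
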