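import Pool.Agent.Lib.H24C.UD
import Pool.Agent.Lib.H24C.G8
import Pool.Agent.Lib.H24C.G12

set_option autoImplicit false

/-!
H24C: the final form of the conclusion for symmetric powers.
-/

open MvPolynomial

namespace Pool.Agent.H24C

open Pool.Agent.H89T Pool.Agent.H67T Pool.Agent.H53U Pool.Agent.H24V

/-- The conclusion for symmetric powers; `N = n + c`, `M = k + c`; the closed set is empty if `2 M + s ≤ 2 N + 1`. -/
def SpecSym2 (m N c : ℕ) (d : Fin c → ℕ) : Prop :=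
  ∀ M s : ℕ, c ≤ M → M + c ≤ 2 * N →
    ∃ I : Ideal (MvPolynomial (IT (Fin (M + 1)) d) ℂ), (s : ℕ∞) < I.height ∧
      ∀ F : Fin c → MvPolynomial (Fin (M + 1)) ℂ, (∀ j, (F j).IsHomogeneous (d j)) →
        (∃ Θ ∈ I, eval (cfT d F) Θ ≠ 0) →
          ∃ T : Set (MvPolynomial (Fin (M + 1)) ℂ), (∀ G ∈ T, ∃ e, G.IsHomogeneous e) ∧
            (∀ j, F j ∈ T) ∧ ((2 * N : ℕ) : ℕ∞) < (Ideal.span T).height + ((M + s : ℕ) : ℕ∞) ∧
            (2 * M + s ≤ 2 * N + 1 → 1 ∈ T) ∧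
            ∀ H : ℂ → MvPolynomial (Fin (M + 1)) ℂ, SymCurve m F H →
              (∃ z z', ∀ t : ℂ, H z' ≠ t • H z) →
                ∀ z, ∃ p : Fin m → Fin (M + 1) → ℂ, (∀ i, p i ≠ 0) ∧ H z = ∏ i, lf (p i) ∧
                  (∀ i j, eval (p i) (F j) = 0) ∧ ∃ i, ∀ G ∈ T, eval (p i) G = 0

/-- The heights. -/
theorem d2_height {M s N : ℕ} {T T' : Set (MvPolynomial (Fin (M + 1)) ℂ)} (hTT' : T ⊆ T')
    (hc : ∀ r, r + M + s ≤ 2 * N → CodimGt (Ideal.span T) r) :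
    ((2 * N : ℕ) : ℕ∞) < (Ideal.span T').height + ((M + s : ℕ) : ℕ∞) := by
  by_cases h : M + s ≤ 2 * N
  · have h1 := lt_height_of_codimGt (hc (2 * N - (M + s)) (by omega))
    have h2 : ((2 * N : ℕ) : ℕ∞) = ((2 * N - (M + s) : ℕ) : ℕ∞) + ((M + s : ℕ) : ℕ∞) := by
      rw [← Nat.cast_add, Nat.sub_add_cancel h]
    rw [h2]
    exact (ENat.add_lt_add_iff_right (ENat.coe_ne_top _)).2
      (h1.trans_le (Ideal.height_mono (Ideal.span_mono hTT')))
  · have h1 : ((2 * N : ℕ) : ℕ∞) < ((M + s : ℕ) : ℕ∞) := by exact_mod_cast not_le.1 h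
    exact h1.trans_le le_add_self

/-- The set of the additional forms. -/
def addT {M c : ℕ} (N s : ℕ) (F : Fin c → MvPolynomial (Fin (M + 1)) ℂ)
    (T : Set (MvPolynomial (Fin (M + 1)) ℂ)) : Set (MvPolynomial (Fin (M + 1)) ℂ) :=
  T ∪ Set.range F ∪ {G | G = 1 ∧ 2 * M + s ≤ 2 * N + 1}

theorem addT_forms {M c N s : ℕ} {d : Fin c → ℕ} {F : Fin c → MvPolynomial (Fin (M + 1)) ℂ}
    (hF : ∀ j, (F j).IsHomogeneous (d j)) {T : Set (MvPolynomial (Fin (M + 1)) ℂ)}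
    (hT : ∀ G ∈ T, ∃ e, G.IsHomogeneous e) : ∀ G ∈ addT N s F T, ∃ e, G.IsHomogeneous e := by
  rintro G ((hG | ⟨j, rfl⟩) | ⟨rfl, -⟩)
  · exact hT G hG
  · exact ⟨d j, hF j⟩
  · exact ⟨0, isHomogeneous_one _ _⟩

theorem addT_vanL {B M c N s : ℕ} {F : Fin c → MvPolynomial (Fin (M + 1)) ℂ}
    {T : Set (MvPolynomial (Fin (M + 1)) ℂ)} (hT : ∀ G ∈ T, ∃ e, G.IsHomogeneous e)
    (hc : ∀ r, r + M + s ≤ 2 * N → CodimGt (Ideal.span T) r) (hV : VanL B F T) :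
    VanL B F (addT N s F T) := by
  intro L _ _ D hG y hy hn G hGT
  rcases hGT with (hGT | ⟨j, rfl⟩) | ⟨rfl, hs⟩
  · exact hV L D hG y hy hn G hGT
  · exact hy j
  · rcases Nat.eq_zero_or_pos M with rfl | hM
    · exfalso
      refine hn ⟨y 0, fun _ => 1, fun i => ?_⟩
      rw [map_one, mul_one, Fin.fin_one_eq_zero i]
    · exact vanL_one hT (hc (2 * N - (M + s)) (by omega)) (by omega) hV L D hG y hy hn 1 rfl

theorem addT_vanU {M c N s : ℕ} {F : Fin c → MvPolynomial (Fin (M + 1)) ℂ}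
    {T : Set (MvPolynomial (Fin (M + 1)) ℂ)} (hT : ∀ G ∈ T, ∃ e, G.IsHomogeneous e)
    (hc : ∀ r, r + M + s ≤ 2 * N → CodimGt (Ideal.span T) r) (hV : VanU F T) :
    VanU F (addT N s F T) := by
  intro y hy hFy hn G hGT z
  rcases hGT with (hGT | ⟨j, rfl⟩) | ⟨rfl, hs⟩
  · exact hV y hy hFy hn G hGT z
  · exact hFy z j
  · rcases Nat.eq_zero_or_pos M with rfl | hM
    · exfalso
      obtain ⟨z, w, hzw⟩ := hn
      have h0 : y z 0 ≠ 0 := by
        intro h0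
        apply hy.ne_zero z
        funext i
        rw [Fin.fin_one_eq_zero i]
        exact h0
      apply hzw (y w 0 / y z 0)
      funext i
      rw [Fin.fin_one_eq_zero i, Pi.smul_apply, smul_eq_mul, div_mul_cancel₀ _ h0]
    · exact vanU_one hT (hc (2 * N - (M + s)) (by omega)) (by omega) hV y hy hFy hn 1 rfl z

end Pool.Agent.H24C
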