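import Pool.Agent.Lib.H24C.D1
import Pool.Agent.Lib.H24V.P5

set_option autoImplicit false

/-!
CHUNK G9A (M/L).  Entire curves in symmetric powers: generic parameters.
-/

open MvPolynomial

namespace Pool.Agent.H24C

open Pool.Agent.H89T Pool.Agent.H67T Pool.Agent.H53U Pool.Agent.H24V

/-- The exponents of degree `m`. -/
private def g9a_E (n m : ℕ) : Finset (Fin n →₀ ℕ) := Finset.univ.finsuppAntidiag m

private theorem g9a_eval {A : Type} [CommRing A] {n m : ℕ} {P : MvPolynomial (Fin n) A}
    (hP : P.IsHomogeneous m) (x : Fin n → A) :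
    eval x P = ∑ α ∈ g9a_E n m, coeff α P * ∏ a, x a ^ α a := by
  classical
  rw [eval_eq']
  refine Finset.sum_subset (fun α hα => ?_) (fun α _ hα => ?_)
  · rw [g9a_E, Finset.mem_finsuppAntidiag]
    refine ⟨?_, Finset.subset_univ _⟩
    have h2 := hP (mem_support_iff.1 hα)
    rw [Finsupp.weight_apply, Finsupp.sum_fintype _ _ (fun _ => by simp)] at h2
    simpa using h2
  · rw [notMem_support_iff.1 hα, zero_mul]

private theorem g9a_lf_hom {A : Type} [CommRing A] {n : ℕ} (y : Fin n → A) :
    (lf y).IsHomogeneous 1 := by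
  unfold lf
  refine IsHomogeneous.sum _ _ _ fun b _ => ?_
  have h := (isHomogeneous_C (Fin n) (y b)).mul (isHomogeneous_X A b)
  rwa [zero_add] at h

private theorem g9a_prod_hom {A : Type} [CommRing A] {n m : ℕ} (y : Fin m → Fin n → A) :
    (∏ i, lf (y i)).IsHomogeneous m := by
  have h := IsHomogeneous.prod Finset.univ (fun i => lf (y i)) (fun _ => 1)
    fun i _ => g9a_lf_hom (y i)
  simpa using h

private theorem g9a_eval_lf {A : Type} [CommRing A] {n : ℕ} (y x : Fin n → A) :
    eval x (lf y) = ∑ a, y a * x a := by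
  unfold lf
  rw [map_sum]
  exact Finset.sum_congr rfl fun a _ => by rw [map_mul, eval_C, eval_X]

/-- As `symHyp_of_hypL` (H24V/P5.lean): `Om`, `ev`, `y`, `u`, for each `i` the field `E` generated by the `y i a / linc u (y i)`, `D`, `good_of`, `g`.  If no `y i` had `NonConst g`, all would be
proportional to complex points `w i` and `sym_end` contradicts the hypothesis.  So `NonConst g` for some `i`, and `aeval g G = 0` for `G ∈ T`
(`VanL`).  `linc u g = 1`.  Let `HE : MvPolynomial _ E` be the polynomial with the coefficients of `H` (finitely many exponents, of degree `m`): for `v : _ → E` with `∑ v a * g a = 0` one has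
`eval v HE = 0` (map to `Om`: `HE` becomes `∏ i, lf (y i)`, the factor `i` vanishes at `v`).  Apply this to `v' = v - (∑ v a * g a) • u`, `v` complex.  For generic `z` (`fiber`, H24V/B.lean, with a primitive
element from `IntermediateField`/`exists_prim`, `s` containing the `g a`, `sK` the coefficients) there is a place `q` of `E` above `z` with `g a ∈ q.O`; `p a = q.val (g a)`: then `linc u p = 1`,
`eval p G = q.val (aeval g G) = 0`, and if `linc v p = 0` the value of `v'` at `q` is `v`, and `eval v (H z) = q.val (eval v' HE) = 0`. -/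
theorem sym_gen {m M c : ℕ} {d : Fin c → ℕ} {F : Fin c → MvPolynomial (Fin (M + 1)) ℂ}
    (hF : ∀ j, (F j).IsHomogeneous (d j)) {T : Set (MvPolynomial (Fin (M + 1)) ℂ)}
    (hT : VanL (4 * m - 3) F T) {H : ℂ → MvPolynomial (Fin (M + 1)) ℂ} (hH : SymCurve m F H)
    (hne : ∃ z z', ∀ t : ℂ, H z' ≠ t • H z) :
    Gen fun z => ∃ p : Fin (M + 1) → ℂ, p ≠ 0 ∧ (∀ G ∈ T, eval p G = 0) ∧
      ∀ v, linc v p = 0 → eval v (H z) = 0 := by
  classical
  obtain ⟨Om, iF, iC, iK, iT, ev, hev⟩ := exists_Om
  obtain ⟨y, hy0, hyF, hyH⟩ := exists_pts ev hH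
  obtain ⟨u, hu⟩ := exists_u y hy0
  obtain ⟨cf, hcf⟩ : ∃ cf : (Fin (M + 1) →₀ ℕ) → EF, ∀ α z, (cf α).1 z = coeff α (H z) :=
    ⟨fun α => ⟨fun z => coeff α (H z), hH.diff α⟩, fun _ _ => rfl⟩
  have hyc : ∀ α, coeff α (∏ i, lf (y i)) = algebraMap KK Om (algebraMap EF KK (cf α)) := by
    intro α
    rw [hyH, ← hev]
    congr 1
    funext z
    exact (hcf α z).symm
  have hK : ∀ α, coeff α (∏ i, lf (y i)) ∈ (algebraMap KK Om).range := fun α =>
    ⟨_, (hyc α).symm⟩
  -- the data for every `i`
  have hdata : ∀ i, ∃ (E : IntermediateField KK Om) (_ : FiniteDimensional KK E)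
      (D : Derivation ℂ E E) (g : Fin (M + 1) → E),
      (∀ x, D (algebraMap KK E x) = algebraMap KK E (DK x)) ∧ Good (4 * m - 3) E D ∧
      (∀ a, (g a : Om) = (linc u (y i))⁻¹ * y i a) ∧ ∀ j, aeval g (F j) = 0 := by
    intro i
    obtain ⟨E, hE⟩ : ∃ E, E = IntermediateField.adjoin KK (Set.range fun a => y i a / linc u (y i)) :=
      ⟨_, rfl⟩
    obtain ⟨hfin, hrank⟩ := finrank_le_of_pts hK hu i
    rw [← hE] at hfin hrank
    have hfin' : FiniteDimensional KK E := hfin
    obtain ⟨D, hD⟩ := exists_DL E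
    have hgood := good_of hD hrank
    obtain ⟨g, hg⟩ : ∃ g : Fin (M + 1) → E, ∀ a, (g a : Om) = y i a / linc u (y i) :=
      ⟨fun a => ⟨y i a / linc u (y i), by
        rw [hE]
        exact IntermediateField.subset_adjoin _ _ ⟨a, rfl⟩⟩, fun _ => rfl⟩
    have hgc : ∀ a, (g a : Om) = (linc u (y i))⁻¹ * y i a := fun a => by
      rw [hg, div_eq_inv_mul]
    have hgF : ∀ j, aeval g (F j) = 0 := by
      intro j
      apply Subtype.ext
      have h1 := MvPolynomial.comp_aeval_apply (f := g) (E.val.restrictScalars ℂ) (F j)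
      have h2 : (fun a => (E.val.restrictScalars ℂ) (g a)) = fun a => (linc u (y i))⁻¹ * y i a :=
        _root_.funext hgc
      rw [h2] at h1
      have h3 : aeval (fun a => (linc u (y i))⁻¹ * y i a) (F j) =
          (linc u (y i))⁻¹ ^ d j * aeval (y i) (F j) := aeval_mul_left (hF j) _ _
      rw [h3, hyF, mul_zero] at h1
      exact h1
    exact ⟨E, hfin', D, g, hD, hgood, hgc, hgF⟩
  choose E hfin D g hD hgood hgc hgF using hdata
  have hug : ∀ i, linc u (fun a => (g i a : Om)) = 1 := by
    intro i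
    unfold linc
    have h5 : ∀ a, u a • (g i a : Om) = (linc u (y i))⁻¹ * (u a • y i a) := fun a => by
      rw [hgc, mul_smul_comm]
    rw [Finset.sum_congr rfl fun a _ => h5 a, ← Finset.mul_sum]
    exact inv_mul_cancel₀ (hu i)
  -- some point is not constant
  obtain ⟨i, hi⟩ : ∃ i, NonConst (g i) := by
    by_contra hcon
    push Not at hcon
    have hpts : ∀ i, ∃ w : Fin (M + 1) → ℂ, ∀ a, y i a = linc u (y i) * algebraMap ℂ Om (w a) := by
      intro i
      obtain ⟨t, x, htx⟩ := not_not.1 (hcon i)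
      have h4 : ∀ a, (g i a : Om) = t * algebraMap ℂ Om (x a) := fun a => by
        rw [htx a]
        rfl
      have htu : (t : Om) * algebraMap ℂ Om (∑ a, u a * x a) = 1 := by
        rw [← hug i]
        unfold linc
        rw [map_sum, Finset.mul_sum]
        refine Finset.sum_congr rfl fun a _ => ?_
        show _ = u a • (g i a : Om)
        rw [h4, map_mul, Algebra.smul_def]
        ring
      refine ⟨fun a => (∑ a, u a * x a)⁻¹ * x a, fun a => ?_⟩
      have h6 := h4 a
      rw [hgc, inv_mul_eq_iff_eq_mul₀ (hu i)] at h6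
      rw [h6, map_mul, map_inv₀]
      have h5 : (t : Om) = (algebraMap ℂ Om (∑ a, u a * x a))⁻¹ := eq_inv_of_mul_eq_one_left htu
      rw [h5]
    choose w hw using hpts
    obtain ⟨z, z', hzz⟩ := hne
    obtain ⟨t, ht⟩ := sym_end ev hev hH hyH hu hw z z'
    exact hzz t ht
  have hGT : ∀ G ∈ T, aeval (g i) G = 0 := hT (E i) (D i) (hgood i) (g i) (hgF i) hi
  -- the equation over `E`
  have hug' : linc u (g i) = 1 := by
    apply Subtype.ext
    have h1 := hug i
    have h2 : ((linc u (g i) : E i) : Om) = linc u fun a => (g i a : Om) := by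
      unfold linc
      exact map_sum (E i).val (fun a => u a • g i a) Finset.univ
    rw [h2, h1]
    rfl
  have hHE : ∀ x : Fin (M + 1) → E i, (∑ a, g i a * x a) = 0 →
      (∑ α ∈ g9a_E (M + 1) m, algebraMap KK (E i) (algebraMap EF KK (cf α)) *
        ∏ a, x a ^ α a) = 0 := by
    intro x hx
    apply Subtype.ext
    have h1 : ((∑ α ∈ g9a_E (M + 1) m, algebraMap KK (E i) (algebraMap EF KK (cf α)) *
        ∏ a, x a ^ α a : E i) : Om) = ∑ α ∈ g9a_E (M + 1) m,
          algebraMap KK Om (algebraMap EF KK (cf α)) * ∏ a, (x a : Om) ^ α a := by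
      have h2 := map_sum (E i).val (fun α => algebraMap KK (E i) (algebraMap EF KK (cf α)) *
        ∏ a, x a ^ α a) (g9a_E (M + 1) m)
      refine h2.trans (Finset.sum_congr rfl fun α _ => ?_)
      rw [map_mul, map_prod]
      refine congrArg₂ _ rfl (Finset.prod_congr rfl fun a _ => ?_)
      rw [map_pow]
      rfl
    rw [h1]
    have h3 := g9a_eval (g9a_prod_hom y) fun a => (x a : Om)
    have h4 : eval (fun a => (x a : Om)) (∏ i, lf (y i)) = 0 := by
      rw [map_prod]
      refine Finset.prod_eq_zero (Finset.mem_univ i) ?_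
      rw [g9a_eval_lf]
      have h5 : (∑ a, y i a * (x a : Om)) = linc u (y i) * ((∑ a, g i a * x a : E i) : Om) := by
        have h6 := map_sum (E i).val (fun a => g i a * x a) Finset.univ
        have h7 : ((∑ a, g i a * x a : E i) : Om) = ∑ a, (g i a : Om) * (x a : Om) := h6
        rw [h7, Finset.mul_sum]
        refine Finset.sum_congr rfl fun a _ => ?_
        rw [hgc, ← mul_assoc, ← mul_assoc, mul_inv_cancel₀ (hu i), one_mul]
      rw [h5, hx]
      exact mul_zero _
    rw [h4] at h3
    refine (h3.trans (Finset.sum_congr rfl fun α _ => ?_)).symm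
    rw [hyc]
  -- the places
  have hfi := hfin i
  have hch : CharZero KK := algebraRat.charZero KK
  obtain ⟨θ, hθ⟩ := Field.exists_primitive_element KK (E i)
  have hpos : 0 < Module.finrank KK (E i) := Module.finrank_pos
  refine (fiber (hD i) hθ (Finset.univ.image (g i)) ∅).mono fun z hz => ?_
  obtain ⟨q, hq1, _, _, _, hq2, _⟩ := hz
  obtain ⟨r, hr⟩ : ∃ r, r = q ⟨0, hpos⟩ := ⟨_, rfl⟩
  have hgO : ∀ a, g i a ∈ r.O := fun a => by
    rw [hr]
    exact hq1 _ _ (Finset.mem_image_of_mem _ (Finset.mem_univ a))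
  have hcO : ∀ α, algebraMap KK (E i) (algebraMap EF KK (cf α)) ∈ r.O ∧
      r.val (algebraMap KK (E i) (algebraMap EF KK (cf α))) = coeff α (H z) := by
    intro α
    rw [hr]
    obtain ⟨h1, h2⟩ := algebraMap_mem_plK z (cf α)
    obtain ⟨h3, h4⟩ := hq2 _ h1 ⟨0, hpos⟩
    exact ⟨h3, by rw [h4, h2, hcf]⟩
  have hup : linc u (fun a => r.val (g i a)) = 1 := by
    rw [← r.val_linc u hgO, hug', r.val_one]
  refine ⟨fun a => r.val (g i a), fun h0 => ?_, fun G hG => ?_, fun v hv => ?_⟩
  · have h1 : linc u (fun a => r.val (g i a)) = 0 := by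
      rw [h0]
      unfold linc
      simp
    rw [hup] at h1
    exact one_ne_zero h1
  · rw [← r.val_aeval hgO G, hGT G hG, r.val_zero]
  · obtain ⟨x, hx⟩ : ∃ x : Fin (M + 1) → E i, ∀ a, x a =
        algebraMap ℂ (E i) (v a) - linc v (g i) * algebraMap ℂ (E i) (u a) := ⟨_, fun _ => rfl⟩
    have h1 : (∑ a, g i a * x a) = 0 := by
      have h2 : ∀ a, g i a * x a = v a • g i a - linc v (g i) * (u a • g i a) := fun a => by
        rw [hx, Algebra.smul_def, Algebra.smul_def]
        ring
      rw [Finset.sum_congr rfl fun a _ => h2 a, Finset.sum_sub_distrib, ← Finset.mul_sum]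
      show linc v (g i) - linc v (g i) * linc u (g i) = 0
      rw [hug', mul_one, sub_self]
    have hxO : ∀ a, x a ∈ r.O ∧ r.val (x a) = v a := by
      intro a
      have h3 : linc v (g i) * algebraMap ℂ (E i) (u a) ∈ r.O :=
        mul_mem (r.linc_mem v hgO) (r.O.algebraMap_mem _)
      refine ⟨?_, ?_⟩
      · rw [hx]
        exact sub_mem (r.O.algebraMap_mem _) h3
      · rw [hx, r.val_sub (r.O.algebraMap_mem _) h3, r.val_mul (r.linc_mem v hgO)
          (r.O.algebraMap_mem _), r.val_linc v hgO, hv, zero_mul, sub_zero, r.val_algebraMap]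
    obtain ⟨p, _, _, hp⟩ := hH.prod z
    have hhom : (H z).IsHomogeneous m := by
      rw [hp]
      exact g9a_prod_hom p
    rw [g9a_eval hhom, ← r.val_zero, ← hHE x h1, r.val_sum _ fun α _ =>
      mul_mem (hcO α).1 (prod_mem fun a _ => pow_mem (hxO a).1 _)]
    refine Finset.sum_congr rfl fun α _ => ?_
    rw [r.val_mul (hcO α).1 (prod_mem fun a _ => pow_mem (hxO a).1 _), (hcO α).2,
      r.val_prod _ fun a _ => pow_mem (hxO a).1 _]
    refine congrArg₂ _ rfl (Finset.prod_congr rfl fun a _ => ?_)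
    rw [r.val_pow (hxO a).1, (hxO a).2]

end Pool.Agent.H24C
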