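import Pool.Agent.Lib.H24C.D1
import Pool.Agent.Lib.H24V.E0

set_option autoImplicit false

/-!
CHUNK G9B (M).  Entire curves in symmetric powers: all parameters.
-/

open MvPolynomial

namespace Pool.Agent.H24C

open Pool.Agent.H89T Pool.Agent.H67T Pool.Agent.H53U Pool.Agent.H24V

theorem G9B_lf {n : ℕ} (x : Fin n → ℂ) : (lf x).IsHomogeneous 1 := by
  unfold lf
  refine IsHomogeneous.sum _ _ _ fun b _ => ?_
  have h := (isHomogeneous_C (Fin n) (x b)).mul (isHomogeneous_X ℂ b)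
  rwa [zero_add] at h

theorem G9B_hom {m M c : ℕ} {F : Fin c → MvPolynomial (Fin (M + 1)) ℂ}
    {H : ℂ → MvPolynomial (Fin (M + 1)) ℂ} (hH : SymCurve m F H) (z : ℂ) : (H z).IsHomogeneous m := by
  obtain ⟨p, _, _, h⟩ := hH.prod z
  rw [h]
  have h1 := IsHomogeneous.prod Finset.univ (fun i : Fin m => lf (p i)) (fun _ => 1) fun i _ => G9B_lf (p i)
  simpa using h1

theorem G9B_sum {n m : ℕ} {P : MvPolynomial (Fin n) ℂ} (hP : P.IsHomogeneous m) (w : Fin n → ℂ) :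
    eval w P = ∑ α ∈ Finset.univ.finsuppAntidiag m, coeff α P * ∏ i, w i ^ α i := by
  classical
  rw [eval_eq']
  refine Finset.sum_subset (fun α hα => ?_) fun α _ hα => ?_
  · rw [Finset.mem_finsuppAntidiag']
    refine ⟨?_, Finset.subset_univ _⟩
    have h1 : α.degree = m := by
      by_contra hne
      exact mem_support_iff.1 hα (hP.coeff_eq_zero hne)
    exact h1
  · rw [notMem_support_iff.1 hα, zero_mul]

theorem G9B_smul {n e : ℕ} {G : MvPolynomial (Fin n) ℂ} (hG : G.IsHomogeneous e) (t : ℂ) (p : Fin n → ℂ) :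
    eval (t • p) G = t ^ e * eval p G := by
  rw [G9B_sum hG, G9B_sum hG, Finset.mul_sum]
  refine Finset.sum_congr rfl fun α hα => ?_
  rw [Finset.mem_finsuppAntidiag] at hα
  have h1 : ∏ i, (t • p) i ^ α i = t ^ e * ∏ i, p i ^ α i := by
    rw [← hα.1]
    simp only [Pi.smul_apply, smul_eq_mul, mul_pow, Finset.prod_mul_distrib, Finset.prod_pow_eq_pow_sum]
  rw [h1]
  ring

theorem G9B_cont {m M c : ℕ} {F : Fin c → MvPolynomial (Fin (M + 1)) ℂ}
    {H : ℂ → MvPolynomial (Fin (M + 1)) ℂ} (hH : SymCurve m F H) :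
    Continuous fun x : (Fin (M + 1) → ℂ) × ℂ => eval x.1 (H x.2) := by
  have h1 : (fun x : (Fin (M + 1) → ℂ) × ℂ => eval x.1 (H x.2)) = fun x : (Fin (M + 1) → ℂ) × ℂ =>
      ∑ α ∈ Finset.univ.finsuppAntidiag m, coeff α (H x.2) * ∏ i, x.1 i ^ α i := by
    funext x
    exact G9B_sum (G9B_hom hH x.2) x.1
  rw [h1]
  refine continuous_finsetSum _ fun α _ => ?_
  refine ((hH.diff α).continuous.comp continuous_snd).mul (continuous_finsetProd _ fun i _ => ?_)
  exact ((continuous_apply i).comp continuous_fst).pow _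

/-- the square of the norm -/
noncomputable def G9B_N {n : ℕ} (p : Fin n → ℂ) : ℂ := ∑ a, p a * (starRingEnd ℂ) (p a)

/-- the projection of `u` to the hyperplane of `p` -/
noncomputable def G9B_v {n : ℕ} (u p : Fin n → ℂ) : Fin n → ℂ := fun a => G9B_N p * u a - linc u p * (starRingEnd ℂ) (p a)

theorem G9B_linc {n : ℕ} (u p : Fin n → ℂ) : linc (G9B_v u p) p = 0 := by
  have h1 : linc (G9B_v u p) p = G9B_N p * linc u p - linc u p * G9B_N p := by
    unfold linc G9B_v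
    rw [Finset.mul_sum]
    conv_rhs => rw [G9B_N, Finset.mul_sum, ← G9B_N, ← Finset.sum_sub_distrib]
    refine Finset.sum_congr rfl fun a _ => ?_
    simp only [smul_eq_mul]
    unfold linc
    simp only [smul_eq_mul]
    ring
  rw [h1]
  ring

theorem G9B_N_ne {n : ℕ} {p : Fin n → ℂ} (hp : p ≠ 0) : G9B_N p ≠ 0 := by
  intro h0
  apply hp
  have h1 : G9B_N p = ((∑ a, Complex.normSq (p a) : ℝ) : ℂ) := by
    unfold G9B_N
    push_cast
    exact Finset.sum_congr rfl fun a _ => Complex.mul_conj _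
  rw [h1] at h0
  have h2 : (∑ a, Complex.normSq (p a) : ℝ) = 0 := by exact_mod_cast h0
  have h3 := (Finset.sum_eq_zero_iff_of_nonneg fun a _ => Complex.normSq_nonneg (p a)).1 h2
  funext a
  exact Complex.normSq_eq_zero.1 (h3 a (Finset.mem_univ a))

theorem G9B_vself {n : ℕ} {v p : Fin n → ℂ} (h : linc v p = 0) : G9B_v v p = G9B_N p • v := by
  funext a
  unfold G9B_v
  rw [h, zero_mul, sub_zero]
  rfl

theorem G9B_vcont {n : ℕ} (u : Fin n → ℂ) : Continuous fun p : Fin n → ℂ => G9B_v u p := by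
  unfold G9B_v G9B_N linc
  fun_prop

theorem G9B_dense {b : EF} (hb : b ≠ 0) (z : ℂ) : z ∈ closure {z | b.1 z ≠ 0} := by
  obtain ⟨a, ha⟩ := EF_exists_ne hb
  have h1 := AnalyticOnNhd.preimage_zero_mem_codiscrete (fun z _ => b.2.analyticAt z) ha
  have h3 := mem_codiscrete.mp h1 z
  rw [Filter.disjoint_principal_right, compl_compl] at h3
  rw [mem_closure_iff_frequently]
  have h4 : ∃ᶠ y in nhdsWithin z {z}ᶜ, y ∈ {z | b.1 z ≠ 0} := by
    refine Filter.Eventually.frequently ?_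
    exact h3
  exact h4.filter_mono nhdsWithin_le_nhds

/-- the closed set of the unit vectors with the properties -/
def G9B_C {M : ℕ} (T : Set (MvPolynomial (Fin (M + 1)) ℂ)) (H : ℂ → MvPolynomial (Fin (M + 1)) ℂ) :
    Set (Metric.sphere (0 : Fin (M + 1) → ℂ) 1 × ℂ) :=
  {x | (∀ G ∈ T, eval (x.1 : Fin (M + 1) → ℂ) G = 0) ∧
      ∀ u, eval (G9B_v u (x.1 : Fin (M + 1) → ℂ)) (H x.2) = 0}

theorem G9B_closed1 {M : ℕ} (G : MvPolynomial (Fin (M + 1)) ℂ) :
    IsClosed {x : Metric.sphere (0 : Fin (M + 1) → ℂ) 1 × ℂ | eval (x.1 : Fin (M + 1) → ℂ) G = 0} := by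
  have h1 : Continuous fun x : Metric.sphere (0 : Fin (M + 1) → ℂ) 1 × ℂ => (x.1 : Fin (M + 1) → ℂ) :=
    continuous_subtype_val.comp continuous_fst
  have h2 : Continuous fun x : Metric.sphere (0 : Fin (M + 1) → ℂ) 1 × ℂ => eval (x.1 : Fin (M + 1) → ℂ) G :=
    (MvPolynomial.continuous_eval G).comp h1
  exact isClosed_eq h2 continuous_const

theorem G9B_closed2 {m M c : ℕ} {F : Fin c → MvPolynomial (Fin (M + 1)) ℂ}
    {H : ℂ → MvPolynomial (Fin (M + 1)) ℂ} (hH : SymCurve m F H) (u : Fin (M + 1) → ℂ) :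
    IsClosed {x : Metric.sphere (0 : Fin (M + 1) → ℂ) 1 × ℂ | eval (G9B_v u (x.1 : Fin (M + 1) → ℂ)) (H x.2) = 0} := by
  have h1 : Continuous fun x : Metric.sphere (0 : Fin (M + 1) → ℂ) 1 × ℂ => (x.1 : Fin (M + 1) → ℂ) :=
    continuous_subtype_val.comp continuous_fst
  have h2 : Continuous fun x : Metric.sphere (0 : Fin (M + 1) → ℂ) 1 × ℂ =>
      (G9B_v u (x.1 : Fin (M + 1) → ℂ), x.2) := ((G9B_vcont u).comp h1).prodMk continuous_snd
  obtain ⟨E, hE, hEc⟩ : ∃ E : (Fin (M + 1) → ℂ) × ℂ → ℂ, (∀ y w, E (y, w) = eval y (H w)) ∧ Continuous E :=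
    ⟨fun x => eval x.1 (H x.2), fun _ _ => rfl, G9B_cont hH⟩
  have h3 : Continuous fun x : Metric.sphere (0 : Fin (M + 1) → ℂ) 1 × ℂ =>
      E (G9B_v u (x.1 : Fin (M + 1) → ℂ), x.2) := hEc.comp h2
  have h4 : {x : Metric.sphere (0 : Fin (M + 1) → ℂ) 1 × ℂ |
      eval (G9B_v u (x.1 : Fin (M + 1) → ℂ)) (H x.2) = 0} =
      {x | E (G9B_v u (x.1 : Fin (M + 1) → ℂ), x.2) = 0} := by
    ext x
    rw [Set.mem_ofPred_eq, Set.mem_ofPred_eq, hE]
  rw [h4]
  exact isClosed_eq h3 continuous_const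

theorem G9B_closed {m M c : ℕ} {F : Fin c → MvPolynomial (Fin (M + 1)) ℂ}
    (T : Set (MvPolynomial (Fin (M + 1)) ℂ))
    {H : ℂ → MvPolynomial (Fin (M + 1)) ℂ} (hH : SymCurve m F H) : IsClosed (G9B_C T H) := by
  have h1 : G9B_C T H =
      (⋂ G ∈ T, {x : Metric.sphere (0 : Fin (M + 1) → ℂ) 1 × ℂ | eval (x.1 : Fin (M + 1) → ℂ) G = 0}) ∩
        ⋂ u : Fin (M + 1) → ℂ, {x : Metric.sphere (0 : Fin (M + 1) → ℂ) 1 × ℂ |
          eval (G9B_v u (x.1 : Fin (M + 1) → ℂ)) (H x.2) = 0} := by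
    ext x
    rw [Set.mem_inter_iff, Set.mem_iInter₂, Set.mem_iInter]
    rfl
  rw [h1]
  exact IsClosed.inter (isClosed_biInter fun G _ => G9B_closed1 G) (isClosed_iInter fun u => G9B_closed2 hH u)

theorem G9B_sub {M : ℕ} {T : Set (MvPolynomial (Fin (M + 1)) ℂ)} (hTh : ∀ G ∈ T, ∃ e, G.IsHomogeneous e)
    {H : ℂ → MvPolynomial (Fin (M + 1)) ℂ} {y : ℂ} {p : Fin (M + 1) → ℂ} (hp : p ≠ 0)
    (hpT : ∀ G ∈ T, eval p G = 0) (hpv : ∀ v, linc v p = 0 → eval v (H y) = 0) :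
    y ∈ Prod.snd '' G9B_C T H := by
  have hn : ‖p‖ ≠ 0 := norm_ne_zero_iff.2 hp
  obtain ⟨t, ht⟩ : ∃ t : ℂ, t = ((‖p‖⁻¹ : ℝ) : ℂ) := ⟨_, rfl⟩
  have hnc : t ≠ 0 := by
    rw [ht]
    exact_mod_cast inv_ne_zero hn
  have hmem : (t • p) ∈ Metric.sphere (0 : Fin (M + 1) → ℂ) 1 := by
    rw [mem_sphere_zero_iff_norm, norm_smul, ht, Complex.norm_real, norm_inv, norm_norm, inv_mul_cancel₀ hn]
  refine ⟨(⟨_, hmem⟩, y), ⟨fun G hG => ?_, fun u => ?_⟩, rfl⟩
  · obtain ⟨e, he⟩ := hTh G hG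
    show eval (t • p) G = 0
    rw [G9B_smul he, hpT G hG, mul_zero]
  · show eval (G9B_v u (t • p)) (H y) = 0
    refine hpv _ ?_
    have h1 := G9B_linc u (t • p)
    have h2 : ∀ w : Fin (M + 1) → ℂ, linc w (t • p) = t * linc w p := by
      intro w
      unfold linc
      rw [Finset.mul_sum]
      refine Finset.sum_congr rfl fun a _ => ?_
      simp only [Pi.smul_apply, smul_eq_mul]
      ring
    rw [h2] at h1
    exact (mul_eq_zero.1 h1).resolve_left hnc

/-- Closedness.  A generic set is dense; take `z_k → z` generic, `p_k` of norm `1` (multiply by a factor: the `G ∈ T` are homogeneous and the last condition is invariant), a convergent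
subsequence `p_k → p`, `‖p‖ = 1`; `eval p G = lim = 0`.  If `linc v p = 0` let `w_k = v - (linc v p_k / ∑ a, ‖p_k a‖ ^ 2) • conj p_k → v`, `linc w_k p_k = 0`, so
`0 = eval w_k (H z_k) → eval v (H z)` (all `H z` are homogeneous of degree `m`, so `eval w (H z)` is a finite sum, continuous in `(w, z)`). -/
theorem sym_all {m M c : ℕ} {F : Fin c → MvPolynomial (Fin (M + 1)) ℂ}
    {T : Set (MvPolynomial (Fin (M + 1)) ℂ)} (hTh : ∀ G ∈ T, ∃ e, G.IsHomogeneous e)
    {H : ℂ → MvPolynomial (Fin (M + 1)) ℂ} (hH : SymCurve m F H)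
    (hg : Gen fun z => ∃ p : Fin (M + 1) → ℂ, p ≠ 0 ∧ (∀ G ∈ T, eval p G = 0) ∧
      ∀ v, linc v p = 0 → eval v (H z) = 0) (z : ℂ) :
    ∃ p : Fin (M + 1) → ℂ, p ≠ 0 ∧ (∀ G ∈ T, eval p G = 0) ∧
      ∀ v, linc v p = 0 → eval v (H z) = 0 := by
  obtain ⟨b, hb, hbz⟩ := hg
  have hK : CompactSpace (Metric.sphere (0 : Fin (M + 1) → ℂ) 1) :=
    isCompact_iff_compactSpace.1 (isCompact_sphere 0 1)
  have hS : IsClosed (Prod.snd '' G9B_C T H) := isClosedMap_snd_of_compactSpace _ (G9B_closed T hH)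
  have hsub : {z | b.1 z ≠ 0} ⊆ Prod.snd '' G9B_C T H := by
    intro y hy
    obtain ⟨p, hp, hpT, hpv⟩ := hbz y hy
    exact G9B_sub hTh hp hpT hpv
  have hz : z ∈ Prod.snd '' G9B_C T H := hS.closure_subset_iff.2 hsub (G9B_dense hb z)
  obtain ⟨x, hx, hxz⟩ := hz
  have hp := x.1.2
  have hp0 : (x.1 : Fin (M + 1) → ℂ) ≠ 0 := by
    intro h0
    rw [h0, mem_sphere_zero_iff_norm, norm_zero] at hp
    exact zero_ne_one hp
  refine ⟨x.1, hp0, hx.1, fun v hv => ?_⟩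
  have h3 : eval (G9B_v v x.1) (H x.2) = 0 := hx.2 v
  rw [hxz, G9B_vself hv, G9B_smul (G9B_hom hH z)] at h3
  exact (mul_eq_zero.1 h3).resolve_left (pow_ne_zero _ (G9B_N_ne hp0))

/-- The hyperplane `{v | linc v p = 0}` is contained in the union of the hyperplanes `{v | linc v (q i) = 0}`, so in one of them (a vector space over an infinite field is not a finite
union of proper subspaces), so `q i` is a multiple of `p`. -/
theorem exists_prop {m M : ℕ} {p : Fin (M + 1) → ℂ} {q : Fin m → Fin (M + 1) → ℂ}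
    (hq : ∀ i, q i ≠ 0) (h : ∀ v, linc v p = 0 → ∏ i, linc v (q i) = 0) :
    ∃ (i : Fin m) (t : ℂ), q i = t • p := by
  classical
  obtain ⟨φ, hφ⟩ : ∃ φ : (Fin (M + 1) → ℂ) → ((Fin (M + 1) → ℂ) →ₗ[ℂ] ℂ), ∀ x v, φ x v = linc v x := by
    refine ⟨fun x => ∑ a, x a • LinearMap.proj a, fun x v => ?_⟩
    simp [linc, mul_comm]
  have hcov : (⋃ i : Fin m, ((Submodule.comap (LinearMap.ker (φ p)).subtype (LinearMap.ker (φ (q i))) :
      Submodule ℂ (LinearMap.ker (φ p))) : Set (LinearMap.ker (φ p)))) = Set.univ := by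
    rw [Set.eq_univ_iff_forall]
    intro v
    have hv : linc v.1 p = 0 := by
      rw [← hφ]
      exact v.2
    obtain ⟨i, _, hi⟩ := Finset.prod_eq_zero_iff.1 (h v.1 hv)
    refine Set.mem_iUnion.2 ⟨i, ?_⟩
    show φ (q i) v.1 = 0
    rw [hφ, hi]
  obtain ⟨i, hi⟩ := Subspace.exists_eq_top_of_iUnion_eq_univ hcov
  have hker : ∀ v, linc v p = 0 → linc v (q i) = 0 := by
    intro v hv
    have h1 : (⟨v, by rw [LinearMap.mem_ker, hφ, hv]⟩ : LinearMap.ker (φ p)) ∈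
        (Submodule.comap (LinearMap.ker (φ p)).subtype (LinearMap.ker (φ (q i)))) := by
      rw [hi]
      exact Submodule.mem_top
    have h2 : φ (q i) v = 0 := h1
    rwa [hφ] at h2
  have hsing : ∀ (s t : ℂ) (a b : Fin (M + 1)) (x : Fin (M + 1) → ℂ),
      linc (s • Pi.single a (1 : ℂ) - t • Pi.single b (1 : ℂ)) x = s * x a - t * x b := by
    intro s t a b x
    unfold linc
    simp only [Pi.sub_apply, Pi.smul_apply, smul_eq_mul, sub_mul, Finset.sum_sub_distrib, Pi.single_apply,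
      mul_ite, mul_one, mul_zero, ite_mul, zero_mul, Finset.sum_ite_eq', Finset.mem_univ, if_true]
  by_cases hp : p = 0
  · exfalso
    apply hq i
    funext a
    have h1 := hker ((1 : ℂ) • Pi.single a (1 : ℂ) - (0 : ℂ) • Pi.single a (1 : ℂ)) (by
      rw [hsing, hp]
      simp)
    rw [hsing] at h1
    simpa using h1
  · obtain ⟨a, ha⟩ : ∃ a, p a ≠ 0 := by
      by_contra hcon
      push Not at hcon
      exact hp (funext hcon)
    refine ⟨i, q i a / p a, ?_⟩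
    funext b
    have h1 := hker (p a • Pi.single b (1 : ℂ) - p b • Pi.single a (1 : ℂ)) (by
      rw [hsing]
      ring)
    rw [hsing] at h1
    rw [Pi.smul_apply, smul_eq_mul, div_mul_eq_mul_div, eq_div_iff ha]
    linear_combination h1

end Pool.Agent.H24C
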