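import Pool.Agent.Lib.H24C.D2
import Pool.Agent.Lib.H24C.G9A
import Pool.Agent.Lib.H24C.G9B

set_option autoImplicit false

/-!
H24C: from the main property to symmetric powers (final form).
-/

open MvPolynomial

namespace Pool.Agent.H24C

open Pool.Agent.H89T Pool.Agent.H67T Pool.Agent.H53U Pool.Agent.H24V

private theorem g13_eval_lf {n : ℕ} (v x : Fin n → ℂ) : eval v (lf x) = linc v x := by
  unfold lf linc
  rw [map_sum]
  refine Finset.sum_congr rfl fun a _ => ?_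
  rw [map_mul, eval_C, eval_X, smul_eq_mul, mul_comm]

private theorem g13_eval_smul {n e : ℕ} {G : MvPolynomial (Fin n) ℂ} (hG : G.IsHomogeneous e)
    (t : ℂ) (x : Fin n → ℂ) : eval (t • x) G = t ^ e * eval x G := by
  rw [eval_eq', eval_eq', Finset.mul_sum]
  refine Finset.sum_congr rfl fun α hα => ?_
  have h1 : ∑ i, α i = e := by
    have h2 := hG (mem_support_iff.1 hα)
    rw [← h2, Finsupp.weight_apply, Finsupp.sum_fintype]
    · simp
    · simp
  have h3 : ∏ i, (t • x) i ^ α i = t ^ e * ∏ i, x i ^ α i := by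
    rw [← h1, ← Finset.prod_pow_eq_pow_sum, ← Finset.prod_mul_distrib]
    refine Finset.prod_congr rfl fun i _ => ?_
    rw [Pi.smul_apply, smul_eq_mul, mul_pow]
  rw [h3]
  ring

/-- All `m`. -/
theorem specSym2_of_hypC {m N c : ℕ} {d : Fin c → ℕ} (h : HypC (4 * m - 3) N c d) :
    SpecSym2 m N c d := by
  intro M s hcM hMN
  obtain ⟨I, hI, hIF⟩ := h M s hcM hMN
  refine ⟨I, lt_height_of_codimGt hI, fun F hF hΘ => ?_⟩
  obtain ⟨T, hTh, hTc, hTv⟩ := hIF F hF hΘ
  have hTh' := addT_forms (N := N) (s := s) hF hTh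
  have hTv' := addT_vanL hTh hTc hTv
  refine ⟨addT N s F T, hTh', fun j => Or.inl (Or.inr ⟨j, rfl⟩),
    d2_height (fun G hG => Or.inl (Or.inl hG)) hTc, fun h1 => Or.inr ⟨rfl, h1⟩, ?_⟩
  intro H hH hne z
  obtain ⟨p', hp0, hpT, hpv⟩ := sym_all hTh' hH (sym_gen hF hTv' hH hne) z
  obtain ⟨p, hp, hpF, hpH⟩ := hH.prod z
  obtain ⟨i, t, hit⟩ := exists_prop hp (p := p') fun v hv => by
    have h1 := hpv v hv
    rw [hpH, map_prod] at h1
    rw [← h1]
    exact Finset.prod_congr rfl fun i _ => (g13_eval_lf v (p i)).symm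
  refine ⟨p, hp, hpH, hpF, i, fun G hG => ?_⟩
  obtain ⟨e, he⟩ := hTh' G hG
  rw [hit, g13_eval_smul he, hpT G hG, mul_zero]

/-- `m = 1`, entire curves (see `symHyp_one` in H24V/F1.lean). -/
theorem specSym2_one {N c : ℕ} {d : Fin c → ℕ} (h : HypCU N c d) : SpecSym2 1 N c d := by
  classical
  intro M s hcM hMN
  obtain ⟨I, hI, hIF⟩ := h M s hcM hMN
  refine ⟨I, lt_height_of_codimGt hI, fun F hF hΘ => ?_⟩
  obtain ⟨T, hTh, hTc, hTv⟩ := hIF F hF hΘ
  have hTh' := addT_forms (N := N) (s := s) hF hTh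
  have hTv' := addT_vanU hTh hTc hTv
  refine ⟨addT N s F T, hTh', fun j => Or.inl (Or.inr ⟨j, rfl⟩),
    d2_height (fun G hG => Or.inl (Or.inl hG)) hTc, fun h1 => Or.inr ⟨rfl, h1⟩, ?_⟩
  intro H hH hne z
  obtain ⟨y, hy⟩ : ∃ y : ℂ → Fin (M + 1) → ℂ, ∀ z a, y z a = coeff (Finsupp.single a 1) (H z) :=
    ⟨_, fun _ _ => rfl⟩
  have hp : ∀ z, y z ≠ 0 ∧ (∀ j, eval (y z) (F j) = 0) ∧ H z = lf (y z) := by
    intro z
    obtain ⟨p, hp0, hpF, hpH⟩ := hH.prod z
    rw [Fin.prod_univ_one] at hpH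
    have h1 : y z = p 0 := by
      funext a
      rw [hy, hpH]
      unfold lf
      rw [coeff_sum, Finset.sum_eq_single a]
      · rw [coeff_C_mul, coeff_X', if_pos rfl, mul_one]
      · intro b _ hb
        rw [coeff_C_mul, coeff_X', if_neg, mul_zero]
        intro h0
        exact hb ((Finsupp.single_left_inj one_ne_zero).1 h0)
      · exact fun h => absurd (Finset.mem_univ _) h
    rw [h1]
    exact ⟨hp0 0, hpF 0, hpH⟩
  have hyH : IsHol y := ⟨fun a => by
    have e : (fun z => y z a) = fun z => coeff (Finsupp.single a 1) (H z) := _root_.funext fun z => hy z a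
    rw [e]
    exact hH.diff _, fun z => (hp z).1⟩
  obtain ⟨z₁, z₂, hz⟩ := hne
  have hn : ∃ z w, ∀ t : ℂ, y w ≠ t • y z := by
    refine ⟨z₁, z₂, fun t ht => hz t ?_⟩
    rw [(hp z₂).2.2, (hp z₁).2.2, ht]
    unfold lf
    rw [Finset.smul_sum]
    refine Finset.sum_congr rfl fun a _ => ?_
    rw [Pi.smul_apply, smul_eq_mul, map_mul, smul_eq_C_mul, mul_assoc]
  refine ⟨fun _ => y z, fun _ => (hp z).1, ?_, fun _ => (hp z).2.1, 0, fun G hG => ?_⟩
  · rw [Fin.prod_univ_one]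
    exact (hp z).2.2
  · exact hTv' y hyH (fun z j => (hp z).2.1 j) hn G hG z

end Pool.Agent.H24C
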