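import Pool.Agent.Lib.H24C.D1

set_option autoImplicit false

/-!
CHUNK G7 (S/M).  Dropping equations.
-/

open MvPolynomial

namespace Pool.Agent.H24C

open Pool.Agent.H89T Pool.Agent.H67T Pool.Agent.H53U Pool.Agent.H24V

/-- `c' ≤ c`, so the hypothesis applies to `M`; `I = I'.map (rename τ)`, `τ ⟨j, α⟩ = ⟨e j, α⟩` injective; `CodimGt`: preimages of the sets of coordinates (the complement of
the preimage has at most as many elements).  The tuple `fun j => F (e j)` and the same `T`. -/
theorem hypC_of_sub {B N c c' : ℕ} {d : Fin c → ℕ} (e : Fin c' → Fin c)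
    (he : Function.Injective e) (h : HypC B N c' fun j => d (e j)) : HypC B N c d := by
  classical
  intro M s hcM hM
  have hcc : c' ≤ c := by
    have := Fintype.card_le_of_injective e he
    simpa using this
  obtain ⟨I', hI', hF'⟩ := h M s (hcc.trans hcM) (by omega)
  let τ : IT (Fin (M + 1)) (fun j => d (e j)) → IT (Fin (M + 1)) d := fun p => ⟨e p.1, p.2⟩
  have hτ : Function.Injective τ := by
    rintro ⟨j, a⟩ ⟨k, b⟩ hab
    have h1 : e j = e k := congrArg Sigma.fst hab
    have h2 : j = k := he h1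
    subst h2
    have h3 : a = b := by
      have := (Sigma.mk.inj_iff.mp hab).2
      exact eq_of_heq this
    rw [h3]
  refine ⟨I'.map (rename τ : MvPolynomial (IT (Fin (M + 1)) (fun j => d (e j))) ℂ →ₐ[ℂ]
    MvPolynomial (IT (Fin (M + 1)) d) ℂ), ?_, ?_⟩
  · intro S hS
    let S' : Finset (IT (Fin (M + 1)) (fun j => d (e j))) := Finset.univ.filter fun p => τ p ∈ S
    have hS' : S'ᶜ.card ≤ s := by
      refine le_trans ?_ hS
      rw [← Finset.card_image_of_injective S'ᶜ hτ]
      refine Finset.card_le_card ?_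
      intro x hx
      obtain ⟨p, hp, rfl⟩ := Finset.mem_image.mp hx
      rw [Finset.mem_compl] at hp ⊢
      intro hq
      exact hp (Finset.mem_filter.mpr ⟨Finset.mem_univ _, hq⟩)
    obtain ⟨G, hG, hG0, hGs⟩ := hI' S' hS'
    refine ⟨rename τ G, Ideal.mem_map_of_mem _ hG, ?_, ?_⟩
    · intro h0
      exact hG0 (rename_injective τ hτ (by rw [h0, map_zero]))
    · rw [mem_supported] at hGs ⊢
      intro x hx
      have hx1 : x ∈ (rename τ G).vars := hx
      have hx2 := vars_rename τ G hx1
      obtain ⟨p, hp, rfl⟩ := Finset.mem_image.mp hx2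
      have hp2 : p ∈ S' := by exact_mod_cast hGs hp
      exact (Finset.mem_filter.mp hp2).2
  · intro F hF hΘ
    have key : ∃ Θ ∈ I', eval (cfT (fun j => d (e j)) (fun j => F (e j))) Θ ≠ 0 := by
      by_contra hcon
      push Not at hcon
      obtain ⟨Θ, hΘ1, hΘ2⟩ := hΘ
      apply hΘ2
      have hle : I'.map (rename τ : MvPolynomial (IT (Fin (M + 1)) (fun j => d (e j))) ℂ →ₐ[ℂ]
          MvPolynomial (IT (Fin (M + 1)) d) ℂ) ≤ RingHom.ker (eval (cfT d F)) := by
        rw [Ideal.map_le_iff_le_comap]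
        intro x hx
        rw [Ideal.mem_comap, RingHom.mem_ker]
        have h1 : eval (cfT d F) (rename τ x) = eval (cfT d F ∘ τ) x := eval_rename _ _ _
        have h2 : cfT d F ∘ τ = cfT (fun j => d (e j)) (fun j => F (e j)) := rfl
        have h3 := hcon x hx
        rw [← h2, ← h1] at h3
        exact h3
      exact RingHom.mem_ker.mp (hle hΘ1)
    obtain ⟨T, hT, hc, hv⟩ := hF' (fun j => F (e j)) (fun j => hF (e j)) key
    refine ⟨T, hT, hc, ?_⟩
    intro L _ _ D hg y hy hn G hG
    exact hv L D hg y (fun j => hy (e j)) hn G hG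

end Pool.Agent.H24C
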