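import Pool.Agent.Lib.H24C.G6
import Pool.Agent.Lib.H24C.G7
import Pool.Agent.Lib.H24C.G13
import Pool.Agent.Lib.H24V.R2
import Pool.Agent.Lib.H78Y.A1

set_option autoImplicit false

/-!
H24C, final assembly: the bounds.
-/

open MvPolynomial

namespace Pool.Agent.H24C

open Pool.Agent.H89T Pool.Agent.H67T Pool.Agent.H53U Pool.Agent.H53V Pool.Agent.H24V

theorem trC (B : ℕ) : Pool.Agent.H78Y.Tr1 B (fun n _ d => PtdL B n d) (fun N c d => HypC B N c d) where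
  algK := by
    rintro n k q c d hn hk hd ⟨M, s, hs, hmain⟩
    exact ptdL_of hn hk hd hs hmain
  ry := fun _ hd h => hypC_of_ptdL hd h
  sub := fun e he h => hypC_of_sub e he h

/-- All the bounds, with `B = 4 m - 3` and `L = 6 + log n + (log B) / (3 n)`. -/
theorem spec_bounds {m n c : ℕ} (hm : 1 ≤ m) (hn : 1 ≤ n) {d : Fin c → ℕ} (hd : ∀ j, 2 ≤ d j)
    {B : ℝ} (hB : B = 4 * m - 3)
    (h : 17100 * (n : ℝ) ^ 4 * (1 + Real.log n) * B ^ 2 ≤ ∑ j, ((d j : ℝ) - 1) ∨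
      250 * (n : ℝ) ^ 2 * (2 * (n : ℝ) + (Finset.univ.filter fun j => d j < 4 * n).card) *
        (1 + Real.log n) * B ≤ ∑ j ∈ Finset.univ.filter (fun j => 4 * n ≤ d j), ((d j : ℝ) - 1) ∨
      (∀ K : Finset (Fin c), K.card < 2 * n → 64 * (n : ℝ) ^ 2 * B ≤ ∑ j ∈ Kᶜ, ((d j : ℝ) - 1)) ∨
      (c = 1 ∧ ∀ j, 1 + 1000 * B * (n : ℝ) ^ 2 * (6 + Real.log n) ^ 2 ≤ d j) ∨
      ((∀ j, 8 * (n : ℝ) * (6 + (Real.log n + Real.log B / (3 * n))) ≤ d j) ∧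
        1750 * B * (n : ℝ) ^ 2 * (6 + (Real.log n + Real.log B / (3 * n))) ^ 2 ≤ ∑ j, ((d j : ℝ) - 1)) ∨
      2 * (c : ℝ) ≤ 4 * (n : ℝ) + 8 * n * (6 + (Real.log n + Real.log B / (3 * n))) ∧
        90000 * B * (n : ℝ) ^ 2 * (6 + (Real.log n + Real.log B / (3 * n))) ^ 4 ≤
          ∑ j, ((d j : ℝ) - 1)) :
    SpecSym2 m (n + c) c d := by
  classical
  refine specSym2_of_hypC ?_
  have hb : ((4 * m - 3 : ℕ) : ℝ) = B := by
    rw [hB, Nat.cast_sub (by omega)]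
    push_cast
    ring
  refine Pool.Agent.H78Y.boundsB1 (trC (4 * m - 3)) (by omega) hn hd ?_
  rw [hb]
  rcases h with h | h | h | h | h | h
  · exact Or.inl h
  · exact Or.inr (Or.inl h)
  · refine Or.inr (Or.inr (Or.inl fun K hK => ?_))
    have h1 := h K hK
    have h2 : ∑ j ∈ Kᶜ, ((d j : ℝ) - 1) = ((∑ j ∈ Kᶜ, (d j - 1) : ℕ) : ℝ) := by
      rw [Nat.cast_sum]
      refine Finset.sum_congr rfl fun j _ => ?_
      rw [Nat.cast_sub ((hd j).trans' one_le_two), Nat.cast_one]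
    rw [h2, ← hb] at h1
    exact_mod_cast h1
  · exact Or.inr (Or.inr (Or.inr (Or.inl h)))
  · exact Or.inr (Or.inr (Or.inr (Or.inr (Or.inl h))))
  · exact Or.inr (Or.inr (Or.inr (Or.inr (Or.inr h))))

end Pool.Agent.H24C
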