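import Pool.Agent.Lib.H24C.D0

set_option autoImplicit false

/-!
CHUNK G3 (M).  The dimension of the fibres.
-/

open MvPolynomial

namespace Pool.Agent.H24C

theorem CodimGt.mono {ι : Type} [Fintype ι] [DecidableEq ι] {I : Ideal (MvPolynomial ι ℂ)} {r r' : ℕ}
    (h : CodimGt I r) (hr : r' ≤ r) : CodimGt I r' := fun S hS => h S (hS.trans hr)

/-- The polynomial as a polynomial in the variables `κ`. -/
noncomputable def g3_psi (ι κ : Type) :
    MvPolynomial (ι ⊕ κ) ℂ →ₐ[ℂ] MvPolynomial κ (MvPolynomial ι ℂ) :=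
  aeval (Sum.elim (fun i => C (X i)) X)

theorem g3_inj (ι κ : Type) : Function.Injective (g3_psi ι κ) := by
  have h : (eval₂Hom ((rename Sum.inl : MvPolynomial ι ℂ →ₐ[ℂ] MvPolynomial (ι ⊕ κ) ℂ) :
      MvPolynomial ι ℂ →+* MvPolynomial (ι ⊕ κ) ℂ) (fun k : κ => X (Sum.inr k))).comp
      ((g3_psi ι κ : MvPolynomial (ι ⊕ κ) ℂ →ₐ[ℂ] MvPolynomial κ (MvPolynomial ι ℂ)) :
        MvPolynomial (ι ⊕ κ) ℂ →+* MvPolynomial κ (MvPolynomial ι ℂ)) = RingHom.id _ := by
    apply MvPolynomial.ringHom_ext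
    · intro r
      simp [g3_psi, MvPolynomial.algebraMap_eq]
    · rintro (i | k)
      · simp [g3_psi]
      · simp [g3_psi]
  apply Function.LeftInverse.injective (g := (eval₂Hom ((rename Sum.inl :
    MvPolynomial ι ℂ →ₐ[ℂ] MvPolynomial (ι ⊕ κ) ℂ) :
      MvPolynomial ι ℂ →+* MvPolynomial (ι ⊕ κ) ℂ) (fun k : κ => X (Sum.inr k))))
  intro G
  exact RingHom.congr_fun h G

theorem g3_map {ι κ : Type} (f : ι → ℂ) (G : MvPolynomial (ι ⊕ κ) ℂ) :
    map (eval f) (g3_psi ι κ G) = aeval (Sum.elim (fun i => C (f i)) X) G := by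
  have h : (map (eval f)).comp
      ((g3_psi ι κ : MvPolynomial (ι ⊕ κ) ℂ →ₐ[ℂ] MvPolynomial κ (MvPolynomial ι ℂ)) :
        MvPolynomial (ι ⊕ κ) ℂ →+* MvPolynomial κ (MvPolynomial ι ℂ)) =
      ((aeval (Sum.elim (fun i => C (f i)) X) :
        MvPolynomial (ι ⊕ κ) ℂ →ₐ[ℂ] MvPolynomial κ ℂ) :
        MvPolynomial (ι ⊕ κ) ℂ →+* MvPolynomial κ ℂ) := by
    apply MvPolynomial.ringHom_ext
    · intro r
      simp [g3_psi, MvPolynomial.algebraMap_eq]
    · rintro (i | k)
      · simp [g3_psi]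
      · simp [g3_psi]
  exact RingHom.congr_fun h G

/-- The polynomials all whose coefficients are in the variables `S`. -/
noncomputable def g3_sub {ι : Type} (κ : Type) (S : Set ι) :
    Subalgebra ℂ (MvPolynomial κ (MvPolynomial ι ℂ)) where
  carrier := {P | ∀ m, coeff m P ∈ supported ℂ S}
  mul_mem' := by
    classical
    intro a b ha hb m
    rw [coeff_mul]
    exact Subalgebra.sum_mem _ fun x _ => Subalgebra.mul_mem _ (ha _) (hb _)
  add_mem' := by
    intro a b ha hb m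
    rw [coeff_add]
    exact Subalgebra.add_mem _ (ha _) (hb _)
  algebraMap_mem' := by
    classical
    intro r m
    have h : algebraMap ℂ (MvPolynomial κ (MvPolynomial ι ℂ)) r = C (C r) := rfl
    rw [h, coeff_C]
    split_ifs
    · exact Subalgebra.algebraMap_mem _ r
    · exact Subalgebra.zero_mem _

theorem g3_coeff {ι κ : Type} (S₁ : Set ι) (T : Set (ι ⊕ κ)) (hT : ∀ i, Sum.inl i ∈ T → i ∈ S₁)
    (G : MvPolynomial (ι ⊕ κ) ℂ) (hG : G ∈ supported ℂ T) (m : κ →₀ ℕ) :
    coeff m (g3_psi ι κ G) ∈ supported ℂ S₁ := by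
  classical
  have h : supported ℂ T ≤ (g3_sub κ S₁).comap (g3_psi ι κ) := by
    rw [supported]
    apply Algebra.adjoin_le
    rintro _ ⟨x, hx, rfl⟩
    show g3_psi ι κ (X x) ∈ g3_sub κ S₁
    intro m
    rcases x with i | k
    · have : g3_psi ι κ (X (Sum.inl i)) = C (X i) := by simp [g3_psi]
      rw [this, coeff_C]
      split_ifs
      · exact Algebra.subset_adjoin ⟨i, hT i hx, rfl⟩
      · exact Subalgebra.zero_mem _
    · have : g3_psi ι κ (X (Sum.inr k)) = X k := by simp [g3_psi]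
      rw [this, coeff_X]
      split_ifs
      · exact Subalgebra.one_mem _
      · exact Subalgebra.zero_mem _
  exact h hG m

theorem g3_supp {ι κ : Type} (f : ι → ℂ) (S : Set κ) (T : Set (ι ⊕ κ))
    (hT : ∀ k, Sum.inr k ∈ T → k ∈ S) (G : MvPolynomial (ι ⊕ κ) ℂ) (hG : G ∈ supported ℂ T) :
    aeval (Sum.elim (fun i => C (f i)) X) G ∈ supported ℂ S := by
  have h : supported ℂ T ≤ (supported ℂ S).comap
      (aeval (Sum.elim (fun i => C (f i)) X) : MvPolynomial (ι ⊕ κ) ℂ →ₐ[ℂ] MvPolynomial κ ℂ) := by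
    rw [supported]
    apply Algebra.adjoin_le
    rintro _ ⟨x, hx, rfl⟩
    show aeval (Sum.elim (fun i => C (f i)) X) (X x) ∈ supported ℂ S
    rw [aeval_X]
    rcases x with i | k
    · exact Subalgebra.algebraMap_mem _ (f i)
    · exact Algebra.subset_adjoin ⟨k, hT k hx, rfl⟩
  exact h hG

/-- Let `φ = sumAlgEquiv` after `Sum.swap`: polynomials in the variables `κ` with coefficients in `MvPolynomial ι ℂ`; `𝔠` is the ideal generated by
all the coefficients of the `φ G`, `G ∈ I`, `G` in the variables `ι ⊕ S`.  `CodimGt 𝔠 s`: let `S₁` be a set of coordinates of `ι` with at most `s` elements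
in the complement; the complement of `S₁ ⊕ S` has at most `r + s` elements; take `G ∈ I` nonzero in these variables; a coefficient of
`φ G` different from `0` is in `𝔠` and in `supported ℂ S₁`.  If some element of `𝔠` is not `0` at `f`, some generator is not `0` at `f`, a coefficient of
`φ G`; then `g = G (f, .)` is not `0`, and it is in the variables `S`. -/
theorem fibre {ι κ : Type} [Fintype ι] [DecidableEq ι] [Fintype κ] [DecidableEq κ]
    {I : Ideal (MvPolynomial (ι ⊕ κ) ℂ)} {r s : ℕ} (hI : CodimGt I (r + s)) (S : Finset κ)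
    (hS : Sᶜ.card ≤ r) :
    ∃ J : Ideal (MvPolynomial ι ℂ), CodimGt J s ∧
      ∀ f : ι → ℂ, (∃ Θ ∈ J, eval f Θ ≠ 0) →
        ∃ g : MvPolynomial κ ℂ, g ≠ 0 ∧ g ∈ supported ℂ (S : Set κ) ∧
          ∃ G ∈ I, g = aeval (Sum.elim (fun i => C (f i)) X) G := by
  classical
  let T : Set (ι ⊕ κ) := {x | ∀ k, x = Sum.inr k → k ∈ S}
  let J : Ideal (MvPolynomial ι ℂ) := Ideal.span {c | ∃ G ∈ I, G ∈ supported ℂ T ∧
    ∃ m, c = coeff m (g3_psi ι κ G)}
  refine ⟨J, ?_, ?_⟩
  · intro S₁ hS₁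
    have hcard : (S₁.disjSum S)ᶜ.card ≤ r + s := by
      rw [Finset.card_compl, Fintype.card_sum, Finset.card_disjSum]
      rw [Finset.card_compl] at hS hS₁
      have h1 := Finset.card_le_univ S
      have h2 := Finset.card_le_univ S₁
      omega
    obtain ⟨G, hGI, hG0, hGs⟩ := hI _ hcard
    have hne : g3_psi ι κ G ≠ 0 := by
      intro h
      exact hG0 (g3_inj ι κ (h.trans (map_zero _).symm))
    obtain ⟨m, hm⟩ := MvPolynomial.ne_zero_iff.1 hne
    refine ⟨coeff m (g3_psi ι κ G), Ideal.subset_span ⟨G, hGI, ?_, m, rfl⟩, hm, ?_⟩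
    · refine supported_mono ?_ hGs
      intro x hx k hk
      subst hk
      simpa using hx
    · refine g3_coeff _ _ ?_ G hGs m
      intro i hi
      simpa using hi
  · rintro f ⟨Θ, hΘ, hf⟩
    have hex : ∃ G ∈ I, G ∈ supported ℂ T ∧ ∃ m, eval f (coeff m (g3_psi ι κ G)) ≠ 0 := by
      by_contra hno
      push Not at hno
      have hle : J ≤ RingHom.ker (eval f) := by
        apply Ideal.span_le.2
        rintro c ⟨G, hGI, hGs, m, rfl⟩
        exact hno G hGI hGs m
      exact hf (hle hΘ)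
    obtain ⟨G, hGI, hGs, m, hm⟩ := hex
    refine ⟨aeval (Sum.elim (fun i => C (f i)) X) G, ?_, ?_, G, hGI, rfl⟩
    · intro h0
      apply hm
      rw [← coeff_map, g3_map, h0, coeff_zero]
    · exact g3_supp f _ T (fun k hk => hk k rfl) G hGs

end Pool.Agent.H24C
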