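import Pool.Agent.Lib.H24C.D1

set_option autoImplicit false

/-!
CHUNK G5H (M).  Homogenization.
-/

open MvPolynomial

namespace Pool.Agent.H24C

/-- one term of the homogenization -/
private noncomputable def cg5h_term {M : ℕ} (g : MvPolynomial (Fin M) ℂ) (e : ℕ)
    (μ : Fin M →₀ ℕ) : MvPolynomial (Fin (M + 1)) ℂ :=
  X 0 ^ (e - μ.degree) * rename Fin.succ (monomial μ (coeff μ g))

private theorem cg5h_degree_le {M : ℕ} {g : MvPolynomial (Fin M) ℂ} {μ : Fin M →₀ ℕ}
    (hμ : μ ∈ g.support) : μ.degree ≤ g.totalDegree := by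
  have := le_totalDegree hμ
  rwa [Finsupp.degree_apply]

private theorem cg5h_homog {M : ℕ} {g : MvPolynomial (Fin M) ℂ} {μ : Fin M →₀ ℕ}
    (hμ : μ ∈ g.support) :
    (cg5h_term g (g.totalDegree + 1) μ).IsHomogeneous (g.totalDegree + 1) := by
  have h1 := cg5h_degree_le hμ
  have h2 : (X (0 : Fin (M + 1)) ^ (g.totalDegree + 1 - μ.degree) :
      MvPolynomial (Fin (M + 1)) ℂ).IsHomogeneous (g.totalDegree + 1 - μ.degree) :=
    isHomogeneous_X_pow _ _
  have h3 : (rename Fin.succ (monomial μ (coeff μ g)) :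
      MvPolynomial (Fin (M + 1)) ℂ).IsHomogeneous μ.degree :=
    (isHomogeneous_monomial (coeff μ g) rfl).rename_isHomogeneous
  have h4 := h2.mul h3
  rwa [Nat.sub_add_cancel (by omega)] at h4

private theorem cg5h_aeval {M : ℕ} (g : MvPolynomial (Fin M) ℂ) (e : ℕ) (μ : Fin M →₀ ℕ)
    (L : Type) [Field L] [Algebra ℂ L] (y : Fin (M + 1) → L) :
    aeval y (cg5h_term g e μ) =
      y 0 ^ (e - μ.degree) * (algebraMap ℂ L (coeff μ g) * ∏ b, y b.succ ^ μ b) := by
  unfold cg5h_term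
  rw [map_mul, map_pow, aeval_X, aeval_rename, aeval_monomial]
  congr 2
  rw [Finsupp.prod_fintype _ _ (fun i => pow_zero _)]
  rfl

/-- `e = g.totalDegree + 1`, `G = ∑ μ ∈ g.support, monomial (single 0 (e - |μ|) + μ.mapDomain Fin.succ) (coeff μ g)`, `|μ| = μ.degree ≤ e - 1`. -/
theorem homog {M : ℕ} {g : MvPolynomial (Fin M) ℂ} (hg : g ≠ 0) :
    ∃ (e : ℕ) (G : MvPolynomial (Fin (M + 1)) ℂ), G ≠ 0 ∧ G.IsHomogeneous e ∧
      (∀ S : Set (Fin (M + 1)), 0 ∈ S → g ∈ supported ℂ {b | b.succ ∈ S} → G ∈ supported ℂ S) ∧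
      ∀ (L : Type) [Field L] [Algebra ℂ L] (y : Fin (M + 1) → L),
        (y 0 = 0 → aeval y G = 0) ∧
        (y 0 ≠ 0 → aeval y G = y 0 ^ e * aeval (fun b => y b.succ / y 0) g) := by
  classical
  refine ⟨g.totalDegree + 1, ∑ μ ∈ g.support, cg5h_term g (g.totalDegree + 1) μ, ?_, ?_, ?_, ?_⟩
  · intro h0
    apply hg
    have h1 : aeval (Fin.cons 1 (fun b => X b) : Fin (M + 1) → MvPolynomial (Fin M) ℂ)
        (∑ μ ∈ g.support, cg5h_term g (g.totalDegree + 1) μ) = g := by
      rw [map_sum]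
      conv_rhs => rw [g.as_sum]
      refine Finset.sum_congr rfl fun μ _ => ?_
      unfold cg5h_term
      rw [map_mul, map_pow, aeval_X, aeval_rename, Fin.cons_zero, one_pow, one_mul]
      have : (Fin.cons 1 (fun b => X b) : Fin (M + 1) → MvPolynomial (Fin M) ℂ) ∘ Fin.succ = X := by
        funext b
        simp
      rw [this, aeval_X_left, AlgHom.id_apply]
    rw [← h1, h0, map_zero]
  · exact IsHomogeneous.sum _ _ _ fun μ hμ => cg5h_homog hμ
  · intro S hS hgS
    refine Subalgebra.sum_mem _ fun μ hμ => ?_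
    unfold cg5h_term
    refine Subalgebra.mul_mem _ (Subalgebra.pow_mem _ (X_mem_supported.mpr hS) _) ?_
    rw [mem_supported]
    intro b hb
    have hb' := vars_rename _ _ (Finset.mem_coe.mp hb)
    rw [Finset.mem_image] at hb'
    obtain ⟨c, hc, rfl⟩ := hb'
    rw [vars_monomial (mem_support_iff.mp hμ)] at hc
    rw [mem_supported] at hgS
    exact hgS (Finset.mem_coe.mpr ((mem_vars c).mpr ⟨μ, hμ, hc⟩))
  · intro L _ _ y
    refine ⟨fun h0 => ?_, fun h0 => ?_⟩
    · rw [map_sum]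
      refine Finset.sum_eq_zero fun μ hμ => ?_
      have h1 := cg5h_degree_le hμ
      rw [cg5h_aeval, h0, zero_pow (by omega), zero_mul]
    · rw [map_sum]
      conv_rhs => rw [aeval_def, eval₂_eq']
      rw [Finset.mul_sum]
      refine Finset.sum_congr rfl fun μ hμ => ?_
      have h1 := cg5h_degree_le hμ
      rw [cg5h_aeval]
      simp only [div_pow]
      rw [Finset.prod_div_distrib, Finset.prod_pow_eq_pow_sum]
      have h2 : ∑ i, μ i = μ.degree := by
        rw [Finsupp.degree_eq_sum]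
      rw [h2]
      have h3 : y 0 ^ (g.totalDegree + 1) =
          y 0 ^ (g.totalDegree + 1 - μ.degree) * y 0 ^ μ.degree := by
        rw [← pow_add, Nat.sub_add_cancel (by omega)]
      rw [h3]
      have h4 : y 0 ^ μ.degree ≠ 0 := pow_ne_zero _ h0
      field_simp

end Pool.Agent.H24C
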