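import Pool.Agent.Lib.H24C.G1
import Pool.Agent.Lib.H53U.R4

set_option autoImplicit false

/-!
CHUNK G2 (M/L).  The ideal of the bad pairs has codimension greater than `h + c`.
-/

open MvPolynomial

namespace Pool.Agent.H24C

open Pool.Agent.H89T Pool.Agent.H67T Pool.Agent.H53U

variable {M h c : ℕ} {d : Fin c → ℕ}

section aux

variable {K : Type} [Field K] [Algebra ℂ K]

/-- The directions of the coordinates. -/
noncomputable def g2p (d : Fin c → ℕ) (a₀ : Fin M → K) (ff : Fin c → MvPolynomial (Fin (M + 1)) K) :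
    PT M d → Fin c → MvPolynomial (Fin (M + 1)) K
  | Sum.inl q, j => if q.1 = j then shear a₀ (monomial (q.2 : Fin (M + 1) →₀ ℕ) 1) else 0
  | Sum.inr b, j => X 0 * shear a₀ (pderiv b.succ (ff j))

theorem g2_hom (hd : ∀ j, 1 ≤ d j) (a₀ : Fin M → K) (ff : Fin c → MvPolynomial (Fin (M + 1)) K)
    (hff : ∀ j, (ff j).IsHomogeneous (d j)) (i : PT M d) (j : Fin c) :
    (g2p d a₀ ff i j).IsHomogeneous (d j) := by
  rcases i with q | b
  · show (if q.1 = j then shear a₀ (monomial (q.2 : Fin (M + 1) →₀ ℕ) 1) else 0 :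
      MvPolynomial (Fin (M + 1)) K).IsHomogeneous (d j)
    by_cases h : q.1 = j
    · rw [if_pos h]
      refine shear_homogeneous a₀ ?_
      rw [← h]
      exact isHomogeneous_monomial _ (mem_Ex.1 q.2.2)
    · rw [if_neg h]
      exact isHomogeneous_zero _ _ _
  · have h1 := (isHomogeneous_X K (0 : Fin (M + 1))).mul
      (shear_homogeneous a₀ (pderiv_homogeneous (hff j) b.succ))
    rwa [Nat.add_sub_cancel' (hd j)] at h1

theorem g2_sum (a₀ : Fin M → K) (ff : Fin c → MvPolynomial (Fin (M + 1)) K) (τ : PT M d → K)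
    (j : Fin c) :
    ∑ i, C (τ i) * g2p d a₀ ff i j =
      shear a₀ (fm fun δ : Ex (Fin (M + 1)) (d j) => τ (Sum.inl ⟨j, δ⟩)) +
        ∑ b : Fin M, C (τ (Sum.inr b)) * (X 0 * shear a₀ (pderiv b.succ (ff j))) := by
  rw [Fintype.sum_sum_type]
  congr 1
  have h1 : ∀ q : IT (Fin (M + 1)) d, C (τ (Sum.inl q)) * g2p d a₀ ff (Sum.inl q) j =
      if q.1 = j then C (τ (Sum.inl q)) * shear a₀ (monomial (q.2 : Fin (M + 1) →₀ ℕ) 1) else 0 := by
    intro q
    show C (τ (Sum.inl q)) * (if q.1 = j then shear a₀ (monomial (q.2 : Fin (M + 1) →₀ ℕ) 1) else 0 :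
      MvPolynomial (Fin (M + 1)) K) = _
    rw [mul_ite, mul_zero]
  rw [Finset.sum_congr rfl fun q _ => h1 q, Fintype.sum_sigma, Finset.sum_eq_single j]
  · simp only [if_pos]
    rw [fm, shear, map_sum]
    refine Finset.sum_congr rfl fun δ _ => ?_
    rw [map_mul, aeval_C, MvPolynomial.algebraMap_eq]
    rfl
  · intro j' _ hj'
    refine Finset.sum_eq_zero fun δ _ => ?_
    rw [if_neg hj']
  · intro hj
    exact absurd (Finset.mem_univ j) hj

theorem g2_chain (D : Derivation ℂ K K) (f₀ : IT (Fin (M + 1)) d → K) (a₀ : Fin M → K) (j : Fin c) :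
    mcf D (shear a₀ (fm fun δ : Ex (Fin (M + 1)) (d j) => f₀ ⟨j, δ⟩)) =
      ∑ i, C (D (Sum.elim f₀ a₀ i)) *
        g2p d a₀ (fun j => fm fun δ : Ex (Fin (M + 1)) (d j) => f₀ ⟨j, δ⟩) i j := by
  rw [g2_sum a₀ _ (fun i => D (Sum.elim f₀ a₀ i)) j]
  rw [shear, mcf_aeval, mcf_fm]
  congr 1
  rw [Fin.sum_univ_succ]
  simp only [Fin.cons_zero, Fin.cons_succ, mcf_X, mul_zero, zero_add, map_add,
    Derivation.leibniz, mcf_C, smul_eq_mul, Sum.elim_inr]
  refine Finset.sum_congr rfl fun b _ => ?_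
  rw [shear]
  ring

theorem g2_hD (f₀ : IT (Fin (M + 1)) d → K) (a₀ : Fin M → K) (S : Finset (PT M d))
    (hext : ∀ τ : PT M d → K, ∃ D : Derivation ℂ K K, ∀ i ∈ S, D (Sum.elim f₀ a₀ i) = τ i)
    (hh : Fin c → MvPolynomial (Fin (M + 1)) K) (hhk : ∀ j, (hh j).IsHomogeneous (d j)) :
    ∃ (D : Derivation ℂ K K) (μ : {i : PT M d // ¬ i ∈ S} → K), ∀ j,
      hh j = mcf D (shear a₀ (fm fun δ : Ex (Fin (M + 1)) (d j) => f₀ ⟨j, δ⟩)) +
        ∑ i : {i : PT M d // ¬ i ∈ S}, C (μ i) *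
          g2p d a₀ (fun j => fm fun δ : Ex (Fin (M + 1)) (d j) => f₀ ⟨j, δ⟩) i.1 j := by
  obtain ⟨D, hD'⟩ := hext (Sum.elim
    (fun p : IT (Fin (M + 1)) d => coeff (p.2 : Fin (M + 1) →₀ ℕ) (shear (fun b => - a₀ b) (hh p.1)))
    (fun _ => 0))
  generalize hτ : (Sum.elim
    (fun p : IT (Fin (M + 1)) d => coeff (p.2 : Fin (M + 1) →₀ ℕ) (shear (fun b => - a₀ b) (hh p.1)))
    (fun _ => 0) : PT M d → K) = τ at hD'
  refine ⟨D, fun i => τ i.1 - D (Sum.elim f₀ a₀ i.1), fun j => ?_⟩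
  have e2 : ∑ i, C (τ i) * g2p d a₀ (fun j => fm fun δ : Ex (Fin (M + 1)) (d j) => f₀ ⟨j, δ⟩) i j =
      hh j := by
    rw [g2_sum]
    have e3 : (fm fun δ : Ex (Fin (M + 1)) (d j) => τ (Sum.inl ⟨j, δ⟩)) =
        shear (fun b => - a₀ b) (hh j) := by
      rw [← fm_coeff (shear_homogeneous (fun b => - a₀ b) (hhk j)), ← hτ]
      rfl
    rw [e3, shear_shear]
    have e4 : ∀ b : Fin M, C (τ (Sum.inr b)) * (X 0 * shear a₀ (pderiv b.succ
        (fm fun δ : Ex (Fin (M + 1)) (d j) => f₀ ⟨j, δ⟩))) = 0 := by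
      intro b
      have : τ (Sum.inr b) = 0 := by rw [← hτ]; rfl
      rw [this, C_0, zero_mul]
    rw [Finset.sum_congr rfl fun b _ => e4 b, Finset.sum_const_zero, add_zero]
  rw [← e2, g2_chain]
  have e5 : ∑ i, C (τ i - D (Sum.elim f₀ a₀ i)) *
        g2p d a₀ (fun j => fm fun δ : Ex (Fin (M + 1)) (d j) => f₀ ⟨j, δ⟩) i j =
      ∑ i : {i : PT M d // ¬ i ∈ S}, C (τ i.1 - D (Sum.elim f₀ a₀ i.1)) *
        g2p d a₀ (fun j => fm fun δ : Ex (Fin (M + 1)) (d j) => f₀ ⟨j, δ⟩) i.1 j := by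
    rw [← Fintype.sum_subtype_add_sum_subtype (fun i : PT M d => i ∈ S)
      (fun i => C (τ i - D (Sum.elim f₀ a₀ i)) *
        g2p d a₀ (fun j => fm fun δ : Ex (Fin (M + 1)) (d j) => f₀ ⟨j, δ⟩) i j)]
    rw [Finset.sum_eq_zero, zero_add]
    intro i _
    rw [hD' i.1 i.2, sub_self, C_0, zero_mul]
  rw [← e5, ← Finset.sum_add_distrib]
  refine Finset.sum_congr rfl fun i _ => ?_
  rw [C_sub]
  ring

theorem g2_main (hd : ∀ j, 1 ≤ d j) (f₀ : IT (Fin (M + 1)) d → K) (a₀ : Fin M → K)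
    (S : Finset (PT M d)) (hS : Sᶜ.card ≤ h + c)
    (hext : ∀ τ : PT M d → K, ∃ D : Derivation ℂ K K, ∀ i ∈ S, D (Sum.elim f₀ a₀ i) = τ i)
    (hg0 : ∀ j, coeff (Finsupp.single 0 (d j))
      (shear a₀ (fm fun δ : Ex (Fin (M + 1)) (d j) => f₀ ⟨j, δ⟩)) = 0)
    {Θ : MvPolynomial (I0 M h d) ℂ} (hΘ : Θ ≠ 0) :
    ∃ ψ : Fin c → MvPolynomial (Fin (M + 1) ⊕ Fin h) ℂ, IsExtT h d ψ ∧
      cv0 Θ (bigT K ψ fun j => shear a₀ (fm fun δ : Ex (Fin (M + 1)) (d j) => f₀ ⟨j, δ⟩)) ≠ 0 := by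
  have hcard : Fintype.card {i : PT M d // ¬ i ∈ S} ≤ h + c := by
    refine le_trans (le_of_eq ?_) hS
    exact Fintype.card_of_subtype Sᶜ fun x => Finset.mem_compl
  have hffk : ∀ j, (fm fun δ : Ex (Fin (M + 1)) (d j) => f₀ ⟨j, δ⟩).IsHomogeneous (d j) :=
    fun j => fm_homogeneous _
  exact alg1G (K := K) (n := h) (β := {i : PT M d // ¬ i ∈ S}) hd hcard
    (fun j => shear_homogeneous _ (hffk j)) hg0
    (fun i => g2p d a₀ (fun j => fm fun δ : Ex (Fin (M + 1)) (d j) => f₀ ⟨j, δ⟩) i.1)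
    (fun i j => g2_hom hd a₀ _ hffk i.1 j) (g2_hD f₀ a₀ S hext) hΘ

end aux

/-- The proof of `alg2T` (H53U/R4.lean), first part.  Let `S` be a set of coordinates (of the `PT M d`), with at most `h + c` elements in the
complement, and suppose that `badI Θ` contains no nonzero polynomial in `supported ℂ S`.  These polynomials different from `0` are a
submonoid disjoint from `badI Θ`, so there is a prime `P` containing `badI Θ` and disjoint from it (`Ideal.exists_le_prime_disjoint`);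
`K = FractionRing (A₁ ⧸ P)`, `π : A₁ → K`, `f₀`, `a₀`, `ff`, `g = shear a₀ ff` as there; `MvPolynomial S ℂ → A₁ → K` is injective
(`rename Subtype.val`, image in `supported ℂ S`), so by `ext_field` there are derivations `D` of `K` with prescribed values at the coordinates `π (X i)`,
`i ∈ S`.  `alg1G` with `β = {i // i ∉ S}` (`Fintype.card β = Sᶜ.card`) and
  `p (inl ⟨j, δ⟩) = Pi.single j (shear a₀ (monomial δ 1))`,
  `p (inr b) j = X 0 * shear a₀ (pderiv b.succ (ff j))` (`shear a₀ G = aeval (Fin.cons ..) G` by definition).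
For its hypothesis `hD`: for a tuple `h` let `τ (inl ⟨j, δ⟩) = coeff δ (shear (-a₀) (h j))`, `τ (inr b) = 0`; take `D` with
`D (π (X i)) = τ i` for `i ∈ S` and `μ i = τ i - D (π (X i))` for `i ∉ S`.  Chain rule: `mcf D (g j) = ∑ i, C (D (π (X i))) * p i j` (sum over all coordinates
`i`, the same formula for `p`), by `mcf_aeval`, `mcf_fm` as in `alg2T`; so `mcf D (g j) + ∑_{i ∉ S} C (μ i) * p i j = ∑ i, C (τ i) * p i j =
shear a₀ (shear (-a₀) (h j)) = h j` (`fm_coeff`, `shear_shear`).  `hg0` as in `alg2T`.  The contradiction as there. -/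
theorem badI_codim (hd : ∀ j, 1 ≤ d j) {Θ : MvPolynomial (I0 M h d) ℂ} (hΘ : Θ ≠ 0) :
    CodimGt (badI Θ) (h + c) := by
  classical
  intro S hS
  by_contra hcon
  push Not at hcon
  let A₁ := MvPolynomial (PT M d) ℂ
  let T : Submonoid A₁ :=
    { carrier := {x | x ≠ 0 ∧ x ∈ supported ℂ (S : Set (PT M d))}
      mul_mem' := by
        rintro x y ⟨hx, hx'⟩ ⟨hy, hy'⟩
        exact ⟨mul_ne_zero hx hy, mul_mem hx' hy'⟩
      one_mem' := ⟨one_ne_zero, one_mem _⟩ }
  have hdis : Disjoint (badI Θ : Set A₁) T := by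
    rw [Set.disjoint_left]
    rintro x hx ⟨hx0, hxS⟩
    exact hcon x hx hx0 hxS
  obtain ⟨P, hP, hIP, hPS⟩ := Ideal.exists_le_prime_disjoint (badI Θ) T hdis
  let K := FractionRing (A₁ ⧸ P)
  have hess : Algebra.EssFiniteType ℂ K := by
    have h2 : Algebra.EssFiniteType (A₁ ⧸ P) K :=
      Algebra.EssFiniteType.of_isLocalization _ (nonZeroDivisors _)
    exact Algebra.EssFiniteType.comp ℂ (A₁ ⧸ P) K
  let π : A₁ →ₐ[ℂ] K := (IsScalarTower.toAlgHom ℂ (A₁ ⧸ P) K).comp (Ideal.Quotient.mkₐ ℂ P)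
  have hπ0 : ∀ x, π x = 0 ↔ x ∈ P := by
    intro x
    rw [← Ideal.Quotient.eq_zero_iff_mem]
    constructor
    · intro h
      exact (IsFractionRing.injective (A₁ ⧸ P) K) (by rw [map_zero]; exact h)
    · intro h
      change algebraMap (A₁ ⧸ P) K (Ideal.Quotient.mk P x) = 0
      rw [h, map_zero]
  have hnotP : ∀ x ∈ T, x ∉ P := fun x hx hxP => Set.disjoint_left.1 hPS hxP hx
  set f₀ : IT (Fin (M + 1)) d → K := fun p => π (X (Sum.inl p)) with hf₀
  set a₀ : Fin M → K := fun b => π (X (Sum.inr b)) with ha₀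
  have helim : ∀ i : PT M d, Sum.elim f₀ a₀ i = π (X i) := by
    rintro (p | b) <;> rfl
  set ff : Fin c → MvPolynomial (Fin (M + 1)) K := fun j =>
    fm fun δ : Ex (Fin (M + 1)) (d j) => f₀ ⟨j, δ⟩ with hff
  have hffk : ∀ j, (ff j).IsHomogeneous (d j) := fun j => fm_homogeneous _
  have hπf : ∀ j, map (π : A₁ →+* K) (fgen M d j) = ff j := by
    intro j
    rw [fgen, hff]
    simp only
    rw [map_fm]
    rfl
  have hπa : (fun b => (π : A₁ →+* K) (agen M d b)) = a₀ := rfl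
  set g : Fin c → MvPolynomial (Fin (M + 1)) K := fun j => shear a₀ (ff j) with hg
  have hgk : ∀ j, (g j).IsHomogeneous (d j) := fun j => shear_homogeneous _ (hffk j)
  have hπv : ∀ j, π (eval (Fin.cons 1 (agen M d)) (fgen M d j)) = eval (Fin.cons 1 a₀) (ff j) := by
    intro j
    change (π : A₁ →+* K) _ = _
    rw [hom_eval, hπf]
    congr 2
    funext i
    refine Fin.cases ?_ (fun b => ?_) i
    · simp
    · rfl
  have hg0 : ∀ j, coeff (Finsupp.single 0 (d j)) (g j) = 0 := by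
    intro j
    rw [← r4_coeff (hgk j), hg]
    simp only
    rw [eval_shear]
    have h1 : (Fin.cons ((Pi.single 0 1 : Fin (M + 1) → K) 0)
        (fun b : Fin M => (Pi.single 0 1 : Fin (M + 1) → K) b.succ +
          a₀ b * (Pi.single 0 1 : Fin (M + 1) → K) 0) : Fin (M + 1) → K) = Fin.cons 1 a₀ := by
      funext i
      refine Fin.cases ?_ (fun b => ?_) i
      · simp
      · simp
    rw [h1, ← hπv]
    exact (hπ0 _).2 (hIP (Ideal.subset_span (Or.inl ⟨j, rfl⟩)))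
  have hinj : Function.Injective (π.comp (rename Subtype.val :
      MvPolynomial {i : PT M d // i ∈ S} ℂ →ₐ[ℂ] A₁)) := by
    rw [injective_iff_map_eq_zero]
    intro x hx
    by_contra hx0
    refine hnotP (rename Subtype.val x) ⟨?_, ?_⟩ ((hπ0 _).1 hx)
    · intro h0
      apply hx0
      have hr := rename_injective (R := ℂ) (Subtype.val : {i : PT M d // i ∈ S} → PT M d)
        Subtype.val_injective
      exact hr (by rw [h0, map_zero])
    · rw [mem_supported]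
      intro i hi
      have h3 := vars_rename (Subtype.val : {i : PT M d // i ∈ S} → PT M d) x hi
      rw [Finset.mem_image] at h3
      obtain ⟨y, _, rfl⟩ := h3
      exact y.2
  obtain ⟨ψ, hψ, hne⟩ := g2_main (K := K) (h := h) hd f₀ a₀ S hS (fun τ => by
      obtain ⟨D, hD⟩ := ext_field _ hinj (fun i : {i : PT M d // i ∈ S} => τ i.1)
      refine ⟨D, fun i hi => ?_⟩
      have h2 := hD ⟨i, hi⟩
      rw [AlgHom.comp_apply, rename_X] at h2
      rw [helim]
      exact h2) hg0 hΘ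
  apply hne
  have h1 : π (cv0 Θ (bigT A₁ ψ fun j => shear (agen M d) (fgen M d j))) = 0 :=
    (hπ0 _).2 (hIP (Ideal.subset_span (Or.inr ⟨ψ, hψ, rfl⟩)))
  rw [map_cv0] at h1
  have hj : (fun j => map (π : A₁ →+* K) (shear (agen M d) (fgen M d j))) = g := by
    funext j
    rw [map_shear, hπf, hπa]
  have h2 : (fun j => map (π : A₁ →+* K) (bigT A₁ ψ (fun j => shear (agen M d) (fgen M d j)) j)) =
      bigT K ψ g := by
    funext j
    rw [map_bigT, hj]
  rw [h2] at h1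
  exact h1

/-- The proof of `alg2T` (H53U/R4.lean), second part (`hIφ`). -/
theorem badI_eval {Θ : MvPolynomial (I0 M h d) ℂ} {f : IT (Fin (M + 1)) d → ℂ} {a : Fin M → ℂ}
    (ha : ∀ j, eval (Fin.cons 1 a) (fm fun δ : Ex (Fin (M + 1)) (d j) => f ⟨j, δ⟩) = 0)
    (hψ : ∀ ψ : Fin c → MvPolynomial (Fin (M + 1) ⊕ Fin h) ℂ, IsExtT h d ψ →
      cv0 Θ (bigT ℂ ψ fun j => shear a (fm fun δ : Ex (Fin (M + 1)) (d j) => f ⟨j, δ⟩)) = 0) :
    ∀ G ∈ badI Θ, eval (Sum.elim f a) G = 0 := by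
  classical
  set φ : MvPolynomial (PT M d) ℂ →ₐ[ℂ] ℂ := aeval (Sum.elim f a) with hφ
  have hφf : ∀ j, map (φ : MvPolynomial (PT M d) ℂ →+* ℂ) (fgen M d j) =
      fm fun δ : Ex (Fin (M + 1)) (d j) => f ⟨j, δ⟩ := by
    intro j
    rw [fgen, map_fm]
    congr 1
    funext δ
    rw [AlgHom.coe_toRingHom, hφ, aeval_X]
    rfl
  have hφa : (fun b => (φ : MvPolynomial (PT M d) ℂ →+* ℂ) (agen M d b)) = a := by
    funext b
    rw [AlgHom.coe_toRingHom, hφ, agen, aeval_X]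
    rfl
  have h3 : ∀ j, φ (eval (Fin.cons 1 (agen M d)) (fgen M d j)) = 0 := by
    intro j
    rw [← ha j]
    change (φ : MvPolynomial (PT M d) ℂ →+* ℂ) _ = _
    rw [hom_eval, hφf]
    congr 2
    funext i
    refine Fin.cases ?_ (fun b => ?_) i
    · simp
    · exact congrFun hφa b
  have hIφ : badI Θ ≤ RingHom.ker φ := by
    rw [badI, Ideal.span_le]
    rintro _ (⟨j, rfl⟩ | ⟨ψ, hψ', rfl⟩)
    · exact h3 j
    · change φ _ = 0
      rw [map_cv0]
      have h2 : (fun j => map (φ : MvPolynomial (PT M d) ℂ →+* ℂ)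
          (bigT (MvPolynomial (PT M d) ℂ) ψ (fun j => shear (agen M d) (fgen M d j)) j)) =
          bigT ℂ ψ fun j => shear a (fm fun δ : Ex (Fin (M + 1)) (d j) => f ⟨j, δ⟩) := by
        funext j
        rw [map_bigT]
        congr 1
        funext j
        rw [map_shear, hφf, hφa]
      rw [h2]
      exact hψ ψ hψ'
  intro G hG
  have h4 : φ G = 0 := hIφ hG
  rw [hφ, MvPolynomial.aeval_eq_eval] at h4
  exact h4

end Pool.Agent.H24C
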