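import Pool.Agent.Lib.H24C.D0
import Pool.Agent.Lib.H53U.R5

set_option autoImplicit false

/-!
CHUNK G4A (S/M).  Change of the index set of the coefficients (port of H53U/R5.lean).
-/

open MvPolynomial

namespace Pool.Agent.H24C

open Pool.Agent.H89T Pool.Agent.H67T Pool.Agent.H53U

theorem eqvH_zero (k h c : ℕ) : eqvH k h c (Sum.inl 0) = 0 := by
  apply Fin.ext
  simp [eqvH]

/-- The exponent in the variables `Fin (k + c + 1) ⊕ Fin h`. -/
noncomputable def g4a_g {k h c : ℕ} {d : Fin c → ℕ} (p : CI (k + h + c) d) : (Fin (k + c + 1) ⊕ Fin h) →₀ ℕ :=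
  (ext 0 p.2).mapDomain (eqvH k h c).symm

theorem g4a_mem {k h c : ℕ} {d : Fin c → ℕ} (p : CI (k + h + c) d) : g4a_g p ∈ Ex (Fin (k + c + 1) ⊕ Fin h) (d p.1) := by
  rw [mem_Ex]
  unfold g4a_g
  rw [Finsupp.degree_mapDomain, Finsupp.degree_eq_sum]
  exact ext_degree 0 p.2

theorem g4a_coeff {k h c : ℕ} {d : Fin c → ℕ} (p : CI (k + h + c) d) (G : MvPolynomial (Fin (k + c + 1) ⊕ Fin h) ℂ) :
    coeff (ext 0 p.2) (rename (eqvH k h c) G) = coeff (g4a_g p) G := by
  have h1 : ext 0 p.2 = (g4a_g p).mapDomain (eqvH k h c) := by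
    unfold g4a_g
    rw [← Finsupp.mapDomain_comp]
    simp
  rw [h1, coeff_rename_mapDomain _ (eqvH k h c).injective]

/-- The proof of `exists_theta0` (H53U/R5.lean), with `k + h`, `eqvH` for `n + n`, `eqvT`. -/
theorem exists_theta0H {k h c : ℕ} {d : Fin c → ℕ} {Θ : RC (k + h + c) d}
    (hΘ : ∃ a : CI (k + h + c) d → ℂ, (∀ j, U0 a 0 j = 0) ∧ eval a Θ ≠ 0) :
    ∃ Θ₀ : MvPolynomial (I0 (k + c) h d) ℂ, Θ₀ ≠ 0 ∧
      ∀ F : Fin c → MvPolynomial (Fin (k + c + 1) ⊕ Fin h) ℂ, (∀ j, (F j).IsHomogeneous (d j)) →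
        (∀ j, coeff (Finsupp.single (Sum.inl 0) (d j)) (F j) = 0) →
        eval (cfs d fun j => rename (eqvH k h c) (F j)) Θ = cv0 Θ₀ F := by
  classical
  obtain ⟨Θ₀, hΘ₀⟩ : ∃ Θ₀ : MvPolynomial (I0 (k + c) h d) ℂ, Θ₀ = aeval (fun p : CI (k + h + c) d =>
    if hh : g4a_g p ≠ Finsupp.single (Sum.inl 0) (d p.1) then
      (X ⟨⟨p.1, ⟨g4a_g p, g4a_mem p⟩⟩, hh⟩ : MvPolynomial (I0 (k + c) h d) ℂ) else 0) Θ := ⟨_, rfl⟩
  have hform : ∀ F : Fin c → MvPolynomial (Fin (k + c + 1) ⊕ Fin h) ℂ, (∀ j, (F j).IsHomogeneous (d j)) →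
        (∀ j, coeff (Finsupp.single (Sum.inl 0) (d j)) (F j) = 0) →
        eval (cfs d fun j => rename (eqvH k h c) (F j)) Θ = cv0 Θ₀ F := by
    intro F hF hF0
    rw [hΘ₀]
    unfold cv0
    refine MvPolynomial.induction_on (motive := fun Θ : RC (k + h + c) d =>
      eval (cfs d fun j => rename (eqvH k h c) (F j)) Θ =
      aeval (fun p : I0 (k + c) h d => coeff (p.1.2 : (Fin (k + c + 1) ⊕ Fin h) →₀ ℕ) (F p.1.1)) (aeval (fun p : CI (k + h + c) d =>
    if hh : g4a_g p ≠ Finsupp.single (Sum.inl 0) (d p.1) then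
      (X ⟨⟨p.1, ⟨g4a_g p, g4a_mem p⟩⟩, hh⟩ : MvPolynomial (I0 (k + c) h d) ℂ) else 0) Θ)) Θ ?_ ?_ ?_
    · intro t
      rw [aeval_C, eval_C, MvPolynomial.algebraMap_eq, aeval_C]
      rfl
    · intro p q hp hq
      rw [map_add, map_add, map_add, hp, hq]
    · intro p q hp
      rw [map_mul, map_mul, map_mul, hp, aeval_X, eval_X]
      congr 1
      have h1 : cfs d (fun j => rename (eqvH k h c) (F j)) q = coeff (g4a_g q) (F q.1) := g4a_coeff q (F q.1)
      rw [h1]
      split_ifs with hh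
      · rw [aeval_X]
      · rw [map_zero]
        push Not at hh
        rw [hh]
        exact hF0 q.1
  refine ⟨Θ₀, ?_, hform⟩
  rintro rfl
  obtain ⟨a, ha, hne⟩ := hΘ
  apply hne
  have hex : ∀ j, ∃ G : MvPolynomial (Fin (k + h + c + 1)) ℂ, G.IsHomogeneous (d j) ∧ cfF (d j) 0 G = fun α => a ⟨j, α⟩ :=
    fun j => exists_form 0 _
  choose G hG hGa using hex
  have hren : ∀ j, rename (eqvH k h c) (rename (eqvH k h c).symm (G j)) = G j := by
    intro j
    rw [rename_rename]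
    have e : (eqvH k h c : Fin (k + c + 1) ⊕ Fin h → Fin (k + h + c + 1)) ∘ (eqvH k h c).symm = id := by
      funext x
      simp
    rw [e, rename_id_apply]
  have hcfs : (cfs d fun j => rename (eqvH k h c) (rename (eqvH k h c).symm (G j))) = a := by
    funext p
    simp only [hren]
    exact congrFun (hGa p.1) p.2
  have h1 := hform (fun j => rename (eqvH k h c).symm (G j)) (fun j => (hG j).rename_isHomogeneous) (by
    intro j
    have h2 : coeff (Finsupp.single 0 (d j)) (G j) = 0 := by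
      have h3 := U0_cfs_zero (d := d) G j
      rw [← h3]
      have h4 : cfs d G = a := by
        funext p
        exact congrFun (hGa p.1) p.2
      rw [h4]
      exact ha j
    have h5 : coeff (Finsupp.single 0 (d j)) (rename (eqvH k h c) (rename (eqvH k h c).symm (G j))) = 0 := by
      rw [hren]
      exact h2
    have h6 : (Finsupp.single 0 (d j) : Fin (k + h + c + 1) →₀ ℕ) =
        (Finsupp.single (Sum.inl 0) (d j) : (Fin (k + c + 1) ⊕ Fin h) →₀ ℕ).mapDomain (eqvH k h c) := by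
      rw [Finsupp.mapDomain_single, eqvH_zero]
    rw [h6, coeff_rename_mapDomain _ (eqvH k h c).injective] at h5
    exact h5)
  rw [hcfs] at h1
  rw [h1]
  unfold cv0
  rw [map_zero]

end Pool.Agent.H24C
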