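import Pool.Agent.Lib.H24C.G4A
import Pool.Agent.Lib.H53U.R6

set_option autoImplicit false

/-!
CHUNK U4B (S/M).  The extended curve (port of H53U/R6.lean).
-/

open MvPolynomial

namespace Pool.Agent.H24C

open Pool.Agent.H89T Pool.Agent.H67T Pool.Agent.H53U

/-- The proof of `exists_curve` (H53U/R6.lean), with `k + h`, `eqvH`, `eqvH_zero` for `n + n`, `eqvT`, `eqvT_zero`. -/
theorem exists_curveH {k h c : ℕ} {d : Fin c → ℕ}
    {F : Fin c → MvPolynomial (Fin (k + c + 1)) ℂ} (hF : ∀ j, (F j).IsHomogeneous (d j))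
    {y : ℂ → Fin (k + c + 1) → ℂ} (hy : IsHol y) (hFy : ∀ z j, eval (y z) (F j) = 0) {z₀ : ℂ}
    (hz₀ : y z₀ 0 ≠ 0) {ψ : Fin c → MvPolynomial (Fin (k + c + 1) ⊕ Fin h) ℂ}
    (hψ : IsExtT h d ψ) {b : Fin (k + c)} (hb : deriv (fun z => ch 0 y z b) z₀ ≠ 0) :
    ∃ Y : ℂ → Fin (k + h + c + 1) → ℂ, IsHol Y ∧
      (∀ z j, eval (Y z) (rename (eqvH k h c)
        (bigT ℂ ψ (fun j => shear (fun b => y z₀ b.succ / y z₀ 0) (F j)) j)) = 0) ∧
      Y 0 0 ≠ 0 ∧ (∀ i : Fin (k + h + c), Y 0 i.succ = 0) ∧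
      ∃ i : Fin (k + h + c), deriv (fun z => ch 0 Y z i) 0 ≠ 0 := by
  obtain ⟨s, E, hE, hψE⟩ := hψ
  obtain ⟨e, he⟩ : ∃ e, e = eqvH k h c := ⟨_, rfl⟩
  obtain ⟨a, ha⟩ : ∃ a : Fin (k + c) → ℂ, ∀ b, a b = y z₀ b.succ / y z₀ 0 := ⟨_, fun _ => rfl⟩
  have ha' : (fun b : Fin (k + c) => y z₀ b.succ / y z₀ 0) = a := _root_.funext fun b => (ha b).symm
  rw [ha', ← he]
  obtain ⟨C₀, hC₀⟩ : ∃ C₀ : ℂ, C₀ = y z₀ 0 := ⟨_, rfl⟩
  have hC0 : C₀ ≠ 0 := by
    rw [hC₀]
    exact hz₀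
  obtain ⟨x, hx⟩ : ∃ x : ℂ → Fin (k + c + 1) → ℂ, ∀ z, x z = Fin.cons (C₀⁻¹ * y (z + z₀) 0)
    (fun b => C₀⁻¹ * (y (z + z₀) b.succ - a b * y (z + z₀) 0)) := ⟨_, fun _ => rfl⟩
  have hx0 : ∀ z, x z 0 = C₀⁻¹ * y (z + z₀) 0 := fun z => by rw [hx]; rfl
  have hxs : ∀ z b, x z (Fin.succ b) = C₀⁻¹ * (y (z + z₀) b.succ - a b * y (z + z₀) 0) := fun z b => by rw [hx]; rfl
  obtain ⟨Yν, hYν⟩ : ∃ Yν : ℂ → Fin (k + c + 1) ⊕ Fin h → ℂ, ∀ z, Yν z =
    Sum.elim (x z) (fun i => - ∑ b : Fin (k + c), s i b * x z b.succ) := ⟨_, fun _ => rfl⟩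
  obtain ⟨Y, hY⟩ : ∃ Y : ℂ → Fin (k + h + c + 1) → ℂ, ∀ z j, Y z j = Yν z (e.symm j) := ⟨_, fun _ _ => rfl⟩
  have hY' : ∀ z i, Y z (e i) = Yν z i := by
    intro z i
    rw [hY, Equiv.symm_apply_apply]
  have hYx : ∀ z i, Y z (e (Sum.inl i)) = x z i := fun z i => by rw [hY', hYν, Sum.elim_inl]
  have hFx : ∀ z j, eval (x z) (shear a (F j)) = 0 := by
    intro z j
    have h1 := GH2_eval_smul (hF j) C₀⁻¹ (y (z + z₀))
    rw [hFy, mul_zero] at h1
    rw [eval_shear, ← h1]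
    congr 2
    funext i
    refine Fin.cases ?_ (fun b => ?_) i
    · rw [Fin.cons_zero, hx0]
      rfl
    · rw [Fin.cons_succ, hxs, hx0, Pi.smul_apply, smul_eq_mul]
      ring
  have hFY : ∀ z j, eval (Y z) (rename e (bigT ℂ ψ (fun j => shear a (F j)) j)) = 0 := by
    intro z j
    have h1 : Y z ∘ e = Yν z := _root_.funext fun i => hY' z i
    rw [eval_rename, h1, bigT, map_add, eval_rename, hYν]
    simp only [Sum.elim_comp_inl]
    rw [hFx z]
    have h2 : eval (Sum.elim (x z) fun i => - ∑ b : Fin (k + c), s i b * x z b.succ)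
        (map (algebraMap ℂ ℂ) (ψ j)) = 0 := by
      have h3 : map (algebraMap ℂ ℂ) (ψ j) = ψ j := map_id (ψ j)
      rw [h3, hψE j, map_sum]
      refine Finset.sum_eq_zero fun i _ => ?_
      rw [map_mul, map_add, map_sum]
      simp
    rw [h2, add_zero]
  have hshift : ∀ i, Differentiable ℂ fun z => y (z + z₀) i := fun i =>
    (hy.diff i).comp (differentiable_id.add_const z₀)
  have hxd : ∀ i, Differentiable ℂ fun z => x z i := by
    intro i
    refine Fin.cases ?_ (fun b => ?_) i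
    · have e1 : (fun z => x z 0) = fun z => C₀⁻¹ * y (z + z₀) 0 := _root_.funext hx0
      rw [e1]
      exact (hshift 0).const_mul _
    · have e1 : (fun z => x z (Fin.succ b)) = fun z => C₀⁻¹ * (y (z + z₀) b.succ - a b * y (z + z₀) 0) :=
        _root_.funext fun z => hxs z b
      rw [e1]
      exact ((hshift _).sub ((hshift 0).const_mul _)).const_mul _
  have hYdiff : ∀ j, Differentiable ℂ fun z => Y z j := by
    intro j
    obtain ⟨i, rfl⟩ := e.surjective j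
    have e1 : (fun z => Y z (e i)) = fun z => Yν z i := _root_.funext fun z => hY' z i
    rw [e1]
    rcases i with i | i
    · have e2 : (fun z => Yν z (Sum.inl i)) = fun z => x z i := _root_.funext fun z => by rw [hYν, Sum.elim_inl]
      rw [e2]
      exact hxd i
    · have e2 : (fun z => Yν z (Sum.inr i)) = fun z => - ∑ b : Fin (k + c), s i b * x z b.succ :=
        _root_.funext fun z => by rw [hYν, Sum.elim_inr]
      rw [e2]
      exact (Differentiable.fun_sum fun b _ => (hxd b.succ).const_mul _).neg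
  have hyx : ∀ z i, y (z + z₀) i = C₀ * (x z i + (Fin.cons 0 (fun b => a b * x z 0) :
      Fin (k + c + 1) → ℂ) i) := by
    intro z i
    refine Fin.cases ?_ (fun b => ?_) i
    · rw [hx0, Fin.cons_zero]
      field_simp
      ring
    · rw [hxs, Fin.cons_succ, hx0]
      field_simp
      ring
  have hYh : IsHol Y := by
    refine ⟨hYdiff, fun z h0 => hy.ne_zero (z + z₀) ?_⟩
    have h1 : ∀ i, x z i = 0 := fun i => by rw [← hYx, h0]; rfl
    funext i
    rw [hyx z i]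
    refine Fin.cases ?_ (fun b => ?_) i
    · rw [h1, Fin.cons_zero]
      simp
    · rw [h1, Fin.cons_succ, h1]
      simp
  have hx00 : x 0 0 = 1 := by
    rw [hx0, zero_add, ← hC₀]
    exact inv_mul_cancel₀ hC0
  have hx0s : ∀ b : Fin (k + c), x 0 b.succ = 0 := by
    intro b
    rw [hxs, zero_add, ha]
    field_simp
    ring
  have hY00 : ∀ z, Y z 0 = x z 0 := by
    intro z
    have h1 := hYx z 0
    rw [he, eqvH_zero] at h1
    exact h1
  refine ⟨Y, hYh, hFY, ?_, ?_, ?_⟩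
  · rw [hY00, hx00]
    exact one_ne_zero
  · intro i
    obtain ⟨l, hl⟩ := e.surjective i.succ
    rw [← hl, hY', hYν]
    rcases l with l | l
    · rw [Sum.elim_inl]
      rcases Fin.eq_zero_or_eq_succ l with hq | ⟨b', hq⟩
      · exfalso
        rw [hq, he, eqvH_zero] at hl
        exact Fin.succ_ne_zero i hl.symm
      · rw [hq, hx0s]
    · rw [Sum.elim_inr]
      simp [hx0s]
  · have hne : e (Sum.inl b.succ) ≠ 0 := by
      intro h0
      have h1 : e (Sum.inl b.succ) = e (Sum.inl 0) := by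
        rw [h0, he, eqvH_zero]
      exact Fin.succ_ne_zero b (Sum.inl_injective (e.injective h1))
    obtain ⟨i, hi⟩ := Fin.exists_succ_eq.2 hne
    refine ⟨i, ?_⟩
    have hnear : ∀ᶠ z in nhds (0 : ℂ), y (z + z₀) 0 ≠ 0 := by
      refine (hshift 0).continuous.continuousAt.eventually_ne ?_
      rw [zero_add]
      exact hz₀
    have h1 : (fun z => ch 0 Y z i) =ᶠ[nhds 0] fun z => ch 0 y (z + z₀) b - a b := by
      filter_upwards [hnear] with z hz
      have h2 : Y z ((0 : Fin (k + h + c + 1)).succAbove i) = x z b.succ := by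
        rw [Fin.succAbove_zero, hi, hYx]
      show Y z ((0 : Fin (k + h + c + 1)).succAbove i) / Y z 0 = y (z + z₀) ((0 : Fin (k + c + 1)).succAbove b) / y (z + z₀) 0 - a b
      rw [h2, hY00, hxs, hx0, Fin.succAbove_zero]
      field_simp
    rw [h1.deriv_eq, deriv_sub_const, deriv_comp_add_const (f := fun z => ch 0 y z b) z₀ 0, zero_add]
    exact hb

end Pool.Agent.H24C
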