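import Pool.Agent.Lib.H24C.UD
import Pool.Agent.Lib.H24C.G2
import Pool.Agent.Lib.H24C.G4A
import Pool.Agent.Lib.H24C.U4B

set_option autoImplicit false

/-!
CHUNK U4 (M).  The polynomials of the bad ideal vanish at the points of entire curves where the curve is immersed (port of
H53U/RFinal.lean).
-/

open MvPolynomial

namespace Pool.Agent.H24C

open Pool.Agent.H89T Pool.Agent.H67T Pool.Agent.H53U

/-- `Θ₀` from `exists_theta0H`.  If `eval (Sum.elim (cfT d F) a) G ≠ 0`, `a b = y z₀ b.succ / y z₀ 0`, by `badI_eval` (with `f := cfT d F`,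
`fm (cfT d F ⟨j, .⟩) = F j` by `fm_coeff`, `eval (Fin.cons 1 a) (F j) = 0`) there is `ψ` with `IsExtT h d ψ` and
`cv0 Θ₀ (bigT ℂ ψ (shear a F)) ≠ 0`; the rest is the proof of `hypU_of_ptdU` (H53U/RFinal.lean) after
`obtain ⟨ψ, hψ, hne⟩`, with `exists_curveH`, `eqvH`. -/
theorem vanish_of_ptdU {k h c : ℕ} {d : Fin c → ℕ} (hd : ∀ j, 1 ≤ d j) (hP : PtdU (k + h) d) :
    ∃ Θ₀ : MvPolynomial (I0 (k + c) h d) ℂ, Θ₀ ≠ 0 ∧
      ∀ F : Fin c → MvPolynomial (Fin (k + c + 1)) ℂ, (∀ j, (F j).IsHomogeneous (d j)) →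
        ∀ y : ℂ → Fin (k + c + 1) → ℂ, IsHol y → (∀ z j, eval (y z) (F j) = 0) →
          ∀ z₀, y z₀ 0 ≠ 0 → (∃ b, deriv (fun z => ch 0 y z b) z₀ ≠ 0) →
            ∀ G ∈ badI Θ₀,
              eval (Sum.elim (cfT d F) fun b => y z₀ b.succ / y z₀ 0) G = 0 := by
  classical
  obtain ⟨Θ, hΘ, hmain⟩ := hP
  obtain ⟨Θ₀, hΘ₀, hcv⟩ := exists_theta0H hΘ
  refine ⟨Θ₀, hΘ₀, ?_⟩
  intro F hF y hy hFy z₀ hz₀ hbx G hG
  obtain ⟨b, hb⟩ := hbx
  by_contra hGne
  obtain ⟨a, ha⟩ : ∃ a : Fin (k + c) → ℂ, a = fun b => y z₀ b.succ / y z₀ 0 := ⟨_, rfl⟩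
  rw [← ha] at hGne
  have hfF : ∀ j, fm (fun δ : Ex (Fin (k + c + 1)) (d j) => cfT d F ⟨j, δ⟩) = F j := fun j => by
    have h1 : (fun δ : Ex (Fin (k + c + 1)) (d j) => cfT d F ⟨j, δ⟩) =
        fun δ : Ex (Fin (k + c + 1)) (d j) => coeff δ.1 (F j) := rfl
    rw [h1]
    exact fm_coeff (hF j)
  have hya : y z₀ = y z₀ 0 • (Fin.cons 1 a : Fin (k + c + 1) → ℂ) := by
    funext i
    refine Fin.cases ?_ (fun b => ?_) i
    · simp
    · simp only [Pi.smul_apply, Fin.cons_succ, ha, smul_eq_mul]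
      field_simp
  have hFa : ∀ j, eval (Fin.cons 1 a) (F j) = 0 := by
    intro j
    have h1 := hFy z₀ j
    rw [hya, GH2_eval_smul (hF j)] at h1
    exact (mul_eq_zero.1 h1).resolve_left (pow_ne_zero _ hz₀)
  obtain ⟨ψ, hψ, hne⟩ : ∃ ψ : Fin c → MvPolynomial (Fin (k + c + 1) ⊕ Fin h) ℂ, IsExtT h d ψ ∧
      cv0 Θ₀ (bigT ℂ ψ fun j => shear a (F j)) ≠ 0 := by
    by_contra hcon
    push Not at hcon
    apply hGne
    refine badI_eval (fun j => ?_) (fun ψ hψ => ?_) G hG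
    · rw [hfF]
      exact hFa j
    · have h1 : (fun j => shear a (fm fun δ : Ex (Fin (k + c + 1)) (d j) => cfT d F ⟨j, δ⟩)) =
          fun j => shear a (F j) := by
        funext j
        rw [hfF]
      rw [h1]
      exact hcon ψ hψ
  -- the extended forms
  have hψh : ∀ j, (ψ j).IsHomogeneous (d j) := by
    obtain ⟨s, E, hE, hψ⟩ := hψ
    intro j
    rw [hψ]
    refine IsHomogeneous.sum _ _ _ fun i _ => ?_
    have h5 : (X (Sum.inr i) + ∑ b : Fin (k + c), C (s i b) * X (Sum.inl b.succ) :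
        MvPolynomial (Fin (k + c + 1) ⊕ Fin h) ℂ).IsHomogeneous 1 := by
      refine (isHomogeneous_X _ _).add (IsHomogeneous.sum _ _ _ fun b _ => ?_)
      exact (isHomogeneous_C _ _).mul (isHomogeneous_X _ _)
    have h6 := h5.mul (hE i j)
    rwa [Nat.add_sub_cancel' (hd j)] at h6
  have hbig : ∀ j, (bigT ℂ ψ (fun j => shear a (F j)) j).IsHomogeneous (d j) := fun j =>
    ((shear_homogeneous a (hF j)).rename_isHomogeneous
      (f := (Sum.inl : Fin (k + c + 1) → Fin (k + c + 1) ⊕ Fin h))).add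
      ((hψh j).map (algebraMap ℂ ℂ))
  obtain ⟨Y, hY, hYF, hY0, hYs, i, hi⟩ := exists_curveH hF hy hFy hz₀ hψ hb
  rw [← ha] at hYF
  have hU0 : ∀ j, U0 (cfs d fun j => rename (eqvH k h c)
      (bigT ℂ ψ (fun j => shear a (F j)) j)) 0 j = 0 := by
    intro j
    rw [U0_cfs_zero]
    have h1 := hYF 0 j
    have h2 : Y 0 = Y 0 0 • (Pi.single 0 1 : Fin (k + h + c + 1) → ℂ) := by
      funext i
      refine Fin.cases ?_ (fun b => ?_) i
      · simp
      · rw [hYs]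
        simp
    have h3 : ∀ G : MvPolynomial (Fin (k + h + c + 1)) ℂ, G.IsHomogeneous (d j) →
        eval (Pi.single 0 1) G = coeff (Finsupp.single 0 (d j)) G := by
      intro G hG
      rw [← U0_cfs_zero (N := k + h + c) (d := fun _ : Fin c => d j) (fun _ => G) j]
      have h4 := eval_insertNth 0 hG (0 : Fin (k + h + c) → ℂ)
      have h5 : ((0 : Fin (k + h + c + 1)).insertNth 1 (0 : Fin (k + h + c) → ℂ) :
          Fin (k + h + c + 1) → ℂ) = Pi.single 0 1 := by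
        funext i
        refine Fin.cases ?_ (fun b => ?_) i
        · simp
        · rw [Pi.single_eq_of_ne (Fin.succ_ne_zero b)]
          simp
      rw [h5] at h4
      exact h4
    rw [h2, GH2_eval_smul (hbig j).rename_isHomogeneous] at h1
    have h4 := (mul_eq_zero.1 h1).resolve_left (pow_ne_zero _ hY0)
    rw [h3 _ (hbig j).rename_isHomogeneous] at h4
    exact h4
  have hne' : eval (cfs d fun j => rename (eqvH k h c)
      (bigT ℂ ψ (fun j => shear a (F j)) j)) Θ ≠ 0 := by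
    rw [hcv _ hbig (fun j => ?_)]
    · exact hne
    · have h1 := hU0 j
      rw [U0_cfs_zero, ← eqvH_zero k h c] at h1
      have h2 : (Finsupp.single (eqvH k h c (Sum.inl 0)) (d j) : Fin (k + h + c + 1) →₀ ℕ) =
          (Finsupp.single (Sum.inl 0) (d j) : (Fin (k + c + 1) ⊕ Fin h) →₀ ℕ).mapDomain
            (eqvH k h c) := by
        rw [Finsupp.mapDomain_single]
      rw [h2, coeff_rename_mapDomain _ (eqvH k h c).injective] at h1
      exact h1
  exact hi (hmain _ (fun j => (hbig j).rename_isHomogeneous) hU0 hne' Y hY hYF hY0 hYs i)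

end Pool.Agent.H24C
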