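import Pool.Agent.Lib.H24C.UD
import Pool.Agent.Lib.H24C.G3
import Pool.Agent.Lib.H24C.U4
import Pool.Agent.Lib.H24C.G5H
import Pool.Agent.Lib.H53U.R7

set_option autoImplicit false

/-!
CHUNK U5A (M).  The chart `y_0 ≠ 0`, entire curves.
-/

open MvPolynomial

namespace Pool.Agent.H24C

open Pool.Agent.H89T Pool.Agent.H67T Pool.Agent.H53U Pool.Agent.H24V

/-- As `sForm_zero` (G5A.lean): `Θ₀` from `vanish_of_ptdU`, `badI_codim`, `CodimGt.mono`, `fibre` with `S' = {b | b.succ ∈ S}` (its complement has as many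
elements as that of `S`, since `0 ∈ S`); for `F` the polynomial `g ≠ 0` in the variables `S'` with `g = aeval (Sum.elim (C (cfT d F ·)) X) G₀`, `G₀ ∈ badI Θ₀`, and the form `G` of
`homog` (used with `L := ℂ`).  `VanU F {G}`: let `y` be a nonconstant curve.  If `y z 0 = 0` for all `z`, then `eval (y z) G = 0`.  Otherwise by
`const_of_deriv` (H53U/R7.lean) there are `z₁`, `b` with `y z₁ 0 ≠ 0` and `deriv (fun z => ch 0 y z b) z₁ ≠ 0`; this holds for all `z` near `z₁` (the derivative is continuous there; or: the set of `z` with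
`y z 0 ≠ 0` and derivative `≠ 0` is a neighbourhood of `z₁`), so `g (y_(b+1) / y_0) = 0` near `z₁` and the entire function `eval (y z) G` vanishes near `z₁`, so everywhere. -/
theorem sForm_zeroU {k h c : ℕ} {d : Fin c → ℕ} (hd : ∀ j, 1 ≤ d j) (hP : PtdU (k + h) d)
    {r s : ℕ} (hrs : r + s ≤ h + c) {S : Finset (Fin (k + c + 1))} (h0 : 0 ∈ S)
    (hS : Sᶜ.card ≤ r) : SFormU s d S := by
  classical
  obtain ⟨Θ₀, hΘ₀, hvan⟩ := vanish_of_ptdU hd hP
  have hI : CodimGt (badI Θ₀) (r + s) := (badI_codim hd hΘ₀).mono hrs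
  obtain ⟨S', hS'⟩ : ∃ S' : Finset (Fin (k + c)), S' = Finset.univ.filter fun b => b.succ ∈ S := ⟨_, rfl⟩
  have hcard : S'ᶜ.card ≤ r := by
    refine le_trans ?_ hS
    refine Finset.card_le_card_of_injOn Fin.succ ?_ (Fin.succ_injective _).injOn
    intro b hb
    have hb1 : b ∈ S'ᶜ := hb
    rw [Finset.mem_compl, hS', Finset.mem_filter] at hb1
    refine Finset.mem_coe.2 (Finset.mem_compl.2 fun h2 => hb1 ⟨Finset.mem_univ _, h2⟩)
  obtain ⟨J, hJ, hJF⟩ := fibre hI S' hcard
  refine ⟨J, hJ, fun F hF hΘ => ?_⟩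
  obtain ⟨g, hg0, hgS, G₀, hG₀, hgG⟩ := hJF (cfT d F) hΘ
  obtain ⟨e, G, hG0, hGe, hGS, hGy⟩ := homog hg0
  refine ⟨G, hG0, ⟨e, hGe⟩, hGS (S : Set (Fin (k + c + 1))) (Finset.mem_coe.2 h0) ?_, ?_⟩
  · have hset : {b : Fin (k + c) | b.succ ∈ (S : Set (Fin (k + c + 1)))} = (S' : Set (Fin (k + c))) := by
      ext b
      rw [hS']
      simp
    rw [hset]
    exact hgS
  · intro y hy hFy hnc G' hG' z
    rw [Set.mem_singleton_iff] at hG'
    rw [hG']
    have hev : ∀ z, eval (y z) G = aeval (y z) G := fun z => by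
      rw [← coe_aeval_eq_eval]
      rfl
    by_cases hall : ∀ z, y z 0 = 0
    · rw [hev]
      exact (hGy ℂ (y z)).1 (hall z)
    push Not at hall
    obtain ⟨z₂, hz₂⟩ := hall
    have hex : ∃ z₁, y z₁ 0 ≠ 0 ∧ ∃ b, deriv (fun z => ch 0 y z b) z₁ ≠ 0 := by
      by_contra hcon
      push Not at hcon
      obtain ⟨u, w, huw⟩ := hnc
      obtain ⟨t, ht⟩ := const_of_deriv hy hz₂ hcon u w
      exact huw t ht
    obtain ⟨z₁, hz₁, b, hb⟩ := hex
    have hnear : ∀ᶠ z in nhds z₁, y z 0 ≠ 0 :=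
      (hy.diff 0).continuous.continuousAt.eventually_ne hz₁
    have han : AnalyticAt ℂ (fun z => ch 0 y z b) z₁ :=
      ((hy.diff _).analyticAt z₁).div ((hy.diff _).analyticAt z₁) hz₁
    have hnear2 : ∀ᶠ z in nhds z₁, deriv (fun z => ch 0 y z b) z ≠ 0 :=
      han.deriv.continuousAt.eventually_ne hb
    have hzero : (fun z => eval (y z) G) =ᶠ[nhds z₁] 0 := by
      filter_upwards [hnear, hnear2] with z hz hz'
      have h1 := hvan F hF y hy hFy z hz ⟨b, hz'⟩ G₀ hG₀
      have h2 : aeval (fun b : Fin (k + c) => y z b.succ / y z 0) g = 0 := by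
        rw [hgG, comp_aeval_apply, ← h1, ← coe_aeval_eq_eval]
        show aeval _ G₀ = aeval _ G₀
        congr 2
        funext i
        rcases i with i | b
        · simp
        · simp
      show eval (y z) G = 0
      rw [hev, (hGy ℂ (y z)).2 hz, h2, mul_zero]
    have hdiff : Differentiable ℂ fun z => eval (y z) G := by
      simp only [eval_eq']
      refine Differentiable.fun_sum fun m _ => ?_
      refine Differentiable.const_mul ?_ _
      exact Differentiable.fun_finsetProd fun i _ => (hy.diff i).pow _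
    have h3 := AnalyticOnNhd.eqOn_zero_of_preconnected_of_eventuallyEq_zero
      (f := fun z => eval (y z) G)
      (U := Set.univ) (fun w _ => hdiff.analyticAt w) isPreconnected_univ (Set.mem_univ z₁) hzero
    exact h3 (Set.mem_univ z)

end Pool.Agent.H24C
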