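import Pool.Agent.Lib.H24C.UD

set_option autoImplicit false

/-!
CHUNK U5B (M).  Permutations of the variables and dropping equations, entire curves.
-/

open MvPolynomial

namespace Pool.Agent.H24C

open Pool.Agent.H89T Pool.Agent.H67T Pool.Agent.H53U Pool.Agent.H24V

/-- The codimension condition is inherited by the extension along an injective renaming. -/
private theorem u5b_codim {ι κ : Type} [Fintype ι] [DecidableEq ι] [Fintype κ] [DecidableEq κ]
    {τ : ι → κ} (hτ : Function.Injective τ) {I : Ideal (MvPolynomial ι ℂ)} {s : ℕ}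
    (hI : CodimGt I s) :
    CodimGt (I.map (rename τ : MvPolynomial ι ℂ →ₐ[ℂ] MvPolynomial κ ℂ)) s := by
  intro S hS
  let S' : Finset ι := Finset.univ.filter fun p => τ p ∈ S
  have hS' : S'ᶜ.card ≤ s := by
    refine le_trans ?_ hS
    rw [← Finset.card_image_of_injective S'ᶜ hτ]
    refine Finset.card_le_card ?_
    intro x hx
    obtain ⟨p, hp, rfl⟩ := Finset.mem_image.mp hx
    rw [Finset.mem_compl] at hp ⊢
    intro hq
    exact hp (Finset.mem_filter.mpr ⟨Finset.mem_univ _, hq⟩)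
  obtain ⟨G, hG, hG0, hGs⟩ := hI S' hS'
  refine ⟨rename τ G, Ideal.mem_map_of_mem _ hG, ?_, ?_⟩
  · intro h0
    exact hG0 (rename_injective τ hτ (by rw [h0, map_zero]))
  · rw [mem_supported] at hGs ⊢
    intro x hx
    have hx1 : x ∈ (rename τ G).vars := hx
    have hx2 := vars_rename τ G hx1
    obtain ⟨p, hp, rfl⟩ := Finset.mem_image.mp hx2
    have hp2 : p ∈ S' := by exact_mod_cast hGs hp
    exact (Finset.mem_filter.mp hp2).2

/-- Some element of the extension does not vanish at `v`: some element of the ideal does not vanish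
at `v ∘ τ`. -/
private theorem u5b_exists {ι κ : Type} {τ : ι → κ} {I : Ideal (MvPolynomial ι ℂ)} {v : κ → ℂ}
    (h : ∃ Θ ∈ I.map (rename τ : MvPolynomial ι ℂ →ₐ[ℂ] MvPolynomial κ ℂ), eval v Θ ≠ 0) :
    ∃ Θ ∈ I, eval (v ∘ τ) Θ ≠ 0 := by
  by_contra hcon
  push Not at hcon
  obtain ⟨Θ, hΘ1, hΘ2⟩ := h
  apply hΘ2
  have hle : I.map (rename τ : MvPolynomial ι ℂ →ₐ[ℂ] MvPolynomial κ ℂ) ≤
      RingHom.ker (eval v) := by
    rw [Ideal.map_le_iff_le_comap]
    intro x hx
    rw [Ideal.mem_comap, RingHom.mem_ker]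
    have h1 : eval v (rename τ x) = eval (v ∘ τ) x := eval_rename _ _ _
    have h3 := hcon x hx
    rw [← h1] at h3
    exact h3
  exact RingHom.mem_ker.mp (hle hΘ1)

/-- As `sForm_perm` (G5B.lean); for a curve `y` take `y' z = y z ∘ σ.symm`. -/
theorem sForm_permU {s M c : ℕ} {d : Fin c → ℕ} (σ : Equiv.Perm (Fin (M + 1)))
    {S : Finset (Fin (M + 1))} (h : SFormU s d (S.image σ)) : SFormU s d S := by
  classical
  obtain ⟨I', hI', hF'⟩ := h
  let τ : IT (Fin (M + 1)) d → IT (Fin (M + 1)) d := fun p =>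
    ⟨p.1, ⟨(p.2 : Fin (M + 1) →₀ ℕ).mapDomain σ.symm, by
      rw [mem_Ex, Finsupp.degree_mapDomain]
      exact mem_Ex.1 p.2.2⟩⟩
  have hτ : Function.Injective τ := by
    rintro ⟨j, a⟩ ⟨k, b⟩ hab
    have h1 : j = k := congrArg Sigma.fst hab
    subst h1
    have h3 := eq_of_heq (Sigma.mk.inj_iff.mp hab).2
    have h4 : (a : Fin (M + 1) →₀ ℕ).mapDomain σ.symm = (b : Fin (M + 1) →₀ ℕ).mapDomain σ.symm :=
      congrArg Subtype.val h3
    have h5 := Finsupp.mapDomain_injective σ.symm.injective h4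
    rw [Subtype.ext h5]
  refine ⟨I'.map (rename τ : MvPolynomial (IT (Fin (M + 1)) d) ℂ →ₐ[ℂ]
    MvPolynomial (IT (Fin (M + 1)) d) ℂ), u5b_codim hτ hI', ?_⟩
  intro F hF hΘ
  have hcf : cfT d F ∘ τ = cfT d fun j => rename σ (F j) := by
    funext p
    have h1 : ((p.2 : Fin (M + 1) →₀ ℕ).mapDomain σ.symm).mapDomain σ = p.2 := by
      rw [← Finsupp.mapDomain_comp]
      have h2 : (σ : Fin (M + 1) → Fin (M + 1)) ∘ σ.symm = id := by
        funext x
        exact σ.apply_symm_apply x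
      rw [h2, Finsupp.mapDomain_id]
    have h3 := coeff_rename_mapDomain σ σ.injective (F p.1)
      ((p.2 : Fin (M + 1) →₀ ℕ).mapDomain σ.symm)
    rw [h1] at h3
    exact h3.symm
  have key := u5b_exists hΘ
  rw [hcf] at key
  obtain ⟨G', hG0, ⟨e, hGe⟩, hGs, hv⟩ := hF' (fun j => rename σ (F j))
    (fun j => (hF j).rename_isHomogeneous) key
  refine ⟨rename σ.symm G', ?_, ⟨e, hGe.rename_isHomogeneous⟩, ?_, ?_⟩
  · intro h0
    exact hG0 (rename_injective σ.symm σ.symm.injective (by rw [h0, map_zero]))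
  · rw [mem_supported] at hGs ⊢
    intro x hx
    have hx1 : x ∈ (rename σ.symm G').vars := hx
    obtain ⟨p, hp, rfl⟩ := Finset.mem_image.mp (vars_rename σ.symm G' hx1)
    have hp2 : p ∈ S.image σ := by exact_mod_cast hGs hp
    obtain ⟨q, hq, rfl⟩ := Finset.mem_image.mp hp2
    rw [σ.symm_apply_apply]
    exact_mod_cast hq
  · intro y hy h0 hn G hG z
    rw [Set.mem_singleton_iff.mp hG]
    have h1 : eval (y z) (rename σ.symm G') = eval (y z ∘ σ.symm) G' := eval_rename _ _ _
    rw [h1]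
    refine hv (fun z => y z ∘ σ.symm) ⟨fun j => hy.diff (σ.symm j), fun z hz => ?_⟩ ?_ ?_ G'
      (Set.mem_singleton _) z
    · refine hy.ne_zero z ?_
      funext i
      have h2 := congrFun hz (σ i)
      simpa using h2
    · intro w j
      have h2 : eval (y w ∘ σ.symm) (rename σ (F j)) = eval ((y w ∘ σ.symm) ∘ σ) (F j) :=
        eval_rename _ _ _
      have h3 : (y w ∘ σ.symm) ∘ σ = y w := by
        funext i
        exact congrArg (y w) (σ.symm_apply_apply i)
      rw [h3] at h2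
      exact h2.trans (h0 w j)
    · obtain ⟨z1, w1, h2⟩ := hn
      refine ⟨z1, w1, fun t ht => h2 t ?_⟩
      funext i
      have h3 := congrFun ht (σ i)
      simpa using h3

/-- As `hypC_of_sub` (G7.lean). -/
theorem hypCU_of_sub {N c c' : ℕ} {d : Fin c → ℕ} (e : Fin c' → Fin c)
    (he : Function.Injective e) (h : HypCU N c' fun j => d (e j)) : HypCU N c d := by
  classical
  intro M s hcM hM
  have hcc : c' ≤ c := by
    have := Fintype.card_le_of_injective e he
    simpa using this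
  obtain ⟨I', hI', hF'⟩ := h M s (hcc.trans hcM) (by omega)
  let τ : IT (Fin (M + 1)) (fun j => d (e j)) → IT (Fin (M + 1)) d := fun p => ⟨e p.1, p.2⟩
  have hτ : Function.Injective τ := by
    rintro ⟨j, a⟩ ⟨k, b⟩ hab
    have h1 : e j = e k := congrArg Sigma.fst hab
    have h2 : j = k := he h1
    subst h2
    have h3 : a = b := eq_of_heq (Sigma.mk.inj_iff.mp hab).2
    rw [h3]
  refine ⟨I'.map (rename τ : MvPolynomial (IT (Fin (M + 1)) (fun j => d (e j))) ℂ →ₐ[ℂ]
    MvPolynomial (IT (Fin (M + 1)) d) ℂ), u5b_codim hτ hI', ?_⟩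
  intro F hF hΘ
  have hcf : cfT d F ∘ τ = cfT (fun j => d (e j)) (fun j => F (e j)) := rfl
  have key := u5b_exists (τ := τ) (v := cfT d F) hΘ
  rw [hcf] at key
  obtain ⟨T, hT, hc, hv⟩ := hF' (fun j => F (e j)) (fun j => hF (e j)) key
  refine ⟨T, hT, hc, ?_⟩
  intro y hy h0 hn G hG z
  exact hv y hy (fun z j => h0 z (e j)) hn G hG z

end Pool.Agent.H24C
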