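import Pool.Agent.Lib.H24C.G6
import Pool.Agent.Lib.H24C.U5A
import Pool.Agent.Lib.H24C.U5B

set_option autoImplicit false

/-!
CHUNK U6 (M).  The main property from the pointed theorem in dimension `2 n`, entire curves.
-/

open MvPolynomial

namespace Pool.Agent.H24C

open Pool.Agent.H89T Pool.Agent.H67T Pool.Agent.H53U Pool.Agent.H24V

/-- As `sForm_of_ptd` (G6.lean). -/
theorem sForm_of_ptdU {k h c : ℕ} {d : Fin c → ℕ} (hd : ∀ j, 1 ≤ d j) (hP : PtdU (k + h) d)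
    {r s : ℕ} (hrs : r + s ≤ h + c) {S : Finset (Fin (k + c + 1))} (hne : S.Nonempty)
    (hS : Sᶜ.card ≤ r) : SFormU s d S := by
  obtain ⟨i, hi⟩ := hne
  refine sForm_permU (Equiv.swap 0 i) (sForm_zeroU hd hP hrs ?_ ?_)
  · exact Finset.mem_image.mpr ⟨i, hi, Equiv.swap_apply_right 0 i⟩
  · rw [Finset.card_compl] at hS ⊢
    rwa [Finset.card_image_of_injective _ (Equiv.injective _)]

/-- As `hypC_of_ptdL` (G6.lean), with `codimGt_prod`; in the case `S = ∅` every nonconstant curve would have `y z i = 0` for all `i`, contradiction to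
`IsHol.ne_zero`. -/
theorem hypCU_of_ptdU {n c : ℕ} {d : Fin c → ℕ} (hd : ∀ j, 1 ≤ d j) (h : PtdU (n + n) d) :
    HypCU (n + c) c d := by
  classical
  intro M s hcM hM
  by_cases hcase : 2 * (n + c) < M + s
  · refine ⟨⊤, fun S _ => ⟨1, Submodule.mem_top, one_ne_zero, Subalgebra.one_mem _⟩, fun F _ _ => ⟨∅, ?_, ?_, ?_⟩⟩
    · rintro G ⟨⟩
    · intro r hr
      omega
    · intro y _ _ _ G hG
      exact absurd hG (Set.notMem_empty G)
  · obtain ⟨k, rfl⟩ := Nat.exists_eq_add_of_le' hcM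
    obtain ⟨r₀, hr₀⟩ : ∃ r₀, 2 * (n + c) = r₀ + (k + c + s) := ⟨2 * (n + c) - (k + c + s), by omega⟩
    obtain ⟨h', hh⟩ : ∃ h', n + n = k + h' := ⟨n + n - k, by omega⟩
    rw [hh] at h
    have hrs : r₀ + s ≤ h' + c := by omega
    have hS : ∀ S : Finset (Fin (k + c + 1)), ∃ I : Ideal (MvPolynomial (IT (Fin (k + c + 1)) d) ℂ),
        S ∈ (Finset.univ.filter fun S : Finset (Fin (k + c + 1)) => S.Nonempty ∧ Sᶜ.card ≤ r₀) →
        CodimGt I s ∧ ∀ F : Fin c → MvPolynomial (Fin (k + c + 1)) ℂ, (∀ j, (F j).IsHomogeneous (d j)) →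
        (∃ Θ ∈ I, eval (cfT d F) Θ ≠ 0) →
        ∃ G : MvPolynomial (Fin (k + c + 1)) ℂ, G ≠ 0 ∧ (∃ e, G.IsHomogeneous e) ∧
          G ∈ supported ℂ (S : Set (Fin (k + c + 1))) ∧ VanU F {G} := by
      intro S
      by_cases hS : S.Nonempty ∧ Sᶜ.card ≤ r₀
      · obtain ⟨I, hI⟩ := sForm_of_ptdU hd h hrs hS.1 hS.2
        exact ⟨I, fun _ => hI⟩
      · exact ⟨⊤, fun h' => absurd (Finset.mem_filter.mp h').2 hS⟩
    choose I hI using hS
    obtain ⟨hcod, hev⟩ := codimGt_prod (Finset.univ.filter fun S : Finset (Fin (k + c + 1)) => S.Nonempty ∧ Sᶜ.card ≤ r₀)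
      I (fun S hS => (hI S hS).1)
    refine ⟨_, hcod, fun F hF hΘ => ?_⟩
    have key : ∀ S : Finset (Fin (k + c + 1)), S.Nonempty → Sᶜ.card ≤ r₀ →
        ∃ G : MvPolynomial (Fin (k + c + 1)) ℂ, G ≠ 0 ∧ (∃ e, G.IsHomogeneous e) ∧
          G ∈ supported ℂ (S : Set (Fin (k + c + 1))) ∧ VanU F {G} := fun S h1 h2 =>
      (hI S (Finset.mem_filter.mpr ⟨Finset.mem_univ _, h1, h2⟩)).2 F hF
        (hev _ hΘ S (Finset.mem_filter.mpr ⟨Finset.mem_univ _, h1, h2⟩))
    refine ⟨{G | (∃ e, G.IsHomogeneous e) ∧ VanU F {G}}, fun G hG => hG.1, ?_, ?_⟩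
    · intro r hr S hSr
      have hr' : Sᶜ.card ≤ r₀ := by omega
      rcases S.eq_empty_or_nonempty with rfl | hne
      · rw [Finset.compl_empty, Finset.card_univ, Fintype.card_fin] at hr'
        refine ⟨1, Ideal.subset_span ⟨⟨0, isHomogeneous_one _ _⟩, ?_⟩, one_ne_zero, Subalgebra.one_mem _⟩
        intro y hy hF0 hn G hG z
        exfalso
        apply hy.ne_zero z
        funext i
        obtain ⟨G', h0, ⟨e, he⟩, hs, hv⟩ := key {i} (Finset.singleton_nonempty i) (by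
          rw [Finset.card_compl, Fintype.card_fin, Finset.card_singleton]
          omega)
        refine cg6_form h0 he hs (y z) ?_
        exact (congrArg (fun φ : MvPolynomial (Fin (k + c + 1)) ℂ →+* ℂ => φ G') (coe_aeval_eq_eval (y z))).trans
          (hv y hy hF0 hn G' rfl z)
      · obtain ⟨G', h0, he, hs, hv⟩ := key S hne hr'
        exact ⟨G', Ideal.subset_span ⟨he, hv⟩, h0, hs⟩
    · intro y hy hF0 hn G hG z
      exact hG.2 y hy hF0 hn G rfl z

end Pool.Agent.H24C
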