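import Pool.Agent.Lib.H24C.F1
import Pool.Agent.Lib.H24C.U6
import Pool.Agent.Lib.H78Y.A0
import Pool.Agent.Lib.H78W.X8

set_option autoImplicit false

/-!
H24C, final assembly: the bounds for `m = 1`.
-/

open MvPolynomial

namespace Pool.Agent.H24C

open Pool.Agent.H89T Pool.Agent.H67T Pool.Agent.H53U Pool.Agent.H24V Pool.Agent.H78W Pool.Agent.H78Y

theorem trCU : Tr 1 (fun n _ d => PtdU n d) (fun N c d => HypCU N c d) where
  algK := by
    rintro n k q c d hn hk hd ⟨M, s, hs, hmain⟩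
    rw [one_mul] at hs
    exact H53V.ptdU_of_algK hn hk hd ⟨M, s, hs, hmain⟩
  algKW := by
    rintro n k q c d hn hk hd ⟨M, s, hs, hmain⟩ hreg
    rw [one_mul] at hs
    exact ptdU_of_algKW hn hk hd ⟨M, s, hs, hmain⟩ hreg
  ry := fun _ hd h => hypCU_of_ptdU hd h
  sub := fun e he h => hypCU_of_sub e he h

/-- All the bounds for `m = 1`, `L = 6 + log n`. -/
theorem spec_bounds_one {n c : ℕ} (hn : 1 ≤ n) {d : Fin c → ℕ} (hd : ∀ j, 2 ≤ d j)
    (h : 90000 * (n : ℝ) ^ 2 * (6 + Real.log n) ^ 4 ≤ ∑ j, ((d j : ℝ) - 1) ∨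
      (6000 * (n : ℝ) ^ 2 * (6 + Real.log n) ^ 2 ≤ ∑ j, ((d j : ℝ) - 1) ∧
        4 * (n : ℝ) + 8 * n * (6 + Real.log n) < 2 * (c : ℝ))) :
    SpecSym2 1 (n + c) c d := by
  refine specSym2_one (boundsB trCU le_rfl hn hd ?_)
  have e1 : (6 + (Real.log n + Real.log ((1 : ℕ) : ℝ) / (3 * n)) : ℝ) = 6 + Real.log n := by
    rw [Nat.cast_one, Real.log_one, zero_div, add_zero]
  rw [e1]
  simp only [Nat.cast_one, mul_one]
  rcases h with h | h
  · exact Or.inr (Or.inl h)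
  · exact Or.inr (Or.inr (Or.inl h))

end Pool.Agent.H24C
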