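import Pool.Agent.Lib.H24C.D0
import Pool.Agent.Lib.H53U.R3

set_option autoImplicit false

/-!
CHUNK G1 (M).  The greedy choice and the generic extension with at most `n + c` generators.
-/

open MvPolynomial

namespace Pool.Agent.H24C

open Pool.Agent.H89T Pool.Agent.H67T Pool.Agent.H53U

variable {K : Type} [Field K] [Algebra ℂ K] {m n c : ℕ} {d : Fin c → ℕ}

theorem g1_greedy_fin (hd : ∀ j, 1 ≤ d j)
    {g : Fin c → MvPolynomial (Fin (m + 1)) K} (hg : ∀ j, (g j).IsHomogeneous (d j))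
    (hg0 : ∀ j, coeff (Finsupp.single 0 (d j)) (g j) = 0)
    (p : Fin (n + c) → Fin c → MvPolynomial (Fin (m + 1)) K) (hp : ∀ b j, (p b j).IsHomogeneous (d j))
    (hD : ∀ h : Fin c → MvPolynomial (Fin (m + 1)) K, (∀ j, (h j).IsHomogeneous (d j)) →
      ∃ (D : Derivation ℂ K K) (μ : Fin (n + c) → K), ∀ j,
        h j = mcf D (g j) + ∑ b, C (μ b) * p b j) :
    ∃ w : Fin n → Fin c → MvPolynomial (Fin (m + 1)) K,
      (∀ i j, (w i j).IsHomogeneous (d j - 1)) ∧ Spans d g w := by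
  classical
  -- the functionals
  obtain ⟨φ, hφ⟩ : ∃ φ : Fin c → (r1bH K m d) →ₗ[K] K, ∀ j f, φ j f = coeff (Finsupp.single 0 (d j)) (f.1 j) :=
    ⟨fun j => { toFun := fun f => coeff (Finsupp.single 0 (d j)) (f.1 j)
                map_add' := fun f f' => by
                  rw [Submodule.coe_add, Pi.add_apply, coeff_add]
                map_smul' := fun a f => by
                  rw [Submodule.coe_smul, Pi.smul_apply, coeff_smul, RingHom.id_apply] }, fun j f => rfl⟩
  have hgT : ∀ f ∈ r1bT g, f ∈ r1bV K m d := by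
    rintro f ⟨D, hD'⟩ j
    refine ⟨?_, ?_⟩
    · rw [hD' j]
      exact mcf_homogeneous D (hg j)
    · rw [hD' j, coeff_mcf, hg0 j, map_zero]
  have hstep1 := codim_count (m := n + c) rfl ((r1bT g).comap (r1bH K m d).subtype)
    (fun b => (⟨p b, hp b⟩ : r1bH K m d)) (by
      rw [eq_top_iff]
      rintro f -
      obtain ⟨D, μ, h⟩ := hD f.1 f.2
      have h1 : f = (⟨fun j => mcf D (g j), fun j => mcf_homogeneous D (hg j)⟩ : r1bH K m d) +
          ∑ b, μ b • (⟨p b, hp b⟩ : r1bH K m d) := by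
        apply Subtype.ext
        rw [Submodule.coe_add, Submodule.coe_sum]
        funext j
        rw [Pi.add_apply, Finset.sum_apply, h j]
        congr 1
        refine Finset.sum_congr rfl fun i _ => ?_
        rw [Submodule.coe_smul, Pi.smul_apply, smul_eq_C_mul]
      rw [h1]
      refine r1b_sup' (T := (r1bT g).comap (r1bH K m d).subtype) ?_ μ
      exact ⟨D, fun j => rfl⟩) φ
    (by
      intro j x hx
      rw [hφ]
      exact (hgT x.1 hx j).2)
    (fun k => (⟨Pi.single k (monomial (Finsupp.single 0 (d k)) 1), fun j => by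
      by_cases hj : j = k
      · subst hj
        rw [Pi.single_eq_same]
        exact isHomogeneous_monomial _ (Finsupp.degree_single _ _)
      · rw [Pi.single_eq_of_ne hj]
        exact isHomogeneous_zero _ _ _⟩ : r1bH K m d))
    (by
      intro j k
      rw [hφ]
      by_cases hj : j = k
      · subst hj
        rw [if_pos rfl]
        show coeff _ ((Pi.single j (monomial (Finsupp.single 0 (d j)) (1 : K)) :
          Fin c → MvPolynomial (Fin (m + 1)) K) j) = 1
        rw [Pi.single_eq_same, coeff_monomial, if_pos rfl]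
      · rw [if_neg hj]
        show coeff _ ((Pi.single k (monomial (Finsupp.single 0 (d k)) (1 : K)) :
          Fin c → MvPolynomial (Fin (m + 1)) K) j) = 0
        rw [Pi.single_eq_of_ne hj, coeff_zero])
  obtain ⟨p', hp'0, hp'⟩ := hstep1
  have hp'V : ∀ i, (p' i).1 ∈ r1bV K m d := fun i j => ⟨(p' i).2 j, by
    have h := hp'0 i j
    rwa [hφ] at h⟩
  obtain ⟨β, hβ⟩ : ∃ β : Fin m → (r1bH K m fun j => d j - 1) → (r1bV K m d), ∀ b w j, (β b w).1 j = X b.succ * w.1 j :=
    ⟨fun b w => ⟨fun j => X b.succ * w.1 j, fun j => r1b_X_mul (e := d j - 1) (by have := hd j; omega) (w.2 j) b⟩, fun b w j => rfl⟩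
  obtain ⟨w, hw⟩ := greedy (K := K) (V := r1bV K m d) (W := r1bH K m fun j => d j - 1) (B := Fin m)
    β ((r1bT g).comap (r1bV K m d).subtype) (fun i => ⟨(p' i).1, hp'V i⟩) (by
      rw [eq_top_iff]
      rintro f -
      have h1 := hp' ⟨f.1, fun j => (f.2 j).1⟩ (fun j => by rw [hφ]; exact (f.2 j).2)
      obtain ⟨t, ht, μ, h2⟩ := r1b_sup h1
      have h3 : f = (⟨t.1, hgT t.1 ht⟩ : r1bV K m d) + ∑ i, μ i • (⟨(p' i).1, hp'V i⟩ : r1bV K m d) := by
        apply Subtype.ext
        have h4 := congrArg Subtype.val h2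
        rw [Submodule.coe_add, Submodule.coe_sum] at h4 ⊢
        exact h4
      rw [h3]
      exact r1b_sup' (T := (r1bT g).comap (r1bV K m d).subtype) ht μ)
    (by
      intro T' hTT' hT'
      rw [eq_top_iff]
      rintro f -
      have h1 : f.1 ∈ T'.map (r1bV K m d).subtype := by
        refine r1b_full (d := d) _ (fun b w hw => ?_) f.2
        exact ⟨β b ⟨w, hw⟩, hT' b ⟨w, hw⟩, funext fun j => hβ b ⟨w, hw⟩ j⟩
      obtain ⟨f', hf', hff'⟩ := h1
      have h2 : f' = f := Subtype.ext hff'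
      rwa [h2] at hf')
  refine ⟨fun i => (w i).1, fun i => (w i).2, fun f hf hf0 => ?_⟩
  have h1 : (⟨f, fun j => ⟨hf j, hf0 j⟩⟩ : r1bV K m d) ∈ (r1bT g).comap (r1bV K m d).subtype ⊔
      Submodule.span K (Set.range fun x : Fin m × Fin n => β x.1 (w x.2)) := by
    rw [hw]
    trivial
  obtain ⟨t, ⟨D, ht⟩, v, hv, htv⟩ := Submodule.mem_sup.1 h1
  obtain ⟨ν, hν⟩ := (Submodule.mem_span_range_iff_exists_fun K).1 hv
  refine ⟨D, fun i b => ν (b, i), fun j => ?_⟩
  have h2 := congrFun (congrArg Subtype.val htv) j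
  rw [Submodule.coe_add, ← hν, Submodule.coe_sum, Pi.add_apply, Finset.sum_apply] at h2
  have h3 : (t : Fin c → MvPolynomial (Fin (m + 1)) K) j = mcf D (g j) := ht j
  rw [h3] at h2
  refine h2.symm.trans ?_
  congr 1
  rw [Fintype.sum_prod_type, Finset.sum_comm]
  refine Finset.sum_congr rfl fun i _ => ?_
  rw [Finset.sum_mul]
  refine Finset.sum_congr rfl fun b _ => ?_
  rw [Submodule.coe_smul, Pi.smul_apply, hβ, smul_eq_C_mul]
  ring

/-- The proof of `greedy_tuples` (H53U/R1B.lean): there the `p b` are indexed by `b : Fin m`, `m = n + c`, which is at the same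
time the number of the affine variables; here the index set `β` has at most `n + c` elements (first replace `p` by a family indexed by
`Fin (n + c)`: an injection `β → Fin (n + c)`, `0` at the other indices; then `codim_count` (H53U/R1.lean) with `m := n + c` and the rest of the
proof is the same). -/
theorem greedy_tuplesG (hd : ∀ j, 1 ≤ d j) {β : Type} [Fintype β] (hβ : Fintype.card β ≤ n + c)
    {g : Fin c → MvPolynomial (Fin (m + 1)) K} (hg : ∀ j, (g j).IsHomogeneous (d j))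
    (hg0 : ∀ j, coeff (Finsupp.single 0 (d j)) (g j) = 0)
    (p : β → Fin c → MvPolynomial (Fin (m + 1)) K) (hp : ∀ b j, (p b j).IsHomogeneous (d j))
    (hD : ∀ h : Fin c → MvPolynomial (Fin (m + 1)) K, (∀ j, (h j).IsHomogeneous (d j)) →
      ∃ (D : Derivation ℂ K K) (μ : β → K), ∀ j,
        h j = mcf D (g j) + ∑ b, C (μ b) * p b j) :
    ∃ w : Fin n → Fin c → MvPolynomial (Fin (m + 1)) K,
      (∀ i j, (w i j).IsHomogeneous (d j - 1)) ∧ Spans d g w := by
  classical
  obtain ⟨e, he⟩ : ∃ e : β → Fin (n + c), Function.Injective e := by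
    obtain ⟨e⟩ := Function.Embedding.nonempty_of_card_le (α := β) (β := Fin (n + c))
      (by rw [Fintype.card_fin]; exact hβ)
    exact ⟨e, e.injective⟩
  refine g1_greedy_fin hd hg hg0 (Function.extend e p 0) (fun i j => ?_) fun h hh => ?_
  · by_cases hi : ∃ b, e b = i
    · obtain ⟨b, rfl⟩ := hi
      rw [he.extend_apply]
      exact hp b j
    · rw [Function.extend_apply' _ _ _ hi]
      exact isHomogeneous_zero _ _ _
  · obtain ⟨D, μ, hDμ⟩ := hD h hh
    refine ⟨D, Function.extend e μ 0, fun j => ?_⟩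
    rw [hDμ j]
    congr 1
    refine Fintype.sum_of_injective e he _ _ (fun i hi => ?_) fun b => ?_
    · rw [Function.extend_apply' _ _ _ hi, Pi.zero_apply, C_0, zero_mul]
    · rw [he.extend_apply, he.extend_apply]

/-- The proof of `alg1T` (H53U/R3.lean) with `greedy_tuplesG`. -/
theorem alg1G (hd : ∀ j, 1 ≤ d j) {β : Type} [Fintype β] (hβ : Fintype.card β ≤ n + c)
    {g : Fin c → MvPolynomial (Fin (m + 1)) K} (hg : ∀ j, (g j).IsHomogeneous (d j))
    (hg0 : ∀ j, coeff (Finsupp.single 0 (d j)) (g j) = 0)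
    (p : β → Fin c → MvPolynomial (Fin (m + 1)) K) (hp : ∀ b j, (p b j).IsHomogeneous (d j))
    (hD : ∀ h : Fin c → MvPolynomial (Fin (m + 1)) K, (∀ j, (h j).IsHomogeneous (d j)) →
      ∃ (D : Derivation ℂ K K) (μ : β → K), ∀ j,
        h j = mcf D (g j) + ∑ b, C (μ b) * p b j)
    {Θ : MvPolynomial (I0 m n d) ℂ} (hΘ : Θ ≠ 0) :
    ∃ ψ : Fin c → MvPolynomial (Fin (m + 1) ⊕ Fin n) ℂ, IsExtT n d ψ ∧
      cv0 Θ (bigT K ψ g) ≠ 0 := by
  classical
  obtain ⟨w, hw, hspan⟩ := greedy_tuplesG hd hβ hg hg0 p hp hD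
  obtain ⟨P, hP⟩ : ∃ P : MvPolynomial (PVT m n d) K, P = aeval (fun p : I0 m n d =>
      coeff (p.1.2 : (Fin (m + 1) ⊕ Fin n) →₀ ℕ) (genG n d g p.1.1)) Θ := ⟨_, rfl⟩
  have hP0 : P ≠ 0 := fun h => hΘ (genG_independent hd hg hw hspan Θ (hP.symm.trans h))
  obtain ⟨θ, hθ⟩ : ∃ θ : PVT m n d → ℂ, eval (fun i => algebraMap ℂ K (θ i)) P ≠ 0 := by
    by_contra hcon
    push Not at hcon
    apply hP0
    refine funext_set (fun _ => Set.range (algebraMap ℂ K))
      (fun _ => Set.infinite_range_of_injective (algebraMap ℂ K).injective) fun x hx => ?_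
    choose θ hθ using fun i => hx i trivial
    rw [← funext hθ, map_zero]
    exact hcon θ
  obtain ⟨ψ, hψ⟩ : ∃ ψ : Fin c → MvPolynomial (Fin (m + 1) ⊕ Fin n) ℂ, ∀ j, ψ j = ∑ i : Fin n, (X (Sum.inr i) +
      ∑ b : Fin m, C (θ (Sum.inl (i, b))) * X (Sum.inl b.succ)) *
        fm fun δ : Ex (Fin (m + 1) ⊕ Fin n) (d j - 1) => θ (Sum.inr (i, ⟨j, δ⟩)) := ⟨_, fun j => rfl⟩
  refine ⟨ψ, ⟨fun i b => θ (Sum.inl (i, b)), fun i j => fm fun δ => θ (Sum.inr (i, ⟨j, δ⟩)),
    fun i j => fm_homogeneous _, hψ⟩, ?_⟩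
  obtain ⟨ρ, hρ⟩ : ∃ ρ : MvPolynomial (PVT m n d) K →+* K, ρ = eval fun i => algebraMap ℂ K (θ i) := ⟨_, rfl⟩
  have hev : ρ.comp (C : K →+* MvPolynomial (PVT m n d) K) = RingHom.id K := by
    ext x
    rw [RingHom.comp_apply, hρ, eval_C, RingHom.id_apply]
  have h2 : ∀ j, map ρ (genG n d g j) = bigT K ψ g j := by
    intro j
    rw [genG, bigT, hψ]
    simp only [map_mul, map_add, map_sum, map_C, map_X, map_rename, map_map, hev, map_id, map_fm]
    simp [hρ]
  have h3 : cv0 Θ (bigT K ψ g) = ρ P := by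
    rw [hP, cv0, aeval_def, aeval_def, hom_eval₂]
    have h4 : ρ.comp (algebraMap ℂ (MvPolynomial (PVT m n d) K)) = algebraMap ℂ K := by
      ext x
      rw [RingHom.comp_apply, IsScalarTower.algebraMap_apply ℂ K (MvPolynomial (PVT m n d) K),
        MvPolynomial.algebraMap_eq, hρ, eval_C]
    rw [h4]
    have h5 : (fun p : I0 m n d => coeff (p.1.2 : (Fin (m + 1) ⊕ Fin n) →₀ ℕ) (bigT K ψ g p.1.1)) =
        ρ ∘ (fun p : I0 m n d => coeff (p.1.2 : (Fin (m + 1) ⊕ Fin n) →₀ ℕ) (genG n d g p.1.1)) := by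
      funext p
      rw [← h2, coeff_map]
      rfl
    rw [h5]
    rfl
  rw [h3, hρ]
  exact hθ

end Pool.Agent.H24C
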