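import Pool.Agent.Lib.H24C.G8
import Pool.Agent.Lib.H24C.G9A
import Pool.Agent.Lib.H24C.G9B

set_option autoImplicit false

/-!
CHUNK G10 (S/M).  From the main property to symmetric powers.
-/

open MvPolynomial

namespace Pool.Agent.H24C

open Pool.Agent.H89T Pool.Agent.H67T Pool.Agent.H53U Pool.Agent.H24V

private theorem g10_eval_lf {n : ℕ} (v x : Fin n → ℂ) : eval v (lf x) = linc v x := by
  unfold lf linc
  rw [map_sum]
  refine Finset.sum_congr rfl fun a _ => ?_
  rw [map_mul, eval_C, eval_X, smul_eq_mul, mul_comm]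

private theorem g10_eval_smul {n e : ℕ} {G : MvPolynomial (Fin n) ℂ} (hG : G.IsHomogeneous e)
    (t : ℂ) (x : Fin n → ℂ) : eval (t • x) G = t ^ e * eval x G := by
  rw [eval_eq', eval_eq', Finset.mul_sum]
  refine Finset.sum_congr rfl fun α hα => ?_
  have h1 : ∑ i, α i = e := by
    have h2 := hG (mem_support_iff.1 hα)
    rw [← h2, Finsupp.weight_apply, Finsupp.sum_fintype]
    · simp
    · simp
  have h3 : ∏ i, (t • x) i ^ α i = t ^ e * ∏ i, x i ^ α i := by
    rw [← h1, ← Finset.prod_pow_eq_pow_sum, ← Finset.prod_mul_distrib]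
    refine Finset.prod_congr rfl fun i _ => ?_
    rw [Pi.smul_apply, smul_eq_mul, mul_pow]
  rw [h3]
  ring

/-- `T' = T ∪ {F j}`: the forms of `T'` vanish at the nonconstant points (`VanL B F T'`).  The heights: `lt_height_of_codimGt` with `r = 2 N - M - s` (if `2 N < M + s` trivial), and
the height is monotone.  The curve: `SymCurve.prod` at `z` gives `p i`; `sym_gen`, `sym_all` give `p' ≠ 0`, and `∏ i, linc v (p i) = eval v (H z)` (`eval_lf`, H24V/C9.lean; or prove it) vanishes if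
`linc v p' = 0`; `exists_prop`: `p i = t • p'`, so `eval (p i) G = t ^ e * eval p' G = 0`. -/
theorem specSym_of_hypC {m N c : ℕ} {d : Fin c → ℕ} (h : HypC (4 * m - 3) N c d) :
    SpecSym m N c d := by
  intro M s hcM hMN
  obtain ⟨I, hI, hIF⟩ := h M s hcM hMN
  refine ⟨I, lt_height_of_codimGt hI, fun F hF hΘ => ?_⟩
  obtain ⟨T, hTh, hTc, hTv⟩ := hIF F hF hΘ
  have hTh' : ∀ G ∈ T ∪ Set.range F, ∃ e, G.IsHomogeneous e := by
    rintro G (hG | ⟨j, rfl⟩)
    · exact hTh G hG
    · exact ⟨d j, hF j⟩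
  have hTv' : VanL (4 * m - 3) F (T ∪ Set.range F) := by
    intro L _ _ D hL y hy hyc G hG
    rcases hG with hG | ⟨j, rfl⟩
    · exact hTv L D hL y hy hyc G hG
    · exact hy j
  refine ⟨T ∪ Set.range F, hTh', fun j => Or.inr ⟨j, rfl⟩, ?_, ?_⟩
  · rcases le_or_gt (M + s) (2 * N) with hle | hlt
    · obtain ⟨r, hr⟩ := Nat.exists_eq_add_of_le hle
      have h1 : (r : ℕ∞) < (Ideal.span T).height := lt_height_of_codimGt (hTc r (by omega))
      have h2 : (Ideal.span T).height ≤ (Ideal.span (T ∪ Set.range F)).height :=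
        Ideal.height_mono (Ideal.span_mono Set.subset_union_left)
      have h3 : (r : ℕ∞) < (Ideal.span (T ∪ Set.range F)).height := lt_of_lt_of_le h1 h2
      have h4 : ((2 * N : ℕ) : ℕ∞) = (r : ℕ∞) + ((M + s : ℕ) : ℕ∞) := by
        rw [hr]
        push_cast
        ring
      rw [h4]
      exact (ENat.add_lt_add_iff_right (ENat.natCast_ne_top _)).2 h3
    · have h1 : ((2 * N : ℕ) : ℕ∞) < ((M + s : ℕ) : ℕ∞) := by exact_mod_cast hlt
      exact lt_of_lt_of_le h1 le_add_self
  · intro H hH hne z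
    obtain ⟨p', hp0, hpT, hpv⟩ := sym_all hTh' hH (sym_gen hF hTv' hH hne) z
    obtain ⟨p, hp, hpF, hpH⟩ := hH.prod z
    obtain ⟨i, t, hit⟩ := exists_prop hp (p := p') fun v hv => by
      have h1 := hpv v hv
      rw [hpH, map_prod] at h1
      rw [← h1]
      exact Finset.prod_congr rfl fun i _ => (g10_eval_lf v (p i)).symm
    refine ⟨p, hp, hpH, hpF, i, fun G hG => ?_⟩
    obtain ⟨e, he⟩ := hTh' G hG
    rw [hit, g10_eval_smul he, hpT G hG, mul_zero]

end Pool.Agent.H24C
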