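import Mathlib

set_option autoImplicit false

/-!
H24C: a set of forms whose ideal has height greater than the dimension of the projective space has no zero.
-/

open MvPolynomial

namespace Pool.Agent.H24C

/-- The homomorphism to the functions on the line through `p`. -/
theorem g11_line {M : ℕ} {T : Set (MvPolynomial (Fin (M + 1)) ℂ)}
    (hT : ∀ G ∈ T, ∃ e, G.IsHomogeneous e) {p : Fin (M + 1) → ℂ} (hp : ∀ G ∈ T, eval p G = 0) :
    Ideal.span T ≤ RingHom.ker (aeval (fun i => Polynomial.C (p i) * Polynomial.X) :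
      MvPolynomial (Fin (M + 1)) ℂ →ₐ[ℂ] Polynomial ℂ) := by
  classical
  rw [Ideal.span_le]
  intro G hG
  obtain ⟨e, he⟩ := hT G hG
  show (aeval fun i => Polynomial.C (p i) * Polynomial.X) G = 0
  have h1 : (aeval (fun i => Polynomial.C (p i) * Polynomial.X) : MvPolynomial (Fin (M + 1)) ℂ →ₐ[ℂ] Polynomial ℂ) G =
      Polynomial.C (eval p G) * Polynomial.X ^ e := by
    rw [aeval_def, eval₂_eq', eval_eq', map_sum, Finset.sum_mul]
    refine Finset.sum_congr rfl fun α hα => ?_
    have h2 : ∑ i, α i = e := by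
      have h3 := he (mem_support_iff.1 hα)
      rw [Finsupp.weight_apply, Finsupp.sum_fintype _ _ (fun _ => by simp)] at h3
      simpa using h3
    simp only [mul_pow, Finset.prod_mul_distrib, Finset.prod_pow_eq_pow_sum, h2, map_mul, map_prod,
      map_pow]
    rw [mul_assoc]
    rfl
  rw [h1, hp G hG, map_zero, zero_mul]

/-- The ideal of the origin. -/
theorem g11_max {M : ℕ} {p : Fin (M + 1) → ℂ} (hp0 : p ≠ 0) :
    RingHom.ker (aeval (fun i => Polynomial.C (p i) * Polynomial.X) :
      MvPolynomial (Fin (M + 1)) ℂ →ₐ[ℂ] Polynomial ℂ) <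
    RingHom.ker (eval (0 : Fin (M + 1) → ℂ)) := by
  obtain ⟨i, hi⟩ : ∃ i, p i ≠ 0 := by
    by_contra hcon
    push Not at hcon
    exact hp0 (_root_.funext hcon)
  refine lt_of_le_of_ne (fun G hG => ?_) fun h => ?_
  · rw [RingHom.mem_ker] at hG ⊢
    have h1 := congrArg (Polynomial.eval 0) hG
    have h2 : ∀ G : MvPolynomial (Fin (M + 1)) ℂ, Polynomial.eval 0
        ((aeval fun i => Polynomial.C (p i) * Polynomial.X) G) = eval (0 : Fin (M + 1) → ℂ) G := by
      intro G
      induction G using MvPolynomial.induction_on with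
      | C a => simp
      | add p q hp hq => rw [map_add, Polynomial.eval_add, hp, hq, map_add]
      | mul_X p i hp => rw [map_mul, Polynomial.eval_mul, hp, map_mul, aeval_X, eval_X]; simp
    rw [← h2]
    simpa using h1
  · have h1 : (X i : MvPolynomial (Fin (M + 1)) ℂ) ∈ RingHom.ker (eval (0 : Fin (M + 1) → ℂ)) := by
      rw [RingHom.mem_ker, eval_X]
      rfl
    rw [← h, RingHom.mem_ker] at h1
    have h2 : (aeval fun i => Polynomial.C (p i) * Polynomial.X) (X i : MvPolynomial (Fin (M + 1)) ℂ) =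
        Polynomial.C (p i) * Polynomial.X := aeval_X _ _
    have h3 := congrArg (fun q : Polynomial ℂ => q.coeff 1) (h2.symm.trans h1)
    simp at h3
    exact hi h3

/-- A set of forms whose ideal has height greater than the dimension of the projective space has no zero. -/
theorem no_zero_of_height {M : ℕ} {T : Set (MvPolynomial (Fin (M + 1)) ℂ)}
    (hT : ∀ G ∈ T, ∃ e, G.IsHomogeneous e) (hh : (M : ℕ∞) < (Ideal.span T).height)
    {p : Fin (M + 1) → ℂ} (hp : ∀ G ∈ T, eval p G = 0) : p = 0 := by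
  by_contra hp0
  have h1 := g11_line hT hp
  have h2 := g11_max hp0
  have hP1 : (RingHom.ker (aeval (fun i => Polynomial.C (p i) * Polynomial.X) :
      MvPolynomial (Fin (M + 1)) ℂ →ₐ[ℂ] Polynomial ℂ)).IsPrime := RingHom.ker_isPrime _
  have hP2 : (RingHom.ker (eval (0 : Fin (M + 1) → ℂ))).IsPrime := RingHom.ker_isPrime _
  have h3 : (RingHom.ker (eval (0 : Fin (M + 1) → ℂ))).height ≤ ((M + 1 : ℕ) : ℕ∞) := by
    have h4 := Ideal.height_le_ringKrullDim_of_isPrime (I := RingHom.ker (eval (0 : Fin (M + 1) → ℂ)))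
    rw [MvPolynomial.ringKrullDim_of_isNoetherianRing, ringKrullDim_eq_zero_of_field] at h4
    simp only [Nat.card_eq_fintype_card, Fintype.card_fin, zero_add] at h4
    exact_mod_cast h4
  have h5 := Ideal.height_add_one_le_of_lt_of_isPrime h2
  have h6 := Ideal.height_mono h1
  have h7 : (Ideal.span T).height + 1 ≤ ((M + 1 : ℕ) : ℕ∞) :=
    (add_le_add_left h6 1).trans (h5.trans h3)
  have h8 : ((M + 1 : ℕ) : ℕ∞) < (Ideal.span T).height + 1 := by
    push_cast
    exact (ENat.add_lt_add_iff_right ENat.one_ne_top).2 hh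
  exact absurd h7 (not_le.2 h8)

end Pool.Agent.H24C
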