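import Pool.Agent.Lib.H24C.G4A
import Pool.Agent.Lib.H24V.R3

set_option autoImplicit false

/-!
CHUNK G4B (S/M).  The extended point (port of H24V/R3.lean).
-/

open MvPolynomial

namespace Pool.Agent.H24C

open Pool.Agent.H89T Pool.Agent.H67T Pool.Agent.H53U Pool.Agent.H24V

/-- The proof of `exists_ptL` (H24V/R3.lean), with `k + h`, `eqvH` for `n + n`, `eqvT`. -/
theorem exists_ptH {k h c : ℕ} {d : Fin c → ℕ}
    {F : Fin c → MvPolynomial (Fin (k + c + 1)) ℂ} {L : Type} [Field L] [Algebra ℂ L]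
    {D : Derivation ℂ L L} (p : Place L D) {f : Fin (k + c) → L} (hfO : ∀ b, f b ∈ p.O)
    (hf : ∀ j, aeval (pt f) (F j) = 0) {ψ : Fin c → MvPolynomial (Fin (k + c + 1) ⊕ Fin h) ℂ}
    (hψ : IsExtT h d ψ) {b : Fin (k + c)} (hb : p.val (D (f b)) ≠ 0) :
    ∃ f' : Fin (k + h + c) → L, (∀ i, f' i ∈ p.O) ∧ (∀ i, p.val (f' i) = 0) ∧
      (∀ j, aeval (pt f') (rename (eqvH k h c)
        (bigT ℂ ψ (fun j => shear (fun b => p.val (f b)) (F j)) j)) = 0) ∧
      ∃ i, p.val (D (f' i)) ≠ 0 := by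
  classical
  obtain ⟨s, E, hE, hψE⟩ := hψ
  obtain ⟨e, he⟩ : ∃ e, e = eqvH k h c := ⟨_, rfl⟩
  rw [← he]
  obtain ⟨a, ha⟩ : ∃ a : Fin (k + c) → ℂ, ∀ b, a b = p.val (f b) := ⟨_, fun _ => rfl⟩
  have ha' : (fun b => p.val (f b)) = a := _root_.funext fun b => (ha b).symm
  rw [ha']
  obtain ⟨g, hg⟩ : ∃ g : Fin (k + c) → L, ∀ b, g b = f b - algebraMap ℂ L (a b) := ⟨_, fun _ => rfl⟩
  have hgO : ∀ b, g b ∈ p.O := fun b => by
    rw [hg]
    exact sub_mem (hfO b) (p.O.algebraMap_mem _)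
  have hg0 : ∀ b, p.val (g b) = 0 := fun b => by
    rw [hg, p.val_sub (hfO b) (p.O.algebraMap_mem _), p.val_algebraMap, ha, sub_self]
  obtain ⟨Yν, hYν⟩ : ∃ Yν : Fin (k + c + 1) ⊕ Fin h → L, Yν =
    Sum.elim (pt g) (fun i => - ∑ b : Fin (k + c), algebraMap ℂ L (s i b) * pt g b.succ) := ⟨_, rfl⟩
  obtain ⟨f', hf'⟩ : ∃ f' : Fin (k + h + c) → L, ∀ i, f' i = Yν (e.symm i.succ) := ⟨_, fun _ => rfl⟩
  have hpt' : pt f' = fun j => Yν (e.symm j) := by
    funext j
    refine Fin.cases ?_ (fun i => ?_) j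
    · have h1 : e.symm 0 = Sum.inl 0 := by
        rw [← eqvH_zero k h c, he, Equiv.symm_apply_apply]
      rw [h1, hYν]
      rfl
    · exact hf' i
  have hFx : ∀ j, aeval (pt g) (shear a (F j)) = 0 := by
    intro j
    rw [aeval_shear]
    have h1 : (Fin.cons (pt g 0) (fun b => pt g b.succ + algebraMap ℂ L (a b) * pt g 0) :
        Fin (k + c + 1) → L) = pt f := by
      funext i
      refine Fin.cases ?_ (fun b => ?_) i
      · rfl
      · show g b + algebraMap ℂ L (a b) * 1 = f b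
        rw [hg]
        ring
    rw [h1, hf]
  have hFY : ∀ j, aeval (pt f') (rename e (bigT ℂ ψ (fun j => shear a (F j)) j)) = 0 := by
    intro j
    have h1 : pt f' ∘ e = Yν := by
      funext i
      rw [hpt']
      simp
    rw [aeval_rename, h1, bigT, map_add, aeval_rename, hYν]
    simp only [Sum.elim_comp_inl]
    rw [hFx]
    have h2 : aeval (Sum.elim (pt g) fun i => - ∑ b : Fin (k + c), algebraMap ℂ L (s i b) * pt g b.succ)
        (map (algebraMap ℂ ℂ) (ψ j)) = 0 := by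
      have h3 : map (algebraMap ℂ ℂ) (ψ j) = ψ j := map_id (ψ j)
      rw [h3, hψE j, map_sum]
      refine Finset.sum_eq_zero fun i _ => ?_
      rw [map_mul, map_add, map_sum]
      simp
    rw [h2, add_zero]
  have hYO : ∀ i, Yν i ∈ p.O := by
    intro i
    rw [hYν]
    rcases i with i | i
    · exact p.pt_mem hgO i
    · exact neg_mem (sum_mem fun b _ => mul_mem (p.O.algebraMap_mem _) (p.pt_mem hgO _))
  refine ⟨f', fun i => by rw [hf']; exact hYO _, fun i => ?_, hFY, ?_⟩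
  · rw [hf']
    obtain ⟨l, hl⟩ : ∃ l, e.symm i.succ = l := ⟨_, rfl⟩
    rw [hl, hYν]
    rcases l with l | l
    · rcases Fin.eq_zero_or_eq_succ l with h | ⟨b', h⟩
      · exfalso
        rw [h] at hl
        have h1 : i.succ = e (Sum.inl 0) := by rw [← hl, Equiv.apply_symm_apply]
        rw [he, eqvH_zero] at h1
        exact Fin.succ_ne_zero i h1
      · rw [h]
        exact hg0 b'
    · show p.val (- ∑ b : Fin (k + c), algebraMap ℂ L (s l b) * pt g b.succ) = 0
      rw [p.val_neg (sum_mem fun b _ => mul_mem (p.O.algebraMap_mem _) (p.pt_mem hgO _)),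
        p.val_sum _ fun b _ => mul_mem (p.O.algebraMap_mem _) (p.pt_mem hgO _), Finset.sum_eq_zero, neg_zero]
      intro b _
      rw [p.val_mul (p.O.algebraMap_mem _) (p.pt_mem hgO _)]
      have h1 : p.val (pt g b.succ) = 0 := hg0 b
      rw [h1, mul_zero]
  · have hne : e (Sum.inl b.succ) ≠ 0 := by
      intro h0
      have h1 : e (Sum.inl b.succ) = e (Sum.inl 0) := by
        rw [h0, he, eqvH_zero]
      exact Fin.succ_ne_zero b (Sum.inl_injective (e.injective h1))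
    obtain ⟨i, hi⟩ := Fin.exists_succ_eq.2 hne
    refine ⟨i, ?_⟩
    have h1 : f' i = g b := by
      rw [hf', hi, Equiv.symm_apply_apply, hYν]
      rfl
    rw [h1, hg, map_sub, Derivation.map_algebraMap, sub_zero]
    exact hb

end Pool.Agent.H24C
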