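import Pool.Agent.Lib.H24C.G2
import Pool.Agent.Lib.H24C.G4A
import Pool.Agent.Lib.H24C.G4B

set_option autoImplicit false

/-!
CHUNK G4 (M).  The polynomials of the bad ideal vanish at the nonconstant points (port of H24V/R5.lean).
-/

open MvPolynomial

namespace Pool.Agent.H24C

open Pool.Agent.H89T Pool.Agent.H67T Pool.Agent.H53U Pool.Agent.H24V

/-- `Θ₀` from `exists_theta0H`.  Suppose `z = aeval (Sum.elim (cfT d F) f) G ≠ 0`, `G ∈ badI Θ₀`, `D (f b) ≠ 0`.  Take a place `p` (`Good.gp`)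
with `f b'`, `D (f b)`, `z` in `p.O`, and `p.val (D (f b)) ≠ 0`, `p.val z ≠ 0`; `a b = p.val (f b)`.  Then `p.val z = eval (Sum.elim (cfT d F) a) G` (`Place.val_aeval`,
`Place.val_algebraMap`), so by `badI_eval` (with `f := cfT d F`, `fm (cfT d F ⟨j, .⟩) = F j` by `fm_coeff`) there is `ψ` with `IsExtT h d ψ` and
`cv0 Θ₀ (bigT ℂ ψ (shear a F)) ≠ 0`.  The rest is the proof of `hypL_of_ptdL` (H24V/R5.lean) after `obtain ⟨ψ, hψ, hne⟩`, with `exists_ptH`, `eqvH`. -/
theorem vanish_of_ptd {B k h c : ℕ} {d : Fin c → ℕ} (hd : ∀ j, 1 ≤ d j) (hP : PtdL B (k + h) d) :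
    ∃ Θ₀ : MvPolynomial (I0 (k + c) h d) ℂ, Θ₀ ≠ 0 ∧
      ∀ F : Fin c → MvPolynomial (Fin (k + c + 1)) ℂ, (∀ j, (F j).IsHomogeneous (d j)) →
        ∀ (L : Type) [Field L] [Algebra ℂ L] (D : Derivation ℂ L L), Good B L D →
          ∀ f : Fin (k + c) → L, (∀ j, aeval (pt f) (F j) = 0) → (∃ b, D (f b) ≠ 0) →
            ∀ G ∈ badI Θ₀,
              aeval (Sum.elim (fun p => algebraMap ℂ L (cfT d F p)) f) G = 0 := by
  classical
  obtain ⟨Θ, hΘ, hmain⟩ := hP
  obtain ⟨Θ₀, hΘ₀, hcv⟩ := exists_theta0H hΘ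
  refine ⟨Θ₀, hΘ₀, ?_⟩
  intro F hF L _ _ D hG f hfF' hbex G hGI
  obtain ⟨b, hb⟩ := hbex
  by_contra hz
  obtain ⟨z, hzdef⟩ : ∃ z, z = aeval (Sum.elim (fun p => algebraMap ℂ L (cfT d F p)) f) G :=
    ⟨_, rfl⟩
  rw [← hzdef] at hz
  obtain ⟨p, hp, hp0⟩ := hG.gp (insert z (insert (D (f b)) (Finset.univ.image f)))
  have hfO : ∀ b, f b ∈ p.O := fun b =>
    hp _ (Finset.mem_insert_of_mem (Finset.mem_insert_of_mem
      (Finset.mem_image_of_mem f (Finset.mem_univ b))))
  have hbv : p.val (D (f b)) ≠ 0 :=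
    hp0 _ (Finset.mem_insert_of_mem (Finset.mem_insert_self _ _)) hb
  have hzv : p.val z ≠ 0 := hp0 _ (Finset.mem_insert_self _ _) hz
  set a : Fin (k + c) → ℂ := fun b => p.val (f b) with ha
  have hval : p.val z = eval (Sum.elim (cfT d F) a) G := by
    rw [hzdef, p.val_aeval (g := Sum.elim (fun p => algebraMap ℂ L (cfT d F p)) f) (fun i => by
      rcases i with i | i
      · exact p.O.algebraMap_mem _
      · exact hfO i)]
    have h1 : (fun i => p.val (Sum.elim (fun p => algebraMap ℂ L (cfT d F p)) f i)) =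
        Sum.elim (cfT d F) a := by
      funext i
      rcases i with i | i
      · exact p.val_algebraMap _
      · rfl
    rw [h1]
  have hfF : ∀ j, fm (fun δ : Ex (Fin (k + c + 1)) (d j) => cfT d F ⟨j, δ⟩) = F j :=
    fun j => by
      have h1 : (fun δ : Ex (Fin (k + c + 1)) (d j) => cfT d F ⟨j, δ⟩) =
          fun δ : Ex (Fin (k + c + 1)) (d j) => coeff δ.1 (F j) := rfl
      rw [h1]
      exact fm_coeff (hF j)
  have hFa : ∀ j, eval (Fin.cons 1 a) (F j) = 0 := by
    intro j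
    have h1 := p.val_aeval (fun i => p.pt_mem hfO i) (F j)
    rw [hfF' j, p.val_zero] at h1
    have h2 : (fun i => p.val (pt f i)) = (Fin.cons 1 a : Fin (k + c + 1) → ℂ) := by
      funext i
      exact p.val_pt i
    rw [h2] at h1
    exact h1.symm
  obtain ⟨ψ, hψ, hne⟩ : ∃ ψ : Fin c → MvPolynomial (Fin (k + c + 1) ⊕ Fin h) ℂ, IsExtT h d ψ ∧
      cv0 Θ₀ (bigT ℂ ψ fun j => shear a (F j)) ≠ 0 := by
    by_contra hcon
    push Not at hcon
    apply hzv
    rw [hval]
    refine badI_eval (fun j => ?_) (fun ψ hψ => ?_) G hGI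
    · rw [hfF]
      exact hFa j
    · have h1 : (fun j => shear a (fm fun δ : Ex (Fin (k + c + 1)) (d j) => cfT d F ⟨j, δ⟩)) =
          fun j => shear a (F j) := by
        funext j
        rw [hfF]
      rw [h1]
      exact hcon ψ hψ
  -- the extended forms
  have hψh : ∀ j, (ψ j).IsHomogeneous (d j) := by
    obtain ⟨s, E, hE, hψ⟩ := hψ
    intro j
    rw [hψ]
    refine IsHomogeneous.sum _ _ _ fun i _ => ?_
    have h5 : (X (Sum.inr i) + ∑ b : Fin (k + c), C (s i b) * X (Sum.inl b.succ) :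
        MvPolynomial (Fin (k + c + 1) ⊕ Fin h) ℂ).IsHomogeneous 1 := by
      refine (isHomogeneous_X _ _).add (IsHomogeneous.sum _ _ _ fun b _ => ?_)
      exact (isHomogeneous_C _ _).mul (isHomogeneous_X _ _)
    have h6 := h5.mul (hE i j)
    rwa [Nat.add_sub_cancel' (hd j)] at h6
  have hbig : ∀ j, (bigT ℂ ψ (fun j => shear a (F j)) j).IsHomogeneous (d j) := fun j =>
    ((shear_homogeneous a (hF j)).rename_isHomogeneous
      (f := (Sum.inl : Fin (k + c + 1) → Fin (k + c + 1) ⊕ Fin h))).add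
      ((hψh j).map (algebraMap ℂ ℂ))
  obtain ⟨f', hf'O, hf'0, hYF, i, hi⟩ := exists_ptH p hfO hfF' hψ hbv
  have hU0 : ∀ j, U0 (cfs d fun j => rename (eqvH k h c)
      (bigT ℂ ψ (fun j => shear a (F j)) j)) 0 j = 0 := by
    intro j
    rw [U0_cfs_zero]
    have h1 := p.val_aeval (fun i => p.pt_mem hf'O i) (rename (eqvH k h c)
      (bigT ℂ ψ (fun j => shear a (F j)) j))
    rw [hYF j, p.val_zero] at h1
    have h3 : ∀ G : MvPolynomial (Fin (k + h + c + 1)) ℂ, G.IsHomogeneous (d j) →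
        eval (Pi.single 0 1) G = coeff (Finsupp.single 0 (d j)) G := by
      intro G hG
      rw [← U0_cfs_zero (N := k + h + c) (d := fun _ : Fin c => d j) (fun _ => G) j]
      have h4 := eval_insertNth 0 hG (0 : Fin (k + h + c) → ℂ)
      have h5 : ((0 : Fin (k + h + c + 1)).insertNth 1 (0 : Fin (k + h + c) → ℂ) :
          Fin (k + h + c + 1) → ℂ) = Pi.single 0 1 := by
        funext i
        refine Fin.cases ?_ (fun b => ?_) i
        · simp
        · rw [Pi.single_eq_of_ne (Fin.succ_ne_zero b)]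
          simp
      rw [h5] at h4
      exact h4
    have h2 : (fun i => p.val (pt f' i)) = (Pi.single 0 1 : Fin (k + h + c + 1) → ℂ) := by
      funext i
      rw [p.val_pt]
      refine Fin.cases ?_ (fun b => ?_) i
      · simp [pt]
      · rw [Pi.single_eq_of_ne (Fin.succ_ne_zero b)]
        exact hf'0 b
    rw [h2, h3 _ (hbig j).rename_isHomogeneous] at h1
    exact h1.symm
  have hne' : eval (cfs d fun j => rename (eqvH k h c)
      (bigT ℂ ψ (fun j => shear a (F j)) j)) Θ ≠ 0 := by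
    rw [hcv _ hbig (fun j => ?_)]
    · exact hne
    · have h1 := hU0 j
      rw [U0_cfs_zero, ← eqvH_zero k h c] at h1
      have h2 : (Finsupp.single (eqvH k h c (Sum.inl 0)) (d j) : Fin (k + h + c + 1) →₀ ℕ) =
          (Finsupp.single (Sum.inl 0) (d j) : (Fin (k + c + 1) ⊕ Fin h) →₀ ℕ).mapDomain
            (eqvH k h c) := by
        rw [Finsupp.mapDomain_single]
      rw [h2, coeff_rename_mapDomain _ (eqvH k h c).injective] at h1
      exact h1
  exact hi (hmain _ (fun j => (hbig j).rename_isHomogeneous) hU0 hne' L D hG f' hYF p hf'O hf'0 i)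

end Pool.Agent.H24C
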