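import Pool.Agent.Lib.H24C.D1
import Pool.Agent.Lib.H24C.G3
import Pool.Agent.Lib.H24C.G4
import Pool.Agent.Lib.H24C.G5H
import Pool.Agent.Lib.H24V.R4

set_option autoImplicit false

/-!
CHUNK G5A (M).  The chart `y_0 ≠ 0`.
-/

open MvPolynomial

namespace Pool.Agent.H24C

open Pool.Agent.H89T Pool.Agent.H67T Pool.Agent.H53U Pool.Agent.H24V

/-- `Θ₀` from `vanish_of_ptd`, `badI_codim`, `CodimGt.mono`, `fibre` with `S' = {b | b.succ ∈ S}` (its complement has as many elements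
as that of `S`, since `0 ∈ S`); for `F` the polynomial `g ≠ 0` in the variables `S'` with `g = aeval (Sum.elim (C (cfT d F ·)) X) G₀`, `G₀ ∈ badI Θ₀`, and the form `G`
of `homog`.  `VanL B F {G}`: let `y` be a nonconstant point; if `y 0 = 0`, fine; otherwise `f b = y b.succ / y 0`, `pt f = (y 0)⁻¹ • y`, so
`aeval (pt f) (F j) = 0` (`aeval_mul_left`, H24V/R4.lean); some `D (f b) ≠ 0`, otherwise all `f b` are constants (`Good.const`) and
`y i = y 0 * algebraMap (x i)`; so `aeval (Sum.elim .. f) G₀ = 0` and this is `aeval f g`. -/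
theorem sForm_zero {B k h c : ℕ} {d : Fin c → ℕ} (hd : ∀ j, 1 ≤ d j) (hP : PtdL B (k + h) d)
    {r s : ℕ} (hrs : r + s ≤ h + c) {S : Finset (Fin (k + c + 1))} (h0 : 0 ∈ S)
    (hS : Sᶜ.card ≤ r) : SForm B s d S := by
  classical
  obtain ⟨Θ₀, hΘ₀, hvan⟩ := vanish_of_ptd hd hP
  have hI : CodimGt (badI Θ₀) (r + s) := (badI_codim hd hΘ₀).mono hrs
  obtain ⟨S', hS'⟩ : ∃ S' : Finset (Fin (k + c)), S' = Finset.univ.filter fun b => b.succ ∈ S := ⟨_, rfl⟩
  have hcard : S'ᶜ.card ≤ r := by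
    refine le_trans ?_ hS
    refine Finset.card_le_card_of_injOn Fin.succ ?_ (Fin.succ_injective _).injOn
    intro b hb
    have hb1 : b ∈ S'ᶜ := hb
    rw [Finset.mem_compl, hS', Finset.mem_filter] at hb1
    refine Finset.mem_coe.2 (Finset.mem_compl.2 fun h2 => hb1 ⟨Finset.mem_univ _, h2⟩)
  obtain ⟨J, hJ, hJF⟩ := fibre hI S' hcard
  refine ⟨J, hJ, fun F hF hΘ => ?_⟩
  obtain ⟨g, hg0, hgS, G₀, hG₀, hgG⟩ := hJF (cfT d F) hΘ
  obtain ⟨e, G, hG0, hGe, hGS, hGy⟩ := homog hg0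
  refine ⟨G, hG0, ⟨e, hGe⟩, hGS (S : Set (Fin (k + c + 1))) (Finset.mem_coe.2 h0) ?_, ?_⟩
  · have hset : {b : Fin (k + c) | b.succ ∈ (S : Set (Fin (k + c + 1)))} = (S' : Set (Fin (k + c))) := by
      ext b
      rw [hS']
      simp
    rw [hset]
    exact hgS
  · intro L _ _ D hG y hy hnc G' hG'
    rw [Set.mem_singleton_iff] at hG'
    rw [hG']
    by_cases hy0 : y 0 = 0
    · exact (hGy L y).1 hy0
    rw [(hGy L y).2 hy0]
    obtain ⟨f, hf⟩ : ∃ f : Fin (k + c) → L, ∀ b, f b = y b.succ / y 0 := ⟨_, fun _ => rfl⟩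
    have hff : (fun b : Fin (k + c) => y b.succ / y 0) = f := by
      funext b
      rw [hf]
    rw [hff]
    have hpt : pt f = fun a => (y 0)⁻¹ * y a := by
      funext a
      refine Fin.cases ?_ (fun b => ?_) a
      · rw [inv_mul_cancel₀ hy0]
        rfl
      · show f b = _
        rw [hf, div_eq_inv_mul]
    have hev : ∀ j, aeval (pt f) (F j) = 0 := by
      intro j
      rw [hpt, aeval_mul_left (hF j), hy j, mul_zero]
    have hb : ∃ b, D (f b) ≠ 0 := by
      by_contra hcon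
      push Not at hcon
      choose x hx using fun b => hG.const (f b) (hcon b)
      refine hnc ⟨y 0, Fin.cons 1 x, fun i => ?_⟩
      refine Fin.cases ?_ (fun b => ?_) i
      · rw [Fin.cons_zero, map_one, mul_one]
      · rw [Fin.cons_succ, ← hx b, hf, mul_div_cancel₀ _ hy0]
    have hz := hvan F hF L D hG f hev hb G₀ hG₀
    have hgz : aeval f g = 0 := by
      rw [hgG, comp_aeval_apply]
      rw [← hz]
      congr 2
      funext i
      rcases i with i | b
      · simp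
      · simp
    rw [hgz, mul_zero]

end Pool.Agent.H24C
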