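import Pool.Agent.Lib.H24C.D1

set_option autoImplicit false

/-!
CHUNK G5B (M).  Permutations of the variables.
-/

open MvPolynomial

namespace Pool.Agent.H24C

open Pool.Agent.H89T Pool.Agent.H67T Pool.Agent.H53U Pool.Agent.H24V

/-- The action of a permutation on the exponents of degree `k`. -/
noncomputable def g5bEx {M k : ℕ} (σ : Equiv.Perm (Fin (M + 1))) :
    Ex (Fin (M + 1)) k ≃ Ex (Fin (M + 1)) k where
  toFun α := ⟨Finsupp.mapDomain σ.symm α.1, by
    rw [mem_Ex, Finsupp.degree_mapDomain]; exact mem_Ex.1 α.2⟩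
  invFun α := ⟨Finsupp.mapDomain σ α.1, by
    rw [mem_Ex, Finsupp.degree_mapDomain]; exact mem_Ex.1 α.2⟩
  left_inv α := by
    apply Subtype.ext
    simp only [← Finsupp.mapDomain_comp]
    rw [Equiv.self_comp_symm, Finsupp.mapDomain_id]
  right_inv α := by
    apply Subtype.ext
    simp only [← Finsupp.mapDomain_comp]
    rw [Equiv.symm_comp_self, Finsupp.mapDomain_id]

/-- The action of a permutation on the coordinates. -/
noncomputable def g5bT {M c : ℕ} (d : Fin c → ℕ) (σ : Equiv.Perm (Fin (M + 1))) :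
    IT (Fin (M + 1)) d ≃ IT (Fin (M + 1)) d :=
  Equiv.sigmaCongrRight fun _ => g5bEx σ

theorem g5b_cfT {M c : ℕ} (d : Fin c → ℕ) (σ : Equiv.Perm (Fin (M + 1)))
    (F : Fin c → MvPolynomial (Fin (M + 1)) ℂ) :
    cfT d (fun j => rename σ (F j)) = cfT d F ∘ g5bT d σ := by
  funext p
  obtain ⟨j, α, hα⟩ := p
  have h := coeff_rename_mapDomain (R := ℂ) σ σ.injective (F j) (Finsupp.mapDomain σ.symm α)
  rw [← Finsupp.mapDomain_comp, Equiv.self_comp_symm, Finsupp.mapDomain_id] at h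
  exact h

theorem g5b_supported {ι : Type} [DecidableEq ι] (e : Equiv.Perm ι) {G : MvPolynomial ι ℂ}
    {S T : Finset ι} (hST : ∀ i ∈ S, e i ∈ T) (hG : G ∈ supported ℂ (S : Set ι)) :
    rename e G ∈ supported ℂ (T : Set ι) := by
  rw [mem_supported] at hG ⊢
  intro i hi
  have h1 := vars_rename e G (Finset.mem_coe.1 hi)
  obtain ⟨k, hk, rfl⟩ := Finset.mem_image.1 h1
  exact hST k (Finset.mem_coe.1 (hG (Finset.mem_coe.2 hk)))

theorem g5b_codim {M c s : ℕ} (d : Fin c → ℕ) (σ : Equiv.Perm (Fin (M + 1)))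
    {I : Ideal (MvPolynomial (IT (Fin (M + 1)) d) ℂ)} (h : CodimGt I s) :
    CodimGt (I.map (rename (R := ℂ) (g5bT d σ)).toRingHom) s := by
  intro S hS
  obtain ⟨G, hG, hG0, hGS⟩ := h (S.image (g5bT d σ).symm) (by
    refine le_trans (le_of_eq ?_) hS
    rw [← Finset.card_image_of_injective Sᶜ (g5bT d σ).symm.injective]
    congr 1
    ext p
    simp only [Finset.mem_compl, Finset.mem_image, not_exists, not_and]
    constructor
    · intro hp
      refine ⟨g5bT d σ p, fun hm => hp _ hm (Equiv.symm_apply_apply _ _), Equiv.symm_apply_apply _ _⟩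
    · rintro ⟨q, hq, rfl⟩ r hr hrq
      exact hq ((g5bT d σ).symm.injective hrq ▸ hr))
  refine ⟨rename (g5bT d σ) G, Ideal.mem_map_of_mem _ hG, ?_, ?_⟩
  · intro h0
    exact hG0 (rename_injective _ (g5bT d σ).injective (by rw [h0, map_zero]))
  · refine g5b_supported (g5bT d σ) ?_ hGS
    intro i hi
    obtain ⟨k, hk, rfl⟩ := Finset.mem_image.1 hi
    rwa [Equiv.apply_symm_apply]

/-- Let `I'` be the ideal for `S.image σ`.  With `F' j = rename σ (F j)`: `cfT d F' p = cfT d F (τ p)`, `τ ⟨j, α⟩ = ⟨j, α.mapDomain σ.symm⟩` (a bijection of `IT`);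
`I = I'.map (rename τ)`; `eval (cfT d F) (rename τ Θ) = eval (cfT d F') Θ` (`eval_rename`).  If all `Θ ∈ I'` vanish at `cfT d F'`, all elements of `I` vanish at `cfT d F`.  `CodimGt I s`:
preimages under `τ` of the sets of coordinates, `rename τ` injective.  `G = rename σ.symm G'`; for `y` take `y' = y ∘ σ.symm`, a nonconstant point of `F'`
(`aeval_rename`); `aeval y G = aeval y' G'`. -/
theorem sForm_perm {B s M c : ℕ} {d : Fin c → ℕ} (σ : Equiv.Perm (Fin (M + 1)))
    {S : Finset (Fin (M + 1))} (h : SForm B s d (S.image σ)) : SForm B s d S := by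
  obtain ⟨I, hI, hF⟩ := h
  refine ⟨_, g5b_codim d σ hI, fun F hFh hΘ => ?_⟩
  have hex : ∃ Θ ∈ I, eval (cfT d fun j => rename σ (F j)) Θ ≠ 0 := by
    by_contra hcon
    push Not at hcon
    obtain ⟨Θ, hΘI, hΘ0⟩ := hΘ
    have hle : I.map (rename (R := ℂ) (g5bT d σ)).toRingHom ≤ RingHom.ker (eval (cfT d F)) := by
      rw [Ideal.map_le_iff_le_comap]
      intro Ψ hΨ
      rw [Ideal.mem_comap, RingHom.mem_ker]
      have h1 := hcon Ψ hΨ
      rw [g5b_cfT, ← eval_rename] at h1
      exact h1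
    exact hΘ0 (RingHom.mem_ker.1 (hle hΘI))
  obtain ⟨G, hG0, ⟨e, he⟩, hGS, hV⟩ := hF (fun j => rename σ (F j))
    (fun j => (hFh j).rename_isHomogeneous) hex
  refine ⟨rename σ.symm G, ?_, ⟨e, he.rename_isHomogeneous⟩, ?_, ?_⟩
  · intro h0
    exact hG0 (rename_injective _ σ.symm.injective (by rw [h0, map_zero]))
  · refine g5b_supported σ.symm ?_ hGS
    intro i hi
    obtain ⟨k, hk, rfl⟩ := Finset.mem_image.1 hi
    rwa [Equiv.symm_apply_apply]
  · intro L _ _ D hD y hy hnc G' hG'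
    rw [Set.mem_singleton_iff.1 hG', aeval_rename]
    refine hV L D hD (y ∘ σ.symm) (fun j => ?_) ?_ G rfl
    · rw [aeval_rename, Function.comp_assoc, Equiv.symm_comp_self, Function.comp_id]
      exact hy j
    · rintro ⟨t, x, hx⟩
      refine hnc ⟨t, x ∘ σ, fun i => ?_⟩
      have h1 := hx (σ i)
      simpa using h1

end Pool.Agent.H24C
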