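import Pool.Agent.Lib.H24C.G5A
import Pool.Agent.Lib.H24C.G5B

set_option autoImplicit false

/-!
CHUNK G6 (M).  The main property from the pointed theorem in dimension `2 n`.
-/

open MvPolynomial

namespace Pool.Agent.H24C

open Pool.Agent.H89T Pool.Agent.H67T Pool.Agent.H53U Pool.Agent.H24V

/-- By `sForm_perm` with the transposition of `0` and an element of `S`, and `sForm_zero`. -/
theorem sForm_of_ptd {B k h c : ℕ} {d : Fin c → ℕ} (hd : ∀ j, 1 ≤ d j) (hP : PtdL B (k + h) d)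
    {r s : ℕ} (hrs : r + s ≤ h + c) {S : Finset (Fin (k + c + 1))} (hne : S.Nonempty)
    (hS : Sᶜ.card ≤ r) : SForm B s d S := by
  obtain ⟨i, hi⟩ := hne
  refine sForm_perm (Equiv.swap 0 i) (sForm_zero hd hP hrs ?_ ?_)
  · exact Finset.mem_image.mpr ⟨i, hi, Equiv.swap_apply_right 0 i⟩
  · rw [Finset.card_compl] at hS ⊢
    rwa [Finset.card_image_of_injective _ (Equiv.injective _)]

/-- Products: `CodimGt` for a finite product of ideals, and a point outside the zero set of the product is outside the zero sets of the factors. -/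
theorem codimGt_prod {ι : Type} [Fintype ι] [DecidableEq ι] {κ : Type} (A : Finset κ)
    (I : κ → Ideal (MvPolynomial ι ℂ)) {s : ℕ} (h : ∀ i ∈ A, CodimGt (I i) s) :
    CodimGt (∏ i ∈ A, I i) s ∧ ∀ f : ι → ℂ, (∃ Θ ∈ ∏ i ∈ A, I i, eval f Θ ≠ 0) →
      ∀ i ∈ A, ∃ Θ ∈ I i, eval f Θ ≠ 0 := by
  classical
  constructor
  · intro S hS
    have h1 : ∀ i : κ, ∃ G : MvPolynomial ι ℂ, i ∈ A → G ∈ I i ∧ G ≠ 0 ∧ G ∈ supported ℂ (S : Set ι) := by
      intro i
      by_cases hi : i ∈ A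
      · obtain ⟨G, hG⟩ := h i hi S hS
        exact ⟨G, fun _ => hG⟩
      · exact ⟨0, fun hi' => absurd hi' hi⟩
    choose G hG using h1
    refine ⟨∏ i ∈ A, G i, Ideal.prod_mem_prod fun i hi => (hG i hi).1, ?_, ?_⟩
    · exact Finset.prod_ne_zero_iff.mpr fun i hi => (hG i hi).2.1
    · exact Subalgebra.prod_mem _ fun i hi => (hG i hi).2.2
  · rintro f ⟨Θ, hΘ, hne⟩ i hi
    exact ⟨Θ, (Ideal.prod_le_inf.trans (Finset.inf_le hi)) hΘ, hne⟩

theorem cg6_form {M : ℕ} {L : Type} [Field L] [Algebra ℂ L] {G : MvPolynomial (Fin (M + 1)) ℂ} {i : Fin (M + 1)}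
    {e : ℕ} (h0 : G ≠ 0) (he : G.IsHomogeneous e) (hs : G ∈ supported ℂ ((({i} : Finset (Fin (M + 1)))) : Set (Fin (M + 1))))
    (y : Fin (M + 1) → L) (hy : aeval y G = 0) : y i = 0 := by
  classical
  have hsup : ∀ m ∈ G.support, m = Finsupp.single i e := by
    intro m hm
    have hdeg : m.degree = e := by
      have := he (mem_support_iff.mp hm)
      rwa [Finsupp.degree_eq_weight_one]
    have hss : m.support ⊆ {i} := by
      intro j hj
      have hjv : j ∈ G.vars := (mem_vars_iff_mem_support j).mpr ⟨m, hm, hj⟩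
      have := (mem_supported.mp hs) hjv
      simpa using this
    have hm1 : m = Finsupp.single i (m i) := Finsupp.support_subset_singleton.mp hss
    rw [hm1, Finsupp.degree_single] at hdeg
    rw [hm1, hdeg]
  have hG : G = monomial (Finsupp.single i e) (coeff (Finsupp.single i e) G) := by
    ext m
    rw [coeff_monomial]
    split_ifs with h
    · rw [h]
    · by_contra hne
      exact h (hsup m (mem_support_iff.mpr hne)).symm
  have hc : coeff (Finsupp.single i e) G ≠ 0 := by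
    intro h
    rw [h, monomial_zero] at hG
    exact h0 hG
  rw [hG, aeval_monomial, Finsupp.prod_single_index (by exact pow_zero _)] at hy
  rcases mul_eq_zero.mp hy with h | h
  · exact absurd h (by simpa using hc)
  · exact eq_zero_of_pow_eq_zero h

/-- Write `M = k + c`, `h = 2 n - k`, `n + n = k + h`.  If `2 (n + c) < M + s`: `I = ⊤`, `T = ∅`.  Otherwise `r₀ = 2 (n + c) - M - s`, `r₀ + s = h + c`;
`I` is the product of the ideals of `sForm_of_ptd` for all nonempty `S` with `Sᶜ.card ≤ r₀`; `T = {G | (∃ e, G.IsHomogeneous e) ∧ VanL B F {G}}`.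
`CodimGt (span T) r`, `r ≤ r₀`: let `Sᶜ.card ≤ r`; for nonempty `S` the form of `SForm`.  If `S = ∅`, then `M + 1 ≤ r₀`, so all the sets `{i}` have complement
of at most `r₀` elements, so for each `i` there is a form `G i ≠ 0`, `G i ∈ supported ℂ {i}`, i.e. `G i = a * X i ^ e`, `a ≠ 0`, with `VanL B F {G i}`; so every nonconstant point `y` has
`y i = 0` for all `i`, contradiction (`y = 0` is constant); so `VanL B F {1}`, and `1 ∈ T`. -/
theorem hypC_of_ptdL {B n c : ℕ} {d : Fin c → ℕ} (hd : ∀ j, 1 ≤ d j) (h : PtdL B (n + n) d) :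
    HypC B (n + c) c d := by
  classical
  intro M s hcM hM
  by_cases hcase : 2 * (n + c) < M + s
  · refine ⟨⊤, fun S _ => ⟨1, Submodule.mem_top, one_ne_zero, Subalgebra.one_mem _⟩, fun F _ _ => ⟨∅, ?_, ?_, ?_⟩⟩
    · rintro G ⟨⟩
    · intro r hr
      omega
    · intro L _ _ D _ y _ _ G hG
      exact absurd hG (Set.notMem_empty G)
  · obtain ⟨k, rfl⟩ := Nat.exists_eq_add_of_le' hcM
    obtain ⟨r₀, hr₀⟩ : ∃ r₀, 2 * (n + c) = r₀ + (k + c + s) := ⟨2 * (n + c) - (k + c + s), by omega⟩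
    obtain ⟨h', hh⟩ : ∃ h', n + n = k + h' := ⟨n + n - k, by omega⟩
    rw [hh] at h
    have hrs : r₀ + s ≤ h' + c := by omega
    have hS : ∀ S : Finset (Fin (k + c + 1)), ∃ I : Ideal (MvPolynomial (IT (Fin (k + c + 1)) d) ℂ),
        S ∈ (Finset.univ.filter fun S : Finset (Fin (k + c + 1)) => S.Nonempty ∧ Sᶜ.card ≤ r₀) →
        CodimGt I s ∧ ∀ F : Fin c → MvPolynomial (Fin (k + c + 1)) ℂ, (∀ j, (F j).IsHomogeneous (d j)) →
        (∃ Θ ∈ I, eval (cfT d F) Θ ≠ 0) →
        ∃ G : MvPolynomial (Fin (k + c + 1)) ℂ, G ≠ 0 ∧ (∃ e, G.IsHomogeneous e) ∧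
          G ∈ supported ℂ (S : Set (Fin (k + c + 1))) ∧ VanL B F {G} := by
      intro S
      by_cases hS : S.Nonempty ∧ Sᶜ.card ≤ r₀
      · obtain ⟨I, hI⟩ := sForm_of_ptd hd h hrs hS.1 hS.2
        exact ⟨I, fun _ => hI⟩
      · exact ⟨⊤, fun h' => absurd (Finset.mem_filter.mp h').2 hS⟩
    choose I hI using hS
    obtain ⟨hcod, hev⟩ := codimGt_prod (Finset.univ.filter fun S : Finset (Fin (k + c + 1)) => S.Nonempty ∧ Sᶜ.card ≤ r₀)
      I (fun S hS => (hI S hS).1)
    refine ⟨_, hcod, fun F hF hΘ => ?_⟩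
    have key : ∀ S : Finset (Fin (k + c + 1)), S.Nonempty → Sᶜ.card ≤ r₀ →
        ∃ G : MvPolynomial (Fin (k + c + 1)) ℂ, G ≠ 0 ∧ (∃ e, G.IsHomogeneous e) ∧
          G ∈ supported ℂ (S : Set (Fin (k + c + 1))) ∧ VanL B F {G} := fun S h1 h2 =>
      (hI S (Finset.mem_filter.mpr ⟨Finset.mem_univ _, h1, h2⟩)).2 F hF
        (hev _ hΘ S (Finset.mem_filter.mpr ⟨Finset.mem_univ _, h1, h2⟩))
    refine ⟨{G | (∃ e, G.IsHomogeneous e) ∧ VanL B F {G}}, fun G hG => hG.1, ?_, ?_⟩
    · intro r hr S hSr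
      have hr' : Sᶜ.card ≤ r₀ := by omega
      rcases S.eq_empty_or_nonempty with rfl | hne
      · rw [Finset.compl_empty, Finset.card_univ, Fintype.card_fin] at hr'
        refine ⟨1, Ideal.subset_span ⟨⟨0, isHomogeneous_one _ _⟩, ?_⟩, one_ne_zero, Subalgebra.one_mem _⟩
        intro L _ _ D hD y hy hn G hG
        exfalso
        apply hn
        refine ⟨0, 0, fun i => ?_⟩
        rw [zero_mul]
        obtain ⟨G', h0, ⟨e, he⟩, hs, hv⟩ := key {i} (Finset.singleton_nonempty i) (by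
          rw [Finset.card_compl, Fintype.card_fin, Finset.card_singleton]
          omega)
        exact cg6_form h0 he hs y (hv L D hD y hy hn G' rfl)
      · obtain ⟨G', h0, he, hs, hv⟩ := key S hne hr'
        exact ⟨G', Ideal.subset_span ⟨he, hv⟩, h0, hs⟩
    · intro L _ _ D hD y hy hn G hG
      exact hG.2 L D hD y hy hn G rfl

end Pool.Agent.H24C
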