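import Pool.Agent.Lib.H24C.UD
import Pool.Agent.Lib.H24C.G8

set_option autoImplicit false

/-!
CHUNK U7 (S/M).  From `HypCU` to the first symmetric power.
-/

open MvPolynomial

namespace Pool.Agent.H24C

open Pool.Agent.H89T Pool.Agent.H67T Pool.Agent.H53U Pool.Agent.H24V

/-- `T' = T ∪ {F j}`; heights by `lt_height_of_codimGt` with `r = 2 N - M - s` (if `2 N < M + s` trivial).  The curve: as in `symHyp_one` (H24V/F1.lean): `H z = lf (y z)`,
`y z a = coeff (single a 1) (H z)`, `IsHol y`, `p 0 = y z`. -/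
theorem specSym_one {N c : ℕ} {d : Fin c → ℕ} (h : HypCU N c d) : SpecSym 1 N c d := by
  classical
  intro M s hcM hMN
  obtain ⟨I, hI, hmain⟩ := h M s hcM hMN
  refine ⟨I, lt_height_of_codimGt hI, fun F hF hΘ => ?_⟩
  obtain ⟨T, hT, hcod, hvan⟩ := hmain F hF hΘ
  refine ⟨T ∪ Set.range F, ?_, fun j => Or.inr ⟨j, rfl⟩, ?_, ?_⟩
  · rintro G (hG | ⟨j, rfl⟩)
    · exact hT G hG
    · exact ⟨d j, hF j⟩
  · have hmono : (Ideal.span T).height ≤ (Ideal.span (T ∪ Set.range F)).height :=
      Ideal.height_mono (Ideal.span_mono Set.subset_union_left)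
    rcases lt_or_ge (2 * N) (M + s) with hlt | hge
    · have h1 : ((2 * N : ℕ) : ℕ∞) < ((M + s : ℕ) : ℕ∞) := by exact_mod_cast hlt
      exact lt_of_lt_of_le h1 le_add_self
    · have h1 := lt_height_of_codimGt (hcod (2 * N - M - s) (by omega))
      have h2 : ((2 * N - M - s : ℕ) : ℕ∞) + 1 ≤ (Ideal.span (T ∪ Set.range F)).height :=
        (Order.add_one_le_of_lt h1).trans hmono
      have h3 : ((2 * N : ℕ) : ℕ∞) < ((2 * N - M - s : ℕ) : ℕ∞) + 1 + ((M + s : ℕ) : ℕ∞) := by
        have h4 : 2 * N < (2 * N - M - s) + 1 + (M + s) := by omega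
        exact_mod_cast h4
      exact lt_of_lt_of_le h3 (add_le_add_left h2 _)
  · intro H hH hnc
    obtain ⟨y, hy⟩ : ∃ y : ℂ → Fin (M + 1) → ℂ, ∀ z a, y z a = coeff (Finsupp.single a 1) (H z) :=
      ⟨_, fun _ _ => rfl⟩
    have hp : ∀ z, y z ≠ 0 ∧ (∀ j, eval (y z) (F j) = 0) ∧ H z = lf (y z) := by
      intro z
      obtain ⟨p, hp0, hpF, hpH⟩ := hH.prod z
      rw [Fin.prod_univ_one] at hpH
      have h1 : y z = p 0 := by
        funext a
        rw [hy, hpH]
        unfold lf
        rw [coeff_sum, Finset.sum_eq_single a]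
        · rw [coeff_C_mul, coeff_X', if_pos rfl, mul_one]
        · intro b _ hb
          rw [coeff_C_mul, coeff_X', if_neg, mul_zero]
          intro h0
          exact hb ((Finsupp.single_left_inj one_ne_zero).1 h0)
        · exact fun h => absurd (Finset.mem_univ _) h
      rw [h1]
      exact ⟨hp0 0, hpF 0, hpH⟩
    have hyH : IsHol y := ⟨fun a => by
      have e : (fun z => y z a) = fun z => coeff (Finsupp.single a 1) (H z) :=
        _root_.funext fun z => hy z a
      rw [e]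
      exact hH.diff _, fun z => (hp z).1⟩
    obtain ⟨z₀, z₁, hz⟩ := hnc
    have hync : ∃ z w, ∀ t : ℂ, y w ≠ t • y z := by
      refine ⟨z₀, z₁, fun t ht => hz t ?_⟩
      rw [(hp z₁).2.2, (hp z₀).2.2, ht]
      unfold lf
      rw [Finset.smul_sum]
      refine Finset.sum_congr rfl fun a _ => ?_
      rw [Pi.smul_apply, smul_eq_mul, map_mul, smul_eq_C_mul, mul_assoc]
    have hv := hvan y hyH (fun z j => (hp z).2.1 j) hync
    intro z
    refine ⟨fun _ => y z, fun _ => (hp z).1, ?_, fun _ j => (hp z).2.1 j, 0, ?_⟩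
    · rw [Fin.prod_univ_one]
      exact (hp z).2.2
    · rintro G (hG | ⟨j, rfl⟩)
      · exact hv G hG z
      · exact (hp z).2.1 j

end Pool.Agent.H24C
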