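import Pool.Agent.Lib.H24C.D1

set_option autoImplicit false

/-!
H24C, module U (entire curves directly, `m = 1`): definitions.
-/

open MvPolynomial

namespace Pool.Agent.H24C

open Pool.Agent.H89T Pool.Agent.H67T Pool.Agent.H53U Pool.Agent.H24V

/-- The forms of `T` vanish along the nonconstant entire curves in `X_F`. -/
def VanU {M c : ℕ} (F : Fin c → MvPolynomial (Fin (M + 1)) ℂ)
    (T : Set (MvPolynomial (Fin (M + 1)) ℂ)) : Prop :=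
  ∀ y : ℂ → Fin (M + 1) → ℂ, IsHol y → (∀ z j, eval (y z) (F j) = 0) →
    (∃ z w, ∀ t : ℂ, y w ≠ t • y z) → ∀ G ∈ T, ∀ z, eval (y z) G = 0

/-- `HypC` for entire curves. -/
def HypCU (N c : ℕ) (d : Fin c → ℕ) : Prop :=
  ∀ M s : ℕ, c ≤ M → M + c ≤ 2 * N →
    ∃ I : Ideal (MvPolynomial (IT (Fin (M + 1)) d) ℂ), CodimGt I s ∧
      ∀ F : Fin c → MvPolynomial (Fin (M + 1)) ℂ, (∀ j, (F j).IsHomogeneous (d j)) →
        (∃ Θ ∈ I, eval (cfT d F) Θ ≠ 0) →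
          ∃ T : Set (MvPolynomial (Fin (M + 1)) ℂ), (∀ G ∈ T, ∃ e, G.IsHomogeneous e) ∧
            (∀ r, r + M + s ≤ 2 * N → CodimGt (Ideal.span T) r) ∧ VanU F T

/-- `SForm` for entire curves. -/
def SFormU (s : ℕ) {M c : ℕ} (d : Fin c → ℕ) (S : Finset (Fin (M + 1))) : Prop :=
  ∃ I : Ideal (MvPolynomial (IT (Fin (M + 1)) d) ℂ), CodimGt I s ∧
    ∀ F : Fin c → MvPolynomial (Fin (M + 1)) ℂ, (∀ j, (F j).IsHomogeneous (d j)) →
      (∃ Θ ∈ I, eval (cfT d F) Θ ≠ 0) →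
        ∃ G : MvPolynomial (Fin (M + 1)) ℂ, G ≠ 0 ∧ (∃ e, G.IsHomogeneous e) ∧
          G ∈ supported ℂ (S : Set (Fin (M + 1))) ∧ VanU F {G}

end Pool.Agent.H24C
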